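import Mathlib
import Pool.Agent.H692R2.USS.T1

set_option autoImplicit false

/-! Sequences which are not concentrated in residue classes: polynomials, primes, dense sequences. -/

namespace Pool.Agent.Helper82K9.PX

open Finset

/-- no residue class to a modulus `D > F` contains more than `η M` of the first `M` elements -/
def Spr (F : ℕ) (η : ℝ) (M : ℕ) (s : ℕ → ℕ) : Prop :=
  ∀ D : ℕ, F < D → ∀ r : ℕ, (((Icc 1 M).filter (fun m => s m % D = r)).card : ℝ) ≤ η * M

/-! ### dense sequences -/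

lemma card_mod (x D r : ℕ) (hD : 1 ≤ D) : (((Icc 1 x).filter (fun n => n % D = r)).card : ℝ) ≤ (x : ℝ) / D + 1 := by
  have hDr : (0 : ℝ) < D := by exact_mod_cast hD
  have h1 : ((Icc 1 x).filter (fun n => n % D = r)).card ≤ (range (x / D + 1)).card := by
    apply card_le_card_of_injOn (fun n => n / D)
    · intro n hn
      rw [mem_coe, mem_filter, mem_Icc] at hn
      rw [mem_coe, mem_range]
      have := Nat.div_le_div_right (c := D) hn.1.2
      show n / D < x / D + 1
      omega
    · intro a ha b hb hab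
      rw [mem_coe, mem_filter] at ha hb
      simp only at hab
      have e1 := Nat.div_add_mod a D
      have e2 := Nat.div_add_mod b D
      rw [hab, ha.2] at e1
      rw [hb.2] at e2
      omega
  rw [card_range] at h1
  calc (((Icc 1 x).filter (fun n => n % D = r)).card : ℝ) ≤ ((x / D + 1 : ℕ) : ℝ) := by exact_mod_cast h1
    _ ≤ (x : ℝ) / D + 1 := by
        push_cast
        have : ((x / D : ℕ) : ℝ) ≤ (x : ℝ) / D := Nat.cast_div_le
        linarith

theorem dense (B : ℕ) (η : ℝ) (hη : 0 < η) : ∃ F M₀ : ℕ, ∀ M : ℕ, M₀ ≤ M → ∀ s : ℕ → ℕ,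
    (∀ m ∈ Icc 1 M, 1 ≤ s m ∧ s m ≤ B * M) → Set.InjOn s (Icc 1 M : Finset ℕ) → Spr F η M s := by
  refine ⟨⌈2 * B / η⌉₊, ⌈2 / η⌉₊, fun M hM s hs hinj D hD r => ?_⟩
  have hDr : (0 : ℝ) < D := by exact_mod_cast (by omega : 0 < D)
  have h1 : 2 * (B : ℝ) / η ≤ D := (Nat.le_ceil _).trans (by exact_mod_cast hD.le)
  have h2 : 2 / η ≤ M := (Nat.le_ceil _).trans (by exact_mod_cast hM)
  rw [div_le_iff₀ hη] at h1 h2
  have h3 : ((Icc 1 M).filter (fun m => s m % D = r)).card ≤ ((Icc 1 (B * M)).filter (fun n => n % D = r)).card := by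
    apply card_le_card_of_injOn s
    · intro m hm
      rw [mem_coe, mem_filter] at hm
      rw [mem_coe, mem_filter, mem_Icc]
      exact ⟨hs m hm.1, hm.2⟩
    · intro a ha b hb hab
      rw [mem_coe, mem_filter] at ha hb
      exact hinj (mem_coe.2 ha.1) (mem_coe.2 hb.1) hab
  refine le_trans (by exact_mod_cast h3) ((card_mod (B * M) D r (by omega)).trans ?_)
  push_cast
  have h4 : (B : ℝ) * M / D ≤ η / 2 * M := by
    rw [div_le_iff₀ hDr]
    have : (0 : ℝ) ≤ M := Nat.cast_nonneg _
    nlinarith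
  linarith

/-! ### polynomials -/

lemma divided (e : ℕ) (he : 1 ≤ e) (P : Polynomial ℤ) (hP : P.natDegree = e) (B : ℤ) (hB : |P.leadingCoeff| ≤ B) (l : ℤ)
    (T : Finset ℤ) (hT : T.card = e + 1) (hl : ∀ i ∈ T, ∀ j ∈ T, |i - j| ≤ l) (D : ℕ) (r : ℤ)
    (hD : ∀ i ∈ T, (D : ℤ) ∣ P.eval i - r) : (D : ℤ) ≤ B * l ^ (e * (e + 1)) := by
  classical
  set Q : Polynomial ℤ := P - Polynomial.C r with hQ
  have hQe : ∀ i, Q.eval i = P.eval i - r := fun i => by rw [hQ, Polynomial.eval_sub, Polynomial.eval_C]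
  set π : ℤ → ℤ := fun i => ∏ j ∈ T.erase i, (i - j) with hπ
  have hπ0 : ∀ i ∈ T, π i ≠ 0 := by
    intro i _
    rw [hπ]
    apply prod_ne_zero_iff.2
    intro j hj
    have := ne_of_mem_erase hj
    omega
  have h1 : (Q.map (Int.castRingHom ℚ)).coeff (T.card - 1) =
      ∑ i ∈ T, ((Q.map (Int.castRingHom ℚ)).eval (i : ℚ)) / ∏ j ∈ T.erase i, ((i : ℚ) - j) := by
    apply Lagrange.coeff_eq_sum (v := fun i : ℤ => (i : ℚ))
    · intro a _ b _ hab
      exact Int.cast_injective hab
    · rw [hT]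
      have h2 : Q.degree ≤ e := by
        rw [hQ]
        refine (Polynomial.degree_sub_le _ _).trans ?_
        apply max_le
        · rw [← hP]; exact Polynomial.degree_le_natDegree
        · refine Polynomial.degree_C_le.trans ?_
          exact_mod_cast Nat.zero_le e
      refine lt_of_le_of_lt ((Polynomial.degree_map_le).trans h2) ?_
      exact_mod_cast Nat.lt_succ_self e
  have hcoeff : Q.coeff e = P.leadingCoeff := by
    rw [hQ, Polynomial.coeff_sub, Polynomial.coeff_C, if_neg (by omega), sub_zero, ← hP]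
    rfl
  rw [hT, Nat.add_sub_cancel, Polynomial.coeff_map, hcoeff] at h1
  have h2 : (P.leadingCoeff * ∏ i ∈ T, π i : ℤ) = ∑ i ∈ T, Q.eval i * ∏ j ∈ T.erase i, π j := by
    have h3 : ((P.leadingCoeff * ∏ i ∈ T, π i : ℤ) : ℚ) = ((∑ i ∈ T, Q.eval i * ∏ j ∈ T.erase i, π j : ℤ) : ℚ) := by
      push_cast
      have h4 : (P.leadingCoeff : ℚ) = ∑ i ∈ T, ((Q.map (Int.castRingHom ℚ)).eval (i : ℚ)) / ∏ j ∈ T.erase i, ((i : ℚ) - j) := h1
      rw [h4, sum_mul]
      refine sum_congr rfl fun i hi => ?_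
      have h5 : (Q.map (Int.castRingHom ℚ)).eval (i : ℚ) = ((Q.eval i : ℤ) : ℚ) := by
        rw [Polynomial.eval_intCast_map]
        simp
      have h6 : (∏ j ∈ T.erase i, ((i : ℚ) - j)) = ((π i : ℤ) : ℚ) := by
        rw [hπ]
        push_cast
        rfl
      have h7 : ((π i : ℤ) : ℚ) ≠ 0 := by exact_mod_cast hπ0 i hi
      rw [h5, h6, ← mul_prod_erase T (fun j => ((π j : ℤ) : ℚ)) hi]
      field_simp
    exact_mod_cast h3
  have h3 : (D : ℤ) ∣ P.leadingCoeff * ∏ i ∈ T, π i := by
    rw [h2]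
    apply dvd_sum
    intro i hi
    rw [hQe]
    exact Dvd.dvd.mul_right (hD i hi) _
  have hlc : P.leadingCoeff ≠ 0 := by
    intro h
    rw [Polynomial.leadingCoeff_eq_zero] at h
    rw [h, Polynomial.natDegree_zero] at hP
    omega
  have h4 : P.leadingCoeff * ∏ i ∈ T, π i ≠ 0 := mul_ne_zero hlc (prod_ne_zero_iff.2 hπ0)
  have h5 : (D : ℤ) ≤ |P.leadingCoeff * ∏ i ∈ T, π i| := by
    apply Int.le_of_dvd (abs_pos.2 h4)
    rwa [dvd_abs]
  have hl0 : 0 ≤ l := by
    obtain ⟨i, hi⟩ : T.Nonempty := by rw [← card_pos, hT]; omega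
    have := hl i hi i hi
    simpa using this
  have h6 : |∏ i ∈ T, π i| ≤ l ^ (e * (e + 1)) := by
    rw [abs_prod]
    calc ∏ i ∈ T, |π i| ≤ ∏ i ∈ T, l ^ e := by
          apply prod_le_prod (fun _ _ => abs_nonneg _)
          intro i hi
          rw [hπ, abs_prod]
          calc ∏ j ∈ T.erase i, |i - j| ≤ ∏ j ∈ T.erase i, l := by
                apply prod_le_prod (fun _ _ => abs_nonneg _)
                intro j hj
                exact hl i hi j (mem_of_mem_erase hj)
            _ = l ^ e := by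
                rw [prod_const, card_erase_of_mem hi, hT, Nat.add_sub_cancel]
      _ = l ^ (e * (e + 1)) := by
          rw [prod_const, hT, ← pow_mul]
  rw [abs_mul] at h5
  refine h5.trans ?_
  exact mul_le_mul hB h6 (abs_nonneg _) ((abs_nonneg _).trans hB)

theorem poly_spr (e : ℕ) (he : 1 ≤ e) (B : ℕ) (η : ℝ) (hη : 0 < η) : ∃ F M₀ : ℕ, ∀ M : ℕ, M₀ ≤ M → ∀ P : Polynomial ℤ,
    P.natDegree = e → |P.leadingCoeff| ≤ B → ∀ s : ℕ → ℕ, (∀ m ∈ Icc 1 M, (s m : ℤ) = P.eval (m : ℤ)) → Spr F η M s := by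
  classical
  obtain ⟨l, hl⟩ : ∃ l : ℕ, l = ⌈2 * e / η⌉₊ + 1 := ⟨_, rfl⟩
  have hl1 : 1 ≤ l := by omega
  have hlr : (0 : ℝ) < l := by exact_mod_cast hl1
  have hle : 2 * (e : ℝ) / η ≤ l := (Nat.le_ceil _).trans (by exact_mod_cast (by omega : ⌈2 * (e : ℝ) / η⌉₊ ≤ l))
  refine ⟨B * l ^ (e * (e + 1)), ⌈2 * e / η⌉₊, fun M hM P hP hB s hs D hD r => ?_⟩
  have hMe : 2 * (e : ℝ) / η ≤ M := (Nat.le_ceil _).trans (by exact_mod_cast hM)
  rw [div_le_iff₀ hη] at hle hMe
  have hM0 : (0 : ℝ) ≤ M := Nat.cast_nonneg _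
  set T := (Icc 1 M).filter (fun m => s m % D = r) with hT
  have hfib : ∀ b ∈ T.image (fun m => m / l), (T.filter (fun m => m / l = b)).card ≤ e := by
    intro b _
    by_contra hcon
    push Not at hcon
    obtain ⟨U, hU1, hU2⟩ := exists_subset_card_eq (Nat.succ_le_of_lt hcon)
    have hU3 : (U.image (fun m : ℕ => (m : ℤ))).card = e + 1 := by
      rw [card_image_of_injective _ Nat.cast_injective, hU2]
    have key := divided e he P hP B hB l (U.image (fun m : ℕ => (m : ℤ))) hU3 (by
      intro i hi j hj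
      rw [mem_image] at hi hj
      obtain ⟨m, hm, rfl⟩ := hi
      obtain ⟨m', hm', rfl⟩ := hj
      have h1 := (mem_filter.1 (hU1 hm)).2
      have h2 := (mem_filter.1 (hU1 hm')).2
      have h3 := Nat.div_add_mod m l
      have h4 := Nat.div_add_mod m' l
      have h5 := Nat.mod_lt m (by omega : 0 < l)
      have h6 := Nat.mod_lt m' (by omega : 0 < l)
      rw [h1] at h3
      rw [h2] at h4
      rw [abs_le]
      constructor <;> omega) D (r : ℤ) (by
      intro i hi
      rw [mem_image] at hi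
      obtain ⟨m, hm, rfl⟩ := hi
      have h1 := (mem_filter.1 (hU1 hm)).1
      rw [hT, mem_filter] at h1
      rw [← hs m h1.1]
      have h2 : s m ≡ r [MOD D] := by
        have h3 := h1.2
        unfold Nat.ModEq
        rw [← h3, Nat.mod_mod]
      exact (Nat.modEq_iff_dvd).1 h2.symm)
    have : (D : ℤ) ≤ ((B * l ^ (e * (e + 1)) : ℕ) : ℤ) := by
      push_cast
      exact key
    have : D ≤ B * l ^ (e * (e + 1)) := by exact_mod_cast this
    omega
  have h1 := card_le_mul_card_image (f := fun m => m / l) T e hfib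
  have h2 : (T.image (fun m => m / l)).card ≤ M / l + 1 := by
    have : T.image (fun m => m / l) ⊆ range (M / l + 1) := by
      intro b hb
      rw [mem_image] at hb
      obtain ⟨m, hm, rfl⟩ := hb
      rw [hT, mem_filter, mem_Icc] at hm
      rw [mem_range]
      have := Nat.div_le_div_right (c := l) hm.1.2
      omega
    refine (card_le_card this).trans ?_
    rw [card_range]
  calc (T.card : ℝ) ≤ ((e * (M / l + 1) : ℕ) : ℝ) := by exact_mod_cast h1.trans (Nat.mul_le_mul_left e h2)
    _ = e * (((M / l : ℕ) : ℝ) + 1) := by push_cast; ring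
    _ ≤ e * ((M : ℝ) / l + 1) := by
        have : ((M / l : ℕ) : ℝ) ≤ (M : ℝ) / l := Nat.cast_div_le
        gcongr
    _ = e * ((M : ℝ) / l) + e := by ring
    _ ≤ η / 2 * M + η / 2 * M := by
        apply add_le_add
        · rw [mul_div_assoc', div_le_iff₀ hlr]
          nlinarith
        · linarith
    _ = η * M := by ring

/-! ### primes -/

lemma divs_le (k : ℕ) : k.divisors.card ≤ 2 * Nat.sqrt k := by
  classical
  rcases Nat.eq_zero_or_pos k with rfl | hk
  · simp
  have h1 : k.divisors ⊆ (Finset.Icc 1 (Nat.sqrt k)) ∪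
      (Finset.Icc 1 (Nat.sqrt k)).image (fun d => k / d) := by
    intro d hd
    have hdk := Nat.dvd_of_mem_divisors hd
    have hd0 := Nat.pos_of_mem_divisors hd
    rw [Finset.mem_union]
    by_cases h : d ≤ Nat.sqrt k
    · left; rw [Finset.mem_Icc]; exact ⟨hd0, h⟩
    · right
      rw [Finset.mem_image]
      refine ⟨k / d, ?_, Nat.div_div_self hdk hk.ne'⟩
      rw [Finset.mem_Icc]
      constructor
      · exact Nat.div_pos (Nat.le_of_dvd hk hdk) hd0
      · by_contra hcon
        push Not at h hcon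
        have h2 : d * (k / d) = k := Nat.mul_div_cancel' hdk
        have h3 := Nat.lt_succ_sqrt k
        have h4 : (Nat.sqrt k + 1) * (Nat.sqrt k + 1) ≤ d * (k / d) := Nat.mul_le_mul h hcon
        rw [h2] at h4
        exact absurd h3 (not_lt.mpr h4)
  calc k.divisors.card ≤ ((Finset.Icc 1 (Nat.sqrt k)) ∪
      (Finset.Icc 1 (Nat.sqrt k)).image (fun d => k / d)).card := Finset.card_le_card h1
    _ ≤ (Finset.Icc 1 (Nat.sqrt k)).card +
      ((Finset.Icc 1 (Nat.sqrt k)).image (fun d => k / d)).card := Finset.card_union_le _ _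
    _ ≤ Nat.sqrt k + Nat.sqrt k := by
        apply add_le_add
        · simp
        · exact Finset.card_image_le.trans (by simp)
    _ = 2 * Nat.sqrt k := by ring

lemma sqrt_le_phi (k : ℕ) (hk : 1 ≤ k) : Real.sqrt k ≤ 2 * Nat.totient k := by
  have h1 : k ≤ k.divisors.card * Nat.totient k := by
    calc k = ∑ e ∈ k.divisors, Nat.totient e := (Nat.sum_totient k).symm
      _ ≤ ∑ _e ∈ k.divisors, Nat.totient k := by
          apply Finset.sum_le_sum
          intro e he
          exact Nat.le_of_dvd (Nat.totient_pos.mpr (by omega))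
            (Nat.totient_dvd_of_dvd (Nat.dvd_of_mem_divisors he))
      _ = k.divisors.card * Nat.totient k := by rw [Finset.sum_const, smul_eq_mul]
  have h2 := divs_le k
  have h3 : k ≤ 2 * Nat.sqrt k * Nat.totient k := h1.trans (Nat.mul_le_mul_right _ h2)
  have h4 : (k : ℝ) ≤ 2 * (Nat.sqrt k : ℝ) * Nat.totient k := by exact_mod_cast h3
  have h5 : (Nat.sqrt k : ℝ) ≤ Real.sqrt k := Real.nat_sqrt_le_real_sqrt
  have h6 : 0 < Real.sqrt k := Real.sqrt_pos.mpr (by exact_mod_cast (by omega : 0 < k))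
  have h7 : Real.sqrt k * Real.sqrt k = k := Real.mul_self_sqrt (by positivity)
  have h8 : (0 : ℝ) ≤ Nat.totient k := by positivity
  have h9 : Real.sqrt k * Real.sqrt k ≤ Real.sqrt k * (2 * Nat.totient k) := by
    rw [h7]
    refine h4.trans ?_
    nlinarith
  exact le_of_mul_le_mul_left h9 h6

/-- the primes in a residue class -/
lemma primes_class (x D r : ℕ) (hx : 2 ≤ x) (hD : 1 ≤ D) (hDx : (D : ℝ) ≤ Real.sqrt x) :
    (((Icc 1 x).filter (fun p => p.Prime ∧ p % D = r)).card : ℝ) ≤ 176 / Real.sqrt D * (x / Real.log x) := by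
  have hxr : (2 : ℝ) ≤ x := by exact_mod_cast hx
  have hx0 : (0 : ℝ) < x := by linarith
  have hDr : (0 : ℝ) < D := by exact_mod_cast hD
  have hlog : 0 < Real.log x := Real.log_pos (by linarith)
  obtain ⟨N, hN⟩ : ∃ N : ℕ, N = x / D + 1 := ⟨_, rfl⟩
  have hsx : Real.sqrt x * Real.sqrt x = x := Real.mul_self_sqrt hx0.le
  have hs0 : 0 < Real.sqrt x := Real.sqrt_pos.2 hx0
  have hxD : Real.sqrt x ≤ x / D := by
    rw [le_div_iff₀ hDr]
    calc Real.sqrt x * D ≤ Real.sqrt x * Real.sqrt x := mul_le_mul_of_nonneg_left hDx hs0.le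
      _ = x := hsx
  have hDx2 : D ≤ x := by
    have : (D : ℝ) ≤ x := by
      refine hDx.trans ?_
      rw [Real.sqrt_le_left hx0.le]
      nlinarith
    exact_mod_cast this
  have hN2 : 2 ≤ N := by
    have : 1 ≤ x / D := (Nat.one_le_div_iff (by omega)).2 hDx2
    omega
  have hNlow : (x : ℝ) / D ≤ N := by
    rw [hN]
    have h1 : x < (x / D + 1) * D := by
      have := Nat.lt_succ_self (x / D)
      exact (Nat.div_lt_iff_lt_mul (by omega)).1 this
    rw [div_le_iff₀ hDr]
    exact_mod_cast h1.le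
  have hNup : (N : ℝ) ≤ 2 * (x / D) := by
    rw [hN]
    push_cast
    have h1 : ((x / D : ℕ) : ℝ) ≤ (x : ℝ) / D := Nat.cast_div_le
    have h2 : (1 : ℝ) ≤ x / D := by
      refine le_trans ?_ hxD
      rw [Real.one_le_sqrt]
      linarith
    linarith
  have hlogN : Real.log x / 2 ≤ Real.log N := by
    rw [← Real.log_sqrt hx0.le]
    exact Real.log_le_log hs0 (hxD.trans hNlow)
  have h1 : ((Icc 1 x).filter (fun p => p.Prime ∧ p % D = r)).card ≤
      ((range N).filter (fun k => (r + k * D).Prime)).card := by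
    apply card_le_card_of_injOn (fun p => p / D)
    · intro p hp
      rw [mem_coe, mem_filter, mem_Icc] at hp
      rw [mem_coe, mem_filter, mem_range]
      constructor
      · have := Nat.div_le_div_right (c := D) hp.1.2
        show p / D < N
        omega
      · have e1 := Nat.div_add_mod p D
        rw [hp.2.2] at e1
        have e2 : r + p / D * D = p := by
          have : D * (p / D) = p / D * D := mul_comm _ _
          omega
        rw [e2]
        exact hp.2.1
    · intro a ha b hb hab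
      rw [mem_coe, mem_filter] at ha hb
      simp only at hab
      have e1 := Nat.div_add_mod a D
      have e2 := Nat.div_add_mod b D
      rw [hab, ha.2.2] at e1
      rw [hb.2.2] at e2
      omega
  have h2 := Pool.Agent.H692R2.USS.t1_brun_titchmarsh r D N hN2 hD
  have hphi0 : (0 : ℝ) < Nat.totient D := by exact_mod_cast Nat.totient_pos.2 (by omega)
  have hsD : 0 < Real.sqrt D := Real.sqrt_pos.2 hDr
  have h3 : (1 : ℝ) / Nat.totient D ≤ 2 / Real.sqrt D := by
    rw [div_le_div_iff₀ hphi0 hsD, one_mul]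
    exact sqrt_le_phi D hD
  calc (((Icc 1 x).filter (fun p => p.Prime ∧ p % D = r)).card : ℝ) ≤
        (((range N).filter (fun k => (r + k * D).Prime)).card : ℝ) := by exact_mod_cast h1
    _ ≤ 22 * ((D : ℝ) / Nat.totient D) * N / Real.log N := h2
    _ ≤ 22 * ((D : ℝ) / Nat.totient D) * (2 * (x / D)) / (Real.log x / 2) := by gcongr
    _ = 88 * (1 / Nat.totient D) * (x / Real.log x) := by
        field_simp
        ring
    _ ≤ 88 * (2 / Real.sqrt D) * (x / Real.log x) := by gcongr
    _ = _ := by ring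

/-- the `m`-th prime, `m ≥ 1` -/
noncomputable def pr (m : ℕ) : ℕ := Nat.nth Nat.Prime (m - 1)

lemma pr_prime (m : ℕ) : (pr m).Prime := Nat.prime_nth_prime _

lemma pr_mono {a b : ℕ} (h : a ≤ b) : pr a ≤ pr b := by
  unfold pr
  exact Nat.nth_monotone Nat.infinite_setOf_prime (by omega)

lemma count_pr (M : ℕ) (hM : 1 ≤ M) : Nat.primeCounting (pr M) = M := by
  unfold Nat.primeCounting Nat.primeCounting' pr
  rw [Nat.count_nth_succ_of_infinite Nat.infinite_setOf_prime]
  omega

theorem primes_spr (η : ℝ) (hη : 0 < η) : ∃ F M₀ : ℕ, ∀ M : ℕ, M₀ ≤ M → Spr F η M pr := by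
  -- the lower bound for the number of primes
  have t1 : Filter.Tendsto (fun n : ℕ => Real.log ((n : ℝ) + 1) / (n : ℝ)) Filter.atTop (nhds 0) := by
    have h1 : Filter.Tendsto (fun x : ℝ => Real.log x / x) Filter.atTop (nhds 0) := by
      have := Real.tendsto_pow_log_div_mul_add_atTop 1 0 1 one_ne_zero
      simpa using this
    have h2 : Filter.Tendsto (fun n : ℕ => Real.log ((n : ℝ) + 1) / ((n : ℝ) + 1)) Filter.atTop (nhds 0) :=
      h1.comp (tendsto_natCast_atTop_atTop.atTop_add tendsto_const_nhds)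
    have h3 : Filter.Tendsto (fun n : ℕ => 2 * (Real.log ((n : ℝ) + 1) / ((n : ℝ) + 1))) Filter.atTop (nhds 0) := by
      simpa using h2.const_mul 2
    refine squeeze_zero' (Filter.Eventually.of_forall fun n => div_nonneg (Real.log_nonneg (by
      have : (0 : ℝ) ≤ n := Nat.cast_nonneg n
      linarith)) (Nat.cast_nonneg n)) ?_ h3
    filter_upwards [Filter.eventually_ge_atTop 1] with n hn
    have hn' : (1 : ℝ) ≤ n := by exact_mod_cast hn
    have hlog : 0 ≤ Real.log ((n : ℝ) + 1) := Real.log_nonneg (by linarith)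
    rw [mul_div_assoc', div_le_div_iff₀ (by linarith) (by linarith)]
    nlinarith
  have t2 : Filter.Tendsto (fun n : ℕ => Real.log (n : ℝ) / Real.sqrt n) Filter.atTop (nhds 0) := by
    have h1 : Filter.Tendsto (fun x : ℝ => Real.log x / x ^ (1 / 2 : ℝ)) Filter.atTop (nhds 0) :=
      (isLittleO_log_rpow_atTop (by norm_num)).tendsto_div_nhds_zero
    have h2 := h1.comp tendsto_natCast_atTop_atTop (α := ℕ)
    refine h2.congr fun n => ?_
    simp only [Function.comp]
    rw [Real.sqrt_eq_rpow]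
  obtain ⟨n1, hn1⟩ := Filter.eventually_atTop.1 (t1.eventually (gt_mem_nhds (show (0 : ℝ) < 1 / 10 by norm_num)))
  obtain ⟨n2, hn2⟩ := Filter.eventually_atTop.1 (t2.eventually (gt_mem_nhds (show (0 : ℝ) < η / 8 by positivity)))
  obtain ⟨F, hF⟩ : ∃ F : ℕ, F = ⌈(352 / η) ^ 2⌉₊ + 1 := ⟨_, rfl⟩
  refine ⟨F, n1 + n2 + 2, fun M hM D hD r => ?_⟩
  have hM1 : 1 ≤ M := by omega
  obtain ⟨x, hx⟩ : ∃ x : ℕ, x = pr M := ⟨_, rfl⟩
  have hxM : M ≤ x := by
    have := Nat.add_two_le_nth_prime (M - 1)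
    rw [hx]
    unfold pr
    omega
  have hx2 : 2 ≤ x := by omega
  have hxr : (2 : ℝ) ≤ x := by exact_mod_cast hx2
  have hx0 : (0 : ℝ) < x := by linarith
  have hlog : 0 < Real.log x := Real.log_pos (by linarith)
  have hMlow : (x : ℝ) / (2 * Real.log x) ≤ M := by
    have h1 := Chebyshev.pi_ge x
    rw [hx, count_pr M hM1, ← hx] at h1
    refine le_trans ?_ h1
    have h2 := hn1 x (by omega)
    rw [div_lt_iff₀ hx0] at h2
    have h3 := Real.log_two_gt_d9
    have h4 : (x : ℝ) / 2 ≤ x * Real.log 2 - Real.log (x + 1) := by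
      have := mul_le_mul_of_nonneg_left h3.le hx0.le
      linarith
    rw [div_le_div_iff₀ (by positivity) hlog]
    calc (x : ℝ) * Real.log x = x / 2 * (2 * Real.log x) := by ring
      _ ≤ (x * Real.log 2 - Real.log (x + 1)) * (2 * Real.log x) := mul_le_mul_of_nonneg_right h4 (by positivity)
  have h1 : ((Icc 1 M).filter (fun m => pr m % D = r)).card ≤ ((Icc 1 x).filter (fun p => p.Prime ∧ p % D = r)).card := by
    apply card_le_card_of_injOn pr
    · intro m hm
      rw [mem_coe, mem_filter, mem_Icc] at hm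
      rw [mem_coe, mem_filter, mem_Icc]
      refine ⟨⟨(pr_prime m).one_le, ?_⟩, pr_prime m, hm.2⟩
      rw [hx]
      exact pr_mono hm.1.2
    · intro a ha b hb hab
      rw [mem_coe, mem_filter, mem_Icc] at ha hb
      unfold pr at hab
      have := Nat.nth_injective Nat.infinite_setOf_prime hab
      omega
  have h1' : (((Icc 1 M).filter (fun m => pr m % D = r)).card : ℝ) ≤
      (((Icc 1 x).filter (fun p => p.Prime ∧ p % D = r)).card : ℝ) := by exact_mod_cast h1
  refine h1'.trans ?_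
  have hDr : (0 : ℝ) < D := by exact_mod_cast (by omega : 0 < D)
  by_cases hDx : (D : ℝ) ≤ Real.sqrt x
  · refine (primes_class x D r hx2 (by omega) hDx).trans ?_
    have h2 : 352 / η ≤ Real.sqrt D := by
      apply Real.le_sqrt_of_sq_le
      refine (Nat.le_ceil _).trans ?_
      exact_mod_cast (by omega : ⌈(352 / η) ^ 2⌉₊ ≤ D)
    have hsD : 0 < Real.sqrt D := Real.sqrt_pos.2 hDr
    have h3 : 176 / Real.sqrt D ≤ η / 2 := by
      rw [div_le_iff₀ hsD]
      rw [div_le_iff₀ hη] at h2
      linarith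
    calc 176 / Real.sqrt D * (x / Real.log x) ≤ η / 2 * (x / Real.log x) := by gcongr
      _ = η * (x / (2 * Real.log x)) := by
          field_simp
      _ ≤ η * M := mul_le_mul_of_nonneg_left hMlow hη.le
  · push Not at hDx
    have h2 : (((Icc 1 x).filter (fun p => p.Prime ∧ p % D = r)).card : ℝ) ≤ (x : ℝ) / D + 1 := by
      refine le_trans ?_ (card_mod x D r (by omega))
      have : (Icc 1 x).filter (fun p => p.Prime ∧ p % D = r) ⊆ (Icc 1 x).filter (fun p => p % D = r) := by
        intro p hp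
        rw [mem_filter] at hp ⊢
        exact ⟨hp.1, hp.2.2⟩
      exact_mod_cast card_le_card this
    refine h2.trans ?_
    have hs0 : 0 < Real.sqrt x := Real.sqrt_pos.2 hx0
    have hsx : Real.sqrt x * Real.sqrt x = x := Real.mul_self_sqrt hx0.le
    have h3 : (x : ℝ) / D ≤ Real.sqrt x := by
      rw [div_le_iff₀ hDr]
      calc (x : ℝ) = Real.sqrt x * Real.sqrt x := hsx.symm
        _ ≤ Real.sqrt x * D := mul_le_mul_of_nonneg_left hDx.le hs0.le
    have h4 := hn2 x (by omega)
    rw [div_lt_iff₀ hs0] at h4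
    have h5 : (1 : ℝ) ≤ Real.sqrt x := by
      rw [Real.one_le_sqrt]; linarith
    have h6 : 2 * Real.sqrt x ≤ η * (x / (2 * Real.log x)) := by
      have h7 : 4 * Real.log x * Real.sqrt x ≤ η * x := by
        calc 4 * Real.log x * Real.sqrt x ≤ 4 * (η / 8 * Real.sqrt x) * Real.sqrt x := by gcongr
          _ = η / 2 * (Real.sqrt x * Real.sqrt x) := by ring
          _ = η / 2 * x := by rw [hsx]
          _ ≤ η * x := by
              have : 0 ≤ η * x := by positivity
              linarith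
      rw [mul_div_assoc', le_div_iff₀ (by positivity)]
      linarith
    have h8 : η * (x / (2 * Real.log x)) ≤ η * M := mul_le_mul_of_nonneg_left hMlow hη.le
    linarith

end Pool.Agent.Helper82K9.PX
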