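import Pool.Agent.Helper82K9.PX.PX1

set_option autoImplicit false

/-! Progressions in windows and the correlation of two values. -/

namespace Pool.Agent.Helper82K9.PX

open Finset
open Pool.Agent.TH892.RT (Bx pv card_Bx cardI val_sum class_pars)
open Pool.Agent.Helper82K9.RQ (CL WF)
open Pool.Agent.W110.HV (SN AD AD_nonneg AD_sum frac_sum)

lemma prog_le (F : ℤ → ℂ) (hb : ∀ u, ‖F u‖ ≤ 1) (W q : ℕ) (hq : 0 < q) (u : ℤ) (r : ℕ) (hr : r ∈ Icc 1 q) :
    ‖∑ s ∈ range (W / q), F (u + ((r + s * q : ℕ) : ℤ))‖ ≤ ‖CL F W u q (r % q)‖ + 1 := by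
  rw [mem_Icc] at hr
  set A := (range (W / q)).image (fun s => r + s * q) with hA
  set B := (Icc 1 W).filter (fun n => n % q = r % q) with hB
  have hWq : W / q * q ≤ W := Nat.div_mul_le_self _ _
  have hAB : A ⊆ B := by
    intro n hn
    rw [hA, mem_image] at hn
    obtain ⟨s, hs, rfl⟩ := hn
    rw [mem_range] at hs
    rw [hB, mem_filter, mem_Icc]
    refine ⟨⟨by omega, ?_⟩, by simp⟩
    have h1 : (s + 1) * q ≤ W / q * q := Nat.mul_le_mul_right q hs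
    have h2 : (s + 1) * q = s * q + q := by ring
    omega
  have hE : B \ A ⊆ {r + W / q * q} := by
    intro n hn
    rw [mem_sdiff, hB, hA, mem_filter, mem_Icc, mem_image] at hn
    obtain ⟨⟨⟨h1, h2⟩, h3⟩, h4⟩ := hn
    rw [mem_singleton]
    have hrn : r ≤ n := by
      by_contra h5
      push Not at h5
      have h6 : r ≡ n [MOD q] := h3.symm
      have h7 := (Nat.modEq_iff_dvd' h5.le).1 h6.symm
      have h8 := Nat.le_of_dvd (by omega) h7
      omega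
    have h6 : q ∣ n - r := (Nat.modEq_iff_dvd' hrn).1 h3.symm
    obtain ⟨s, hs⟩ := h6
    have hn : n = r + s * q := by
      have : q * s = s * q := mul_comm _ _
      omega
    have h7 : s ≤ W / q := by
      have : s * q ≤ W := by omega
      exact (Nat.le_div_iff_mul_le hq).2 this
    rcases Nat.lt_or_ge s (W / q) with h8 | h8
    · exact absurd ⟨s, mem_range.2 h8, hn.symm⟩ h4
    · have : s = W / q := le_antisymm h7 h8
      rw [hn, this]
  have e1 : ∑ s ∈ range (W / q), F (u + ((r + s * q : ℕ) : ℤ)) = ∑ n ∈ A, F (u + (n : ℤ)) := by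
    rw [hA, sum_image]
    intro a _ b _ hab
    simp only at hab
    have : a * q = b * q := by omega
    exact Nat.eq_of_mul_eq_mul_right hq this
  have e2 : CL F W u q (r % q) = ∑ n ∈ B \ A, F (u + (n : ℤ)) + ∑ n ∈ A, F (u + (n : ℤ)) := by
    rw [sum_sdiff hAB]
    rfl
  have e3 : ‖∑ n ∈ B \ A, F (u + (n : ℤ))‖ ≤ 1 := by
    refine (norm_sum_le _ _).trans ((sum_le_sum fun n _ => hb _).trans ?_)
    rw [sum_const, nsmul_eq_mul, mul_one]
    have := card_le_card hE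
    rw [card_singleton] at this
    exact_mod_cast this
  rw [e1]
  have e4 : ∑ n ∈ A, F (u + (n : ℤ)) = CL F W u q (r % q) - ∑ n ∈ B \ A, F (u + (n : ℤ)) := by
    rw [e2]; ring
  rw [e4]
  exact (norm_sub_le _ _).trans (by linarith)

/-- the residue classes modulo `q` in the window -/
noncomputable def Cq (F : ℤ → ℂ) (W q : ℕ) (u : ℤ) : ℝ := ∑ r ∈ range q, ‖CL F W u q r‖

lemma Cq_nonneg (F : ℤ → ℂ) (W q : ℕ) (u : ℤ) : 0 ≤ Cq F W q u := sum_nonneg fun _ _ => norm_nonneg _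

lemma Cq_eq (F : ℤ → ℂ) (W q : ℕ) (hq : 0 < q) (u : ℤ) : ∑ r ∈ Icc 1 q, ‖CL F W u q (r % q)‖ = Cq F W q u := by
  unfold Cq
  apply sum_nbij' (fun r => r % q) (fun r => if r = 0 then q else r)
  · intro r _
    exact mem_range.2 (Nat.mod_lt _ hq)
  · intro r hr
    rw [mem_range] at hr
    rw [mem_Icc]
    split_ifs <;> omega
  · intro r hr
    rw [mem_Icc] at hr
    rcases Nat.lt_or_ge r q with h | h
    · rw [Nat.mod_eq_of_lt h, if_neg (by omega)]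
    · have : r = q := by omega
      subst this
      simp
  · intro r hr
    rw [mem_range] at hr
    split_ifs with h
    · rw [h, Nat.mod_self]
    · exact Nat.mod_eq_of_lt hr
  · intro r _
    rfl

lemma prog_sum (F : ℤ → ℂ) (hb : ∀ u, ‖F u‖ ≤ 1) (W q : ℕ) (hq : 0 < q) (X : ℕ) (hqX : q ≤ X) :
    (q : ℝ) * ∑ u ∈ Icc (-(X : ℤ)) X, ‖∑ s ∈ range (W / q), F (u + ((s : ℤ) + 1) * q)‖ ≤
      ∑ u ∈ Icc (-((2 * X : ℕ) : ℤ)) ((2 * X : ℕ) : ℤ), Cq F W q u + 5 * q * X := by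
  have h1 : ∀ r ∈ Icc 1 q, ∑ u ∈ Icc (-(X : ℤ)) X, ‖∑ s ∈ range (W / q), F (u + ((s : ℤ) + 1) * q)‖ ≤
      ∑ u ∈ Icc (-((2 * X : ℕ) : ℤ)) ((2 * X : ℕ) : ℤ), (‖CL F W u q (r % q)‖ + 1) := by
    intro r hr
    have hr' := mem_Icc.1 hr
    calc ∑ u ∈ Icc (-(X : ℤ)) X, ‖∑ s ∈ range (W / q), F (u + ((s : ℤ) + 1) * q)‖ ≤
          ∑ u ∈ Icc (-(X : ℤ)) X, (‖CL F W (u + ((q : ℤ) - r)) q (r % q)‖ + 1) := by
          apply sum_le_sum
          intro u _
          refine le_trans (le_of_eq ?_) (prog_le F hb W q hq (u + ((q : ℤ) - r)) r hr)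
          congr 1
          refine sum_congr rfl fun s _ => ?_
          congr 1
          push_cast
          ring
      _ = ∑ u ∈ (Icc (-(X : ℤ)) X).image (fun u => u + ((q : ℤ) - r)), (‖CL F W u q (r % q)‖ + 1) := by
          rw [sum_image]
          intro a _ b _ hab
          simpa using hab
      _ ≤ _ := by
          apply sum_le_sum_of_subset_of_nonneg
          · intro u hu
            rw [mem_image] at hu
            obtain ⟨w, hw, rfl⟩ := hu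
            rw [mem_Icc] at hw
            rw [mem_Icc]
            push_cast
            omega
          · intro u _ _
            positivity
  have h2 : (q : ℝ) * ∑ u ∈ Icc (-(X : ℤ)) X, ‖∑ s ∈ range (W / q), F (u + ((s : ℤ) + 1) * q)‖ =
      ∑ r ∈ Icc 1 q, ∑ u ∈ Icc (-(X : ℤ)) X, ‖∑ s ∈ range (W / q), F (u + ((s : ℤ) + 1) * q)‖ := by
    rw [sum_const, Nat.card_Icc, nsmul_eq_mul, Nat.add_sub_cancel]
  rw [h2]
  refine (sum_le_sum h1).trans ?_
  rw [sum_comm]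
  have h3 : ∀ u ∈ Icc (-((2 * X : ℕ) : ℤ)) ((2 * X : ℕ) : ℤ), ∑ r ∈ Icc 1 q, (‖CL F W u q (r % q)‖ + 1) = Cq F W q u + q := by
    intro u _
    rw [sum_add_distrib, Cq_eq F W q hq u, sum_const, Nat.card_Icc, nsmul_eq_mul, mul_one, Nat.add_sub_cancel]
  rw [sum_congr rfl h3, sum_add_distrib, sum_const, nsmul_eq_mul, cardI]
  have hX1 : (1 : ℝ) ≤ X := by exact_mod_cast (by omega : 1 ≤ X)
  have hq0 : (0 : ℝ) ≤ q := Nat.cast_nonneg _
  push_cast
  nlinarith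

lemma pv_smul {d : ℕ} (v r : Fin (d + 1) → ℤ) (s : ℤ) (t : ℕ) : pv (v + s • r) t = pv v t + s * pv r t := by
  unfold pv
  rw [mul_sum, ← sum_add_distrib]
  refine sum_congr rfl fun i _ => ?_
  rw [Pi.add_apply, Pi.smul_apply, smul_eq_mul]
  ring

/-- the correlation of two values, when the second factor does not change under the shifts by `r` -/
lemma pair_pos (F : ℤ → ℂ) (hb : ∀ u, ‖F u‖ ≤ 1) (d H W q : ℕ) (hq : 1 ≤ q) (hqW : q ≤ W)
    (Γ : (Fin (d + 1) → ℤ) → ℂ) (hΓ : ∀ v, ‖Γ v‖ ≤ 1) (r : Fin (d + 1) → ℤ) (hinv : ∀ v (s : ℤ), Γ (v + s • r) = Γ v)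
    (B : ℝ) (hr : ∀ i, |(r i : ℝ)| ≤ B) (t : ℕ) (g : ℤ) (hrt : pv r t = q) (X : ℕ) (hqX : q ≤ X)
    (hX : ∀ v ∈ Bx d H, |pv v t + g| ≤ X) (K : ℝ) (hK0 : 0 ≤ K)
    (hK : ∀ u : ℤ, ((((Bx d H).filter (fun v => pv v t + g = u)).card : ℕ) : ℝ) ≤ K) :
    ‖∑ v ∈ Bx d H, F (pv v t + g) * Γ v‖ ≤ 2 * ((d + 1) * ((W : ℝ) / q * B) * (2 * H + 1) ^ d) +
      2 * K / W * (∑ u ∈ Icc (-((2 * X : ℕ) : ℤ)) ((2 * X : ℕ) : ℤ), Cq F W q u + 5 * q * X) := by
  have hqr : (0 : ℝ) < q := by exact_mod_cast hq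
  have hWr : (0 : ℝ) < W := by exact_mod_cast hq.trans hqW
  have hB0 : 0 ≤ B := (abs_nonneg _).trans (hr 0)
  set M : ℕ := W / q with hM
  have hM1 : 1 ≤ M := (Nat.le_div_iff_mul_le hq).2 (by omega)
  have hMr : (0 : ℝ) < M := by exact_mod_cast hM1
  have hM2 : (M : ℝ) ≤ (W : ℝ) / q := Nat.cast_div_le
  have hM3 : (W : ℝ) ≤ 2 * (M * q) := by
    have h1 : W < (M + 1) * q := by
      rw [hM]
      have := Nat.lt_succ_iff.2 (le_refl (W / q))
      exact (Nat.div_lt_iff_lt_mul hq).1 this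
    have h2 : (M + 1) * q ≤ 2 * (M * q) := by
      have : 1 * q ≤ M * q := Nat.mul_le_mul_right q hM1
      have h3 : (M + 1) * q = M * q + q := by ring
      omega
    exact_mod_cast (h1.le.trans h2)
  set φ : (Fin (d + 1) → ℤ) → ℂ := fun v => F (pv v t + g) * Γ v with hφ
  have hφn : ∀ v, ‖φ v‖ ≤ 1 := by
    intro v
    rw [hφ]
    simp only [norm_mul]
    exact mul_le_one₀ (hb _) (norm_nonneg _) (hΓ _)
  set S := ∑ v ∈ Bx d H, φ v with hS
  have e1 : (M : ℂ) * S = ∑ s ∈ range M, (S - ∑ v ∈ Bx d H, φ (v + ((s : ℤ) + 1) • r)) +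
      ∑ v ∈ Bx d H, (∑ s ∈ range M, F ((pv v t + g) + ((s : ℤ) + 1) * q)) * Γ v := by
    have e2 : ∑ v ∈ Bx d H, (∑ s ∈ range M, F ((pv v t + g) + ((s : ℤ) + 1) * q)) * Γ v =
        ∑ s ∈ range M, ∑ v ∈ Bx d H, φ (v + ((s : ℤ) + 1) • r) := by
      rw [sum_comm]
      refine sum_congr rfl fun v _ => ?_
      rw [sum_mul]
      refine sum_congr rfl fun s _ => ?_
      rw [hφ]
      simp only
      rw [hinv, pv_smul, hrt]
      congr 2
      ring
    rw [e2, sum_sub_distrib, sum_const, card_range, nsmul_eq_mul]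
    ring
  have b1 : ∀ s ∈ range M, ‖S - ∑ v ∈ Bx d H, φ (v + ((s : ℤ) + 1) • r)‖ ≤
      2 * ((d + 1) * ((W : ℝ) / q * B) * (2 * H + 1) ^ d) := by
    intro s hs
    rw [mem_range] at hs
    apply box_shift d H φ hφn
    intro i
    rw [Pi.smul_apply, smul_eq_mul]
    push_cast
    rw [abs_mul]
    apply mul_le_mul _ (hr i) (abs_nonneg _) (by positivity)
    rw [abs_of_nonneg (by positivity)]
    refine le_trans ?_ hM2
    exact_mod_cast hs
  have b2 : ‖∑ v ∈ Bx d H, (∑ s ∈ range M, F ((pv v t + g) + ((s : ℤ) + 1) * q)) * Γ v‖ ≤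
      K * ∑ u ∈ Icc (-(X : ℤ)) X, ‖∑ s ∈ range M, F (u + ((s : ℤ) + 1) * q)‖ := by
    refine (norm_sum_le _ _).trans ?_
    refine le_trans (sum_le_sum fun v _ => ?_) (val_sum (Bx d H) (fun v => pv v t + g) X hX K hK
      (fun u => ‖∑ s ∈ range M, F (u + ((s : ℤ) + 1) * q)‖) (fun _ => norm_nonneg _))
    rw [norm_mul]
    exact mul_le_of_le_one_right (norm_nonneg _) (hΓ v)
  have b3 := prog_sum F hb W q (by omega) X hqX
  rw [← hM] at b3
  set P := ∑ u ∈ Icc (-(X : ℤ)) X, ‖∑ s ∈ range M, F (u + ((s : ℤ) + 1) * q)‖ with hP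
  set E := ∑ u ∈ Icc (-((2 * X : ℕ) : ℤ)) ((2 * X : ℕ) : ℤ), Cq F W q u + 5 * q * X with hE
  have b4 : (M : ℝ) * ‖S‖ ≤ M * (2 * ((d + 1) * ((W : ℝ) / q * B) * (2 * H + 1) ^ d)) + K * P := by
    have : (M : ℝ) * ‖S‖ = ‖(M : ℂ) * S‖ := by
      rw [norm_mul, Complex.norm_natCast]
    rw [this, e1]
    refine (norm_add_le _ _).trans (add_le_add ?_ b2)
    refine (norm_sum_le _ _).trans ((sum_le_sum b1).trans (le_of_eq ?_))
    rw [sum_const, card_range, nsmul_eq_mul]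
  have hE0 : 0 ≤ E := add_nonneg (sum_nonneg fun _ _ => Cq_nonneg _ _ _ _) (by positivity)
  have b5 : K * P ≤ M * (2 * K / W * E) := by
    have h1 : P ≤ E / q := by
      rw [le_div_iff₀ hqr, mul_comm]
      exact b3
    have h2 : E / q ≤ M * (2 / W * E) := by
      rw [div_le_iff₀ hqr]
      have h3 : (1 : ℝ) ≤ M * q * (2 / W) := by
        rw [mul_div_assoc', le_div_iff₀ hWr]
        linarith
      nlinarith
    calc K * P ≤ K * (M * (2 / W * E)) := mul_le_mul_of_nonneg_left (h1.trans h2) hK0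
      _ = _ := by ring
  have b6 : (M : ℝ) * ‖S‖ ≤ M * (2 * ((d + 1) * ((W : ℝ) / q * B) * (2 * H + 1) ^ d) + 2 * K / W * E) := by
    rw [mul_add]
    linarith
  exact le_of_mul_le_mul_left b6 hMr

lemma pair (F : ℤ → ℂ) (hb : ∀ u, ‖F u‖ ≤ 1) (d H W : ℕ)
    (Γ : (Fin (d + 1) → ℤ) → ℂ) (hΓ : ∀ v, ‖Γ v‖ ≤ 1) (r : Fin (d + 1) → ℤ) (hinv : ∀ v (s : ℤ), Γ (v + s • r) = Γ v)
    (B : ℝ) (hr : ∀ i, |(r i : ℝ)| ≤ B) (t : ℕ) (g : ℤ) (q : ℕ) (hq : 1 ≤ q) (hqW : q ≤ W) (hrt : (pv r t).natAbs = q)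
    (X : ℕ) (hqX : q ≤ X)
    (hX : ∀ v ∈ Bx d H, |pv v t + g| ≤ X) (K : ℝ) (hK0 : 0 ≤ K)
    (hK : ∀ u : ℤ, ((((Bx d H).filter (fun v => pv v t + g = u)).card : ℕ) : ℝ) ≤ K) :
    ‖∑ v ∈ Bx d H, F (pv v t + g) * Γ v‖ ≤ 2 * ((d + 1) * ((W : ℝ) / q * B) * (2 * H + 1) ^ d) +
      2 * K / W * (∑ u ∈ Icc (-((2 * X : ℕ) : ℤ)) ((2 * X : ℕ) : ℤ), Cq F W q u + 5 * q * X) := by
  rcases Int.natAbs_eq (pv r t) with h | h
  · rw [hrt] at h
    exact pair_pos F hb d H W q hq hqW Γ hΓ r hinv B hr t g h X hqX hX K hK0 hK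
  · rw [hrt] at h
    refine pair_pos F hb d H W q hq hqW Γ hΓ (-r) (fun v s => ?_) B (fun i => ?_) t g ?_ X hqX hX K hK0 hK
    · have := hinv v (-s)
      rw [neg_smul] at this
      rw [smul_neg]
      exact this
    · rw [Pi.neg_apply]
      push_cast
      rw [abs_neg]
      exact hr i
    · have h1 := pv_smul 0 r (-1) t
      have h2 : pv (0 : Fin (d + 1) → ℤ) t = 0 := by
        unfold pv
        simp
      rw [h2, h, zero_add, zero_add] at h1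
      have h3 : (-1 : ℤ) • r = -r := by simp
      rw [h3] at h1
      rw [h1]
      ring

/-- the residue classes and the fractions -/
lemma Cq_le (F : ℤ → ℂ) (W q : ℕ) (hq : 0 < q) (u : ℤ) :
    Cq F W q u ≤ Real.sqrt (∑ D ∈ q.divisors, AD W (fun n => F (u + n)) D) := by
  apply Real.le_sqrt_of_sq_le
  unfold Cq
  refine (sq_sum_le_card_mul_sum_sq (s := range q) (f := fun r => ‖CL F W u q r‖)).trans ?_
  rw [card_range]
  have e1 := class_pars W (fun n => F (u + n)) q hq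
  have e2 : ∑ b ∈ range q, ‖SN W (fun n => F (u + n)) ((b : ℝ) / q)‖ ^ 2 =
      ∑ D ∈ q.divisors, AD W (fun n => F (u + n)) D :=
    frac_sum q hq (fun _ θ => ‖SN W (fun n => F (u + n)) θ‖ ^ 2)
  rw [← e2, ← e1]
  rfl

end Pool.Agent.Helper82K9.PX
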