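import Pool.Agent.Helper82K9.PX.PX2
import Pool.Agent.H353R2.Z2

set_option autoImplicit false

/-! The moduli which are values of products of linear forms. -/

namespace Pool.Agent.Helper82K9.PX

open Finset
open Pool.Agent.TH892.RT (cardI sqrt_sum_le)
open Pool.Agent.Helper82K9.RQ (CL WF)
open Pool.Agent.W110.HV (SN AD AD_nonneg AD_sum frac_sum)

lemma dvd_gcd_prod (s : Finset ℕ) (b : ℕ → ℕ) (D : ℕ) :
    ∀ c : ℕ, D ∣ c * ∏ i ∈ s, b i → D ∣ c * ∏ i ∈ s, Nat.gcd D (b i) := by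
  classical
  induction s using Finset.induction_on with
  | empty => intro c h; simpa using h
  | insert a s ha ih =>
    intro c h
    rw [prod_insert ha] at h ⊢
    have h1 : D ∣ b a * (c * ∏ i ∈ s, b i) := by
      have : c * (b a * ∏ i ∈ s, b i) = b a * (c * ∏ i ∈ s, b i) := by ring
      rwa [this] at h
    have h2 := Nat.dvd_gcd_mul_iff_dvd_mul.2 h1
    have h3 : D ∣ (Nat.gcd D (b a) * c) * ∏ i ∈ s, b i := by
      rw [mul_assoc]; exact h2
    have h4 := ih _ h3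
    have : c * (Nat.gcd D (b a) * ∏ i ∈ s, Nat.gcd D (b i)) = Nat.gcd D (b a) * c * ∏ i ∈ s, Nat.gcd D (b i) := by ring
    rw [this]
    exact h4

lemma big_gcd (s : Finset ℕ) (hs : s.Nonempty) (b : ℕ → ℕ) (D c : ℕ) (hc : 1 ≤ c) (hD : 1 ≤ D)
    (h : D ∣ c * ∏ i ∈ s, b i) : ∃ i ∈ s, D ≤ c * (Nat.gcd D (b i)) ^ s.card := by
  obtain ⟨i, hi, hm⟩ := s.exists_max_image (fun i => Nat.gcd D (b i)) hs
  refine ⟨i, hi, ?_⟩
  have h1 := dvd_gcd_prod s b D c h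
  have h2 : 0 < c * ∏ i ∈ s, Nat.gcd D (b i) := by
    apply Nat.mul_pos hc
    apply Finset.prod_pos
    intro j _
    exact Nat.gcd_pos_of_pos_left _ hD
  refine (Nat.le_of_dvd h2 h1).trans ?_
  apply Nat.mul_le_mul_left
  exact Finset.prod_le_pow_card _ _ _ hm

lemma card_dvd (x e : ℕ) (he : 1 ≤ e) (a : ℤ) :
    (((Icc (-(x : ℤ)) x).filter (fun v => (e : ℤ) ∣ v + a)).card : ℝ) ≤ 2 * x / e + 2 := by
  have hnz : (0 : ℤ) < e := by exact_mod_cast he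
  have hnr : (0 : ℝ) < e := by exact_mod_cast he
  have h1 : ((Icc (-(x : ℤ)) x).filter (fun v => (e : ℤ) ∣ v + a)).card ≤ (Icc ((a - x) / e) ((a + x) / e)).card := by
    apply card_le_card_of_injOn (fun v => (v + a) / e)
    · intro v hv
      rw [mem_coe, mem_filter, mem_Icc] at hv
      rw [mem_coe, mem_Icc]
      constructor
      · exact Int.ediv_le_ediv hnz (by omega)
      · exact Int.ediv_le_ediv hnz (by omega)
    · intro v hv w hw hab
      rw [mem_coe, mem_filter] at hv hw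
      simp only at hab
      have e1 := Int.mul_ediv_cancel' hv.2
      have e2 := Int.mul_ediv_cancel' hw.2
      rw [hab] at e1
      omega
  rw [Int.card_Icc] at h1
  have h2 : ((((a + x) / e + 1 - (a - x) / e).toNat : ℕ) : ℝ) ≤ 2 * x / e + 2 := by
    have h3 : (a - x) / (e : ℤ) ≤ (a + x) / e := Int.ediv_le_ediv hnz (by omega)
    have h4 : ((((a + x) / e + 1 - (a - x) / e).toNat : ℕ) : ℤ) = (a + x) / e + 1 - (a - x) / e :=
      Int.toNat_of_nonneg (by omega)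
    have h5 : ((((a + x) / e + 1 - (a - x) / e).toNat : ℕ) : ℝ) = (((a + x) / e : ℤ) : ℝ) + 1 - (((a - x) / e : ℤ) : ℝ) := by
      exact_mod_cast h4
    rw [h5]
    have h6 : (((a + x) / e : ℤ) : ℝ) * e ≤ a + x := by
      have := Int.ediv_mul_le (a + x) hnz.ne'
      exact_mod_cast this
    have h7 : (a : ℝ) - x < ((((a - x) / e : ℤ) : ℝ) + 1) * e := by
      have := Int.lt_ediv_add_one_mul_self (a - x) hnz
      exact_mod_cast this
    have h8 : ((((a + x) / e : ℤ) : ℝ) + 1 - (((a - x) / e : ℤ) : ℝ)) * e ≤ (2 * x / e + 2) * e := by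
      have : (2 * (x : ℝ) / e + 2) * e = 2 * x + 2 * e := by field_simp
      rw [this]
      nlinarith
    exact le_of_mul_le_mul_right h8 hnr
  exact le_trans (by exact_mod_cast h1) h2

/-- the modulus `c ∏ |v + a_b|` -/
def md (J : Finset ℕ) (a : ℕ → ℤ) (c : ℕ) (v : ℤ) : ℕ := c * ∏ b ∈ J, (v + a b).natAbs

lemma ND (J : Finset ℕ) (hJ : J.Nonempty) (a : ℕ → ℤ) (c : ℕ) (hc : 1 ≤ c) (x D : ℕ) (hD : 1 ≤ D) :
    (((Icc (-(x : ℤ)) x).filter (fun v => D ∣ md J a c v)).card : ℝ) ≤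
      J.card * (D.divisors.card * (2 * x * ((c : ℝ) / D) ^ ((J.card : ℝ)⁻¹) + 2)) := by
  classical
  have hDr : (0 : ℝ) < D := by exact_mod_cast hD
  have hJ0 : J.card ≠ 0 := (card_pos.2 hJ).ne'
  have hsub : (Icc (-(x : ℤ)) x).filter (fun v => D ∣ md J a c v) ⊆ J.biUnion (fun b =>
      (D.divisors.filter (fun e => D ≤ c * e ^ J.card)).biUnion (fun e =>
        (Icc (-(x : ℤ)) x).filter (fun v => (e : ℤ) ∣ v + a b))) := by
    intro v hv
    rw [mem_filter] at hv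
    obtain ⟨b, hb, hb2⟩ := big_gcd J hJ (fun b => (v + a b).natAbs) D c hc hD hv.2
    rw [mem_biUnion]
    refine ⟨b, hb, mem_biUnion.2 ⟨Nat.gcd D (v + a b).natAbs, ?_, ?_⟩⟩
    · rw [mem_filter, Nat.mem_divisors]
      exact ⟨⟨Nat.gcd_dvd_left _ _, by omega⟩, hb2⟩
    · rw [mem_filter]
      refine ⟨hv.1, ?_⟩
      rw [Int.natCast_dvd]
      exact Nat.gcd_dvd_right _ _
  have hone : ∀ b ∈ J, ∀ e ∈ D.divisors.filter (fun e => D ≤ c * e ^ J.card),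
      (((Icc (-(x : ℤ)) x).filter (fun v => (e : ℤ) ∣ v + a b)).card : ℝ) ≤
        2 * x * ((c : ℝ) / D) ^ ((J.card : ℝ)⁻¹) + 2 := by
    intro b _ e he
    rw [mem_filter, Nat.mem_divisors] at he
    have he1 : 1 ≤ e := Nat.pos_of_dvd_of_pos he.1.1 hD
    have her : (0 : ℝ) < e := by exact_mod_cast he1
    refine (card_dvd x e he1 (a b)).trans ?_
    have h1 : (1 : ℝ) / e ≤ ((c : ℝ) / D) ^ ((J.card : ℝ)⁻¹) := by
      have h2 : ((1 : ℝ) / e) ^ J.card ≤ (c : ℝ) / D := by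
        rw [div_pow, one_pow, div_le_div_iff₀ (by positivity) hDr, one_mul]
        exact_mod_cast he.2
      have h3 := Real.rpow_le_rpow (by positivity) h2 (by positivity : (0 : ℝ) ≤ (J.card : ℝ)⁻¹)
      rwa [Real.pow_rpow_inv_natCast (by positivity) hJ0] at h3
    have h4 : 2 * (x : ℝ) / e = 2 * x * (1 / e) := by ring
    rw [h4]
    have h5 : 2 * (x : ℝ) * (1 / e) ≤ 2 * x * ((c : ℝ) / D) ^ ((J.card : ℝ)⁻¹) :=
      mul_le_mul_of_nonneg_left h1 (by positivity)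
    linarith
  have hR0 : (0 : ℝ) ≤ 2 * x * ((c : ℝ) / D) ^ ((J.card : ℝ)⁻¹) + 2 := by positivity
  calc (((Icc (-(x : ℤ)) x).filter (fun v => D ∣ md J a c v)).card : ℝ) ≤
        ((∑ b ∈ J, ∑ e ∈ D.divisors.filter (fun e => D ≤ c * e ^ J.card),
          ((Icc (-(x : ℤ)) x).filter (fun v => (e : ℤ) ∣ v + a b)).card : ℕ) : ℝ) := by
        refine Nat.cast_le.2 ((card_le_card hsub).trans (card_biUnion_le.trans (sum_le_sum fun b _ => ?_)))
        exact card_biUnion_le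
    _ ≤ ∑ b ∈ J, ∑ e ∈ D.divisors.filter (fun e => D ≤ c * e ^ J.card),
          (2 * x * ((c : ℝ) / D) ^ ((J.card : ℝ)⁻¹) + 2) := by
        push_cast
        exact sum_le_sum fun b hb => sum_le_sum fun e he => hone b hb e he
    _ ≤ ∑ b ∈ J, (D.divisors.card * (2 * x * ((c : ℝ) / D) ^ ((J.card : ℝ)⁻¹) + 2)) := by
        apply sum_le_sum
        intro b _
        rw [sum_const, nsmul_eq_mul]
        apply mul_le_mul_of_nonneg_right _ hR0
        exact_mod_cast card_filter_le _ _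
    _ = _ := by
        rw [sum_const, nsmul_eq_mul]

/-- few of the moduli are divisible by a given large integer -/
lemma ND2 (J : Finset ℕ) (hJ : J.Nonempty) (a : ℕ → ℤ) (c : ℕ) (hc : 1 ≤ c) (c₁ : ℕ) (hc₁ : 1 ≤ c₁) (η : ℝ) (hη : 0 < η) :
    ∃ F0 x0 : ℕ, 1 ≤ F0 ∧ ∀ x : ℕ, x0 ≤ x → ∀ D : ℕ, F0 < D → D ≤ c₁ * x ^ J.card →
      (((Icc (-(x : ℤ)) x).filter (fun v => D ∣ md J a c v)).card : ℝ) ≤ η * x := by
  have hJ0 : J.card ≠ 0 := (card_pos.2 hJ).ne'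
  have hJ1 : (1 : ℝ) ≤ J.card := by exact_mod_cast card_pos.2 hJ
  have hJp : (0 : ℝ) < J.card := by linarith
  have hcr : (1 : ℝ) ≤ c := by exact_mod_cast hc
  have hc₁r : (1 : ℝ) ≤ c₁ := by exact_mod_cast hc₁
  set θ : ℝ := (J.card : ℝ)⁻¹ / 2 with hθ
  have hθ0 : 0 < θ := by positivity
  have hθ1 : θ ≤ 1 := by
    have : (J.card : ℝ)⁻¹ ≤ 1 := inv_le_one_of_one_le₀ hJ1
    rw [hθ]; linarith
  obtain ⟨C, hC0, hC⟩ := H353.divisor_bound_real θ hθ0
  -- the choice of `F0`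
  have t1 : Filter.Tendsto (fun n : ℕ => ((n : ℝ)) ^ (-θ)) Filter.atTop (nhds 0) :=
    (tendsto_rpow_neg_atTop hθ0).comp tendsto_natCast_atTop_atTop
  have t2 : Filter.Tendsto (fun n : ℕ => ((n : ℝ)) ^ (-(1 / 2 : ℝ))) Filter.atTop (nhds 0) :=
    (tendsto_rpow_neg_atTop (by norm_num)).comp tendsto_natCast_atTop_atTop
  set κ : ℝ := η / (4 * (J.card * (C * c))) with hκ
  have hκ0 : 0 < κ := by positivity
  set κ' : ℝ := η / (4 * (J.card * (C * c₁))) with hκ'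
  have hκ'0 : 0 < κ' := by positivity
  obtain ⟨F0, hF0⟩ := Filter.eventually_atTop.1 (t1.eventually (gt_mem_nhds hκ0))
  obtain ⟨x0, hx0⟩ := Filter.eventually_atTop.1 (t2.eventually (gt_mem_nhds hκ'0))
  refine ⟨max F0 1, max x0 1, le_max_right _ _, fun x hx D hD1 hD2 => ?_⟩
  have hx1 : 1 ≤ x := (le_max_right _ _).trans hx
  have hxr : (0 : ℝ) < x := by exact_mod_cast hx1
  have hxr1 : (1 : ℝ) ≤ x := by exact_mod_cast hx1
  have hD3 : 1 ≤ D := by omega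
  have hDr : (0 : ℝ) < D := by exact_mod_cast hD3
  refine (ND J hJ a c hc x D hD3).trans ?_
  have h1 := hC D (by omega)
  have h2 : (D : ℝ) ^ (-θ) < κ := hF0 D (by have := le_max_left F0 1; omega)
  have h3 : (x : ℝ) ^ (-(1 / 2 : ℝ)) < κ' := hx0 x ((le_max_left _ _).trans hx)
  have e1 : ((c : ℝ) / D) ^ ((J.card : ℝ)⁻¹) = (c : ℝ) ^ ((J.card : ℝ)⁻¹) * (D : ℝ) ^ (-(2 * θ)) := by
    rw [Real.div_rpow (by positivity) (by positivity), Real.rpow_neg (by positivity), div_eq_mul_inv]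
    congr 3
    rw [hθ]; ring
  have e2 : (c : ℝ) ^ ((J.card : ℝ)⁻¹) ≤ c := by
    calc (c : ℝ) ^ ((J.card : ℝ)⁻¹) ≤ (c : ℝ) ^ (1 : ℝ) :=
          Real.rpow_le_rpow_of_exponent_le hcr (inv_le_one_of_one_le₀ hJ1)
      _ = c := Real.rpow_one _
  have e3 : (D : ℝ) ^ θ * (D : ℝ) ^ (-(2 * θ)) = (D : ℝ) ^ (-θ) := by
    rw [← Real.rpow_add hDr]
    congr 1
    ring
  have e4 : (D : ℝ) ^ θ ≤ c₁ * (x : ℝ) ^ (1 / 2 : ℝ) := by
    have h4 : (D : ℝ) ≤ c₁ * (x : ℝ) ^ J.card := by exact_mod_cast hD2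
    calc (D : ℝ) ^ θ ≤ (c₁ * (x : ℝ) ^ J.card) ^ θ := Real.rpow_le_rpow hDr.le h4 hθ0.le
      _ = (c₁ : ℝ) ^ θ * ((x : ℝ) ^ J.card) ^ θ := Real.mul_rpow (by positivity) (by positivity)
      _ ≤ c₁ * (x : ℝ) ^ (1 / 2 : ℝ) := by
          apply mul_le_mul _ _ (by positivity) (by positivity)
          · calc (c₁ : ℝ) ^ θ ≤ (c₁ : ℝ) ^ (1 : ℝ) := Real.rpow_le_rpow_of_exponent_le hc₁r hθ1
              _ = c₁ := Real.rpow_one _
          · rw [← Real.rpow_natCast, ← Real.rpow_mul hxr.le]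
            apply le_of_eq
            congr 1
            rw [hθ]
            field_simp
  have e5 : (x : ℝ) ^ (1 / 2 : ℝ) = x * (x : ℝ) ^ (-(1 / 2 : ℝ)) := by
    have : (x : ℝ) * (x : ℝ) ^ (-(1 / 2 : ℝ)) = (x : ℝ) ^ (1 : ℝ) * (x : ℝ) ^ (-(1 / 2 : ℝ)) := by rw [Real.rpow_one]
    rw [this, ← Real.rpow_add hxr]
    congr 1
    norm_num
  have hR0 : (0 : ℝ) ≤ 2 * x * ((c : ℝ) / D) ^ ((J.card : ℝ)⁻¹) + 2 := by positivity
  calc (J.card : ℝ) * (D.divisors.card * (2 * x * ((c : ℝ) / D) ^ ((J.card : ℝ)⁻¹) + 2)) ≤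
        J.card * ((C * (D : ℝ) ^ θ) * (2 * x * ((c : ℝ) / D) ^ ((J.card : ℝ)⁻¹) + 2)) := by
        gcongr
    _ = J.card * (C * (2 * x * (c : ℝ) ^ ((J.card : ℝ)⁻¹) * ((D : ℝ) ^ θ * (D : ℝ) ^ (-(2 * θ))) + 2 * (D : ℝ) ^ θ)) := by
        rw [e1]; ring
    _ ≤ J.card * (C * (2 * x * c * κ + 2 * (c₁ * (x * κ')))) := by
        rw [e3]
        rw [e5] at e4
        have h5 : (D : ℝ) ^ θ ≤ c₁ * (x * κ') := e4.trans (by gcongr)
        gcongr
    _ = η * x := by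
        rw [hκ, hκ']
        field_simp
        ring

/-- the residue classes of a window, averaged over the moduli -/
lemma avg (J : Finset ℕ) (hJ : J.Nonempty) (a : ℕ → ℤ) (c : ℕ) (hc : 1 ≤ c) (c₁ : ℕ) (hc₁ : 1 ≤ c₁) (η : ℝ) (hη : 0 < η) :
    ∃ F0 x0 : ℕ, 1 ≤ F0 ∧ 1 ≤ x0 ∧ ∀ x : ℕ, x0 ≤ x → ∀ F : ℤ → ℂ, (∀ u, ‖F u‖ ≤ 1) → ∀ W : ℕ, (c₁ * x ^ J.card) ^ 2 ≤ W →
      ∀ V : Finset ℤ, V ⊆ Icc (-(x : ℤ)) x → (∀ v ∈ V, 0 < md J a c v ∧ md J a c v ≤ c₁ * x ^ J.card) → ∀ u : ℤ,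
      ∑ v ∈ V, Cq F W (md J a c v) u ≤
        3 * x * ∑ D ∈ Icc 1 F0, ∑ b ∈ range D, ‖WF F W u ((b : ℝ) / D)‖ + η * x * W := by
  obtain ⟨F0, x0, hF0, hN⟩ := ND2 J hJ a c hc c₁ hc₁ ((η / 6) ^ 2) (by positivity)
  refine ⟨F0, max x0 1, hF0, le_max_right _ _, fun x hx F hb W hW V hV hVq u => ?_⟩
  have hx1 : 1 ≤ x := (le_max_right _ _).trans hx
  have hxr1 : (1 : ℝ) ≤ x := by exact_mod_cast hx1
  have hxr : (0 : ℝ) < x := by linarith
  set Z : ℕ := c₁ * x ^ J.card with hZ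
  set g : ℕ → ℂ := fun n => F (u + n) with hg
  set T : ℤ → ℝ := fun v => ∑ D ∈ (md J a c v).divisors, AD W g D with hT
  have hT0 : ∀ v, 0 ≤ T v := fun v => sum_nonneg fun D _ => AD_nonneg _ _ _
  have h1 : ∑ v ∈ V, Cq F W (md J a c v) u ≤ ∑ v ∈ V, Real.sqrt (T v) :=
    sum_le_sum fun v hv => Cq_le F W _ (hVq v hv).1 u
  have hVc : (V.card : ℝ) ≤ 3 * x := by
    have h2 := card_le_card hV
    have h3 := cardI x
    have h4 : (V.card : ℝ) ≤ ((Icc (-(x : ℤ)) x).card : ℝ) := by exact_mod_cast h2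
    linarith
  set A := ∑ D ∈ Icc 1 F0, AD W g D with hA
  have hA0 : 0 ≤ A := sum_nonneg fun D _ => AD_nonneg _ _ _
  have hg2 : ∑ n ∈ Icc 1 W, ‖g n‖ ^ 2 ≤ W := by
    calc ∑ n ∈ Icc 1 W, ‖g n‖ ^ 2 ≤ ∑ n ∈ Icc 1 W, (1 : ℝ) := by
          apply sum_le_sum
          intro n _
          exact pow_le_one₀ (norm_nonneg _) (hb (u + n))
      _ = W := by simp
  have hZW : (Z : ℝ) ^ 2 ≤ W := by exact_mod_cast hW
  have hlarge : ∑ D ∈ Icc 1 Z, AD W g D ≤ 12 * (W : ℝ) ^ 2 := by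
    refine (AD_sum W g Z).trans ?_
    calc 6 * ((W : ℝ) + (Z : ℝ) ^ 2) * ∑ n ∈ Icc 1 W, ‖g n‖ ^ 2 ≤ 6 * ((W : ℝ) + W) * W := by gcongr
      _ = _ := by ring
  have h2 : ∑ v ∈ V, T v ≤ 3 * x * A + (η / 6) ^ 2 * x * (12 * (W : ℝ) ^ 2) := by
    have e1 : ∑ v ∈ V, T v = ∑ D ∈ Icc 1 Z, ((V.filter (fun v => D ∣ md J a c v)).card : ℝ) * AD W g D := by
      have e2 : ∀ v ∈ V, T v = ∑ D ∈ Icc 1 Z, if D ∣ md J a c v then AD W g D else 0 := by
        intro v hv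
        have hq := hVq v hv
        rw [hT]
        simp only
        rw [← sum_filter]
        apply sum_congr _ (fun _ _ => rfl)
        ext D
        rw [Nat.mem_divisors, mem_filter, mem_Icc]
        constructor
        · rintro ⟨hd, _⟩
          exact ⟨⟨Nat.pos_of_dvd_of_pos hd hq.1, (Nat.le_of_dvd hq.1 hd).trans hq.2⟩, hd⟩
        · rintro ⟨_, hd⟩
          exact ⟨hd, hq.1.ne'⟩
      rw [sum_congr rfl e2, sum_comm]
      refine sum_congr rfl fun D _ => ?_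
      rw [← sum_filter, sum_const, nsmul_eq_mul]
    rw [e1, ← sum_filter_add_sum_filter_not (Icc 1 Z) (fun D => D ≤ F0)]
    apply add_le_add
    · calc ∑ D ∈ (Icc 1 Z).filter (fun D => D ≤ F0), ((V.filter (fun v => D ∣ md J a c v)).card : ℝ) * AD W g D ≤
            ∑ D ∈ (Icc 1 Z).filter (fun D => D ≤ F0), 3 * x * AD W g D := by
            apply sum_le_sum
            intro D _
            apply mul_le_mul_of_nonneg_right _ (AD_nonneg _ _ _)
            refine le_trans ?_ hVc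
            exact_mod_cast card_filter_le _ _
        _ ≤ ∑ D ∈ Icc 1 F0, 3 * x * AD W g D := by
            apply sum_le_sum_of_subset_of_nonneg
            · intro D hD
              rw [mem_filter, mem_Icc] at hD
              rw [mem_Icc]; omega
            · intro D _ _
              exact mul_nonneg (by positivity) (AD_nonneg _ _ _)
        _ = _ := by rw [← mul_sum]
    · calc ∑ D ∈ (Icc 1 Z).filter (fun D => ¬ D ≤ F0), ((V.filter (fun v => D ∣ md J a c v)).card : ℝ) * AD W g D ≤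
            ∑ D ∈ (Icc 1 Z).filter (fun D => ¬ D ≤ F0), (η / 6) ^ 2 * x * AD W g D := by
            apply sum_le_sum
            intro D hD
            rw [mem_filter, mem_Icc] at hD
            apply mul_le_mul_of_nonneg_right _ (AD_nonneg _ _ _)
            refine le_trans ?_ (hN x ((le_max_left _ _).trans hx) D (by omega) hD.1.2)
            exact_mod_cast card_le_card (filter_subset_filter _ hV)
        _ ≤ ∑ D ∈ Icc 1 Z, (η / 6) ^ 2 * x * AD W g D :=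
            sum_le_sum_of_subset_of_nonneg (filter_subset _ _) (fun D _ _ => mul_nonneg (by positivity) (AD_nonneg _ _ _))
        _ = (η / 6) ^ 2 * x * ∑ D ∈ Icc 1 Z, AD W g D := by rw [← mul_sum]
        _ ≤ _ := mul_le_mul_of_nonneg_left hlarge (by positivity)
  have h3 : (∑ v ∈ V, Real.sqrt (T v)) ^ 2 ≤ (3 * x * Real.sqrt A + η * x * W) ^ 2 := by
    refine (sq_sum_le_card_mul_sum_sq (s := V) (f := fun v => Real.sqrt (T v))).trans ?_
    have e1 : ∑ v ∈ V, Real.sqrt (T v) ^ 2 = ∑ v ∈ V, T v := sum_congr rfl fun v _ => Real.sq_sqrt (hT0 v)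
    rw [e1]
    calc (V.card : ℝ) * ∑ v ∈ V, T v ≤ (3 * x) * (3 * x * A + (η / 6) ^ 2 * x * (12 * (W : ℝ) ^ 2)) := by
          apply mul_le_mul hVc h2 (sum_nonneg fun v _ => hT0 v) (by positivity)
      _ = (3 * x) ^ 2 * A + (η * x * W) ^ 2 := by ring
      _ = (3 * x) ^ 2 * Real.sqrt A ^ 2 + (η * x * W) ^ 2 := by rw [Real.sq_sqrt hA0]
      _ ≤ _ := by
          have : 0 ≤ 3 * (x : ℝ) * Real.sqrt A * (η * x * W) := by positivity
          nlinarith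
  have h4 : ∑ v ∈ V, Real.sqrt (T v) ≤ 3 * x * Real.sqrt A + η * x * W :=
    le_of_sq_le_sq h3 (by positivity)
  refine h1.trans (h4.trans ?_)
  apply add_le_add _ le_rfl
  apply mul_le_mul_of_nonneg_left _ (by positivity)
  have h5 : ∑ D ∈ Icc 1 F0, AD W g D ≤ ∑ D ∈ Icc 1 F0, ∑ b ∈ range D, ‖WF F W u ((b : ℝ) / D)‖ ^ 2 := by
    apply sum_le_sum
    intro D _
    unfold AD WF
    apply sum_le_sum_of_subset_of_nonneg (filter_subset _ _)
    intro b _ _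
    positivity
  refine (Real.sqrt_le_sqrt h5).trans ?_
  rw [sum_sigma', sum_sigma']
  exact sqrt_sum_le _ (fun p : (Σ _ : ℕ, ℕ) => ‖WF F W u ((p.2 : ℝ) / p.1)‖) (fun _ => norm_nonneg _)

end Pool.Agent.Helper82K9.PX
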