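import Pool.Agent.Helper82K9.PX.PX3
import Pool.Agent.Helper82K9.RQ.RQ2

set_option autoImplicit false

/-! The second moment over a box of polynomials, with weights which depend on other values of the polynomial. -/

namespace Pool.Agent.Helper82K9.PX

open Finset
open Pool.Agent.TH892.RT (Bx pv card_Bx cardI val_sum near_card card_val)
open Pool.Agent.Helper82K9.RQ (CL WF WZ)
open Pool.Agent.W110.HV (mul_conj_norm)

/-- weights which depend only on the values of the polynomial at the points `n + b`, `b ∈ J` -/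
def Inv {d : ℕ} (J : Finset ℕ) (Γ : ℕ → (Fin (d + 1) → ℤ) → ℂ) : Prop :=
  ∀ (n : ℕ) (v r : Fin (d + 1) → ℤ), (∀ b ∈ J, pv r (n + b) = 0) → Γ n (v + r) = Γ n v

/-- the product of the differences of the shifts -/
def c0 (J : Finset ℕ) (h₀ : ℕ) : ℕ := ∏ b ∈ J, ((h₀ : ℤ) - b).natAbs

lemma c0_pos (J : Finset ℕ) (h₀ : ℕ) (h : h₀ ∉ J) : 1 ≤ c0 J h₀ := by
  unfold c0
  apply Nat.one_le_iff_ne_zero.2
  apply prod_ne_zero_iff.2
  intro b hb
  have : b ≠ h₀ := fun h' => h (h' ▸ hb)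
  omega

lemma natAbs_prod (J : Finset ℕ) (f : ℕ → ℤ) : (∏ b ∈ J, f b).natAbs = ∏ b ∈ J, (f b).natAbs :=
  map_prod Int.natAbsHom f J

/-- the polynomial which vanishes at all the points but one -/
lemma poly_shift (d : ℕ) (J : Finset ℕ) (h₀ : ℕ) (h : h₀ ∉ J) (hd : 2 * J.card + 1 ≤ d) (n m y : ℕ)
    (hy : ∀ b ∈ insert h₀ J, n + b ≤ y ∧ m + b ≤ y) :
    ∃ r : Fin (d + 1) → ℤ, (∀ i, |(r i : ℝ)| ≤ (1 + (y : ℝ)) ^ (2 * J.card + 1)) ∧
      (pv r (n + h₀)).natAbs = md (insert h₀ J) (fun b => (h₀ : ℤ) - b) (c0 J h₀) ((n : ℤ) - m) ∧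
      (∀ b ∈ J, pv r (n + b) = 0) ∧ ∀ b ∈ insert h₀ J, pv r (m + b) = 0 := by
  classical
  have hc : (J.disjSum (insert h₀ J)).card = 2 * J.card + 1 := by
    rw [card_disjSum, card_insert_of_notMem h]; ring
  obtain ⟨r, hr1, hr2⟩ := vanish d (J.disjSum (insert h₀ J)) (by omega)
    (Sum.elim (fun b : ℕ => ((n + b : ℕ) : ℤ)) (fun b : ℕ => ((m + b : ℕ) : ℤ))) y (by
      intro i hi
      rcases i with b | b
      · rw [inl_mem_disjSum] at hi
        have := (hy b (mem_insert_of_mem hi)).1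
        simp only [Sum.elim_inl]
        rw [abs_of_nonneg (by positivity)]
        exact_mod_cast this
      · rw [inr_mem_disjSum] at hi
        have := (hy b hi).2
        simp only [Sum.elim_inr]
        rw [abs_of_nonneg (by positivity)]
        exact_mod_cast this)
  rw [hc] at hr1
  have hval : ∀ z : ℕ, pv r z = (∏ b ∈ J, ((z : ℤ) - ((n + b : ℕ) : ℤ))) * ∏ b ∈ insert h₀ J, ((z : ℤ) - ((m + b : ℕ) : ℤ)) := by
    intro z
    rw [hr2, prod_disjSum]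
    rfl
  refine ⟨r, hr1, ?_, fun b hb => ?_, fun b hb => ?_⟩
  · rw [hval, Int.natAbs_mul]
    unfold md c0
    congr 1
    · rw [natAbs_prod]
      refine prod_congr rfl fun b _ => ?_
      congr 1
      push_cast; ring
    · rw [natAbs_prod]
      refine prod_congr rfl fun b _ => ?_
      congr 1
      push_cast; ring
  · rw [hval, prod_eq_zero hb (by push_cast; ring), zero_mul]
  · rw [hval, prod_eq_zero hb (by push_cast; ring), mul_zero]

/-- the values of the modulus -/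
lemma md_le (J : Finset ℕ) (a : ℕ → ℤ) (c s x : ℕ) (hs : ∀ b ∈ J, (a b).natAbs ≤ s) (hx : 1 ≤ x) (v : ℤ) (hv : v ∈ Icc (-(x : ℤ)) x) :
    md J a c v ≤ c * (1 + s) ^ J.card * x ^ J.card := by
  unfold md
  rw [mul_assoc, ← mul_pow]
  apply Nat.mul_le_mul_left
  apply Finset.prod_le_pow_card
  intro b hb
  rw [mem_Icc] at hv
  have h1 := hs b hb
  have h2 : (v + a b).natAbs ≤ x + s := by omega
  refine h2.trans ?_
  nlinarith

lemma md_ge (J : Finset ℕ) (a : ℕ → ℤ) (c s Q : ℕ) (hc : 1 ≤ c) (hs : ∀ b ∈ J, (a b).natAbs ≤ s) (v : ℤ) (hv : Q + s ≤ v.natAbs) :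
    Q ^ J.card ≤ md J a c v := by
  unfold md
  calc Q ^ J.card = 1 * ∏ b ∈ J, Q := by rw [prod_const, one_mul]
    _ ≤ c * ∏ b ∈ J, (v + a b).natAbs := by
        apply Nat.mul_le_mul hc
        apply prod_le_prod' 
        intro b hb
        have := hs b hb
        omega

/-- the square expanded -/
lemma expand2 (x : ℕ) (φ : ℕ → ℂ) : ((‖∑ n ∈ Icc 1 x, φ n‖ ^ 2 : ℝ) : ℂ) =
    ∑ n ∈ Icc 1 x, ∑ m ∈ Icc 1 x, φ n * (starRingEnd ℂ) (φ m) := by
  rw [← mul_conj_norm, map_sum, sum_mul_sum]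

/-- the second moment, from the bound for one value of `n` -/
lemma moment_of (d H x : ℕ) (φ : ℕ → (Fin (d + 1) → ℤ) → ℂ) (E : ℝ)
    (h : ∀ n ∈ Icc 1 x, ∑ m ∈ Icc 1 x, ‖∑ v ∈ Bx d H, φ n v * (starRingEnd ℂ) (φ m v)‖ ≤ E) :
    ∑ v ∈ Bx d H, ‖∑ n ∈ Icc 1 x, φ n v‖ ^ 2 ≤ x * E := by
  have e1 : ((∑ v ∈ Bx d H, ‖∑ n ∈ Icc 1 x, φ n v‖ ^ 2 : ℝ) : ℂ) =
      ∑ n ∈ Icc 1 x, ∑ m ∈ Icc 1 x, ∑ v ∈ Bx d H, φ n v * (starRingEnd ℂ) (φ m v) := by
    rw [Complex.ofReal_sum, sum_congr rfl fun v _ => expand2 x (fun n => φ n v), sum_comm]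
    refine sum_congr rfl fun n _ => ?_
    rw [sum_comm]
  set S : ℝ := ∑ v ∈ Bx d H, ‖∑ n ∈ Icc 1 x, φ n v‖ ^ 2 with hS
  have hS0 : S ≤ ‖(S : ℂ)‖ := by rw [Complex.norm_real]; exact le_abs_self _
  refine hS0.trans ?_
  rw [e1]
  refine (norm_sum_le _ _).trans ((sum_le_sum fun n hn => (norm_sum_le _ _).trans (h n hn)).trans (le_of_eq ?_))
  rw [sum_const, Nat.card_Icc, nsmul_eq_mul, Nat.add_sub_cancel]

end Pool.Agent.Helper82K9.PX
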