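import Pool.Agent.Helper82K9.PX.PX4

set_option autoImplicit false

/-! The second moment over a box of polynomials: the main theorem. -/

namespace Pool.Agent.Helper82K9.PX

open Finset
open Pool.Agent.TH892.RT (Bx pv card_Bx cardI val_sum near_card card_val)
open Pool.Agent.Helper82K9.RQ (CL WF WZ)

lemma card_filter_far (x Q0 : ℕ) (n : ℕ) (hn : n ∈ Icc 1 x) (f : ℤ → ℝ) (hf : ∀ v, 0 ≤ f v) :
    ∑ m ∈ (Icc 1 x).filter (fun m : ℕ => Q0 ≤ ((n : ℤ) - m).natAbs), f ((n : ℤ) - m) ≤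
      ∑ v ∈ (Icc (-(x : ℤ)) x).filter (fun v => Q0 ≤ v.natAbs), f v := by
  rw [mem_Icc] at hn
  have e1 : ∑ m ∈ (Icc 1 x).filter (fun m : ℕ => Q0 ≤ ((n : ℤ) - m).natAbs), f ((n : ℤ) - m) =
      ∑ v ∈ ((Icc 1 x).filter (fun m : ℕ => Q0 ≤ ((n : ℤ) - m).natAbs)).image (fun m : ℕ => (n : ℤ) - m), f v := by
    rw [sum_image]
    intro a _ b _ hab
    simp only at hab
    omega
  rw [e1]
  apply sum_le_sum_of_subset_of_nonneg
  · intro v hv
    rw [mem_image] at hv
    obtain ⟨m, hm, rfl⟩ := hv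
    rw [mem_filter, mem_Icc] at hm
    rw [mem_filter, mem_Icc]
    exact ⟨⟨by omega, by omega⟩, hm.2⟩
  · intro v _ _
    exact hf v

/-- the size of the values -/
lemma val_bound (d H t n : ℕ) (hn : n ≤ t) (ht : 1 ≤ t) (C : ℝ) (K₀ : ℕ) (hK₀ : (d : ℝ) + 1 + max C 0 ≤ K₀) (g : ℤ)
    (hg : |(g : ℝ)| ≤ C * H * n ^ d) (v : Fin (d + 1) → ℤ) (hv : v ∈ Bx d H) :
    |pv v t + g| ≤ ((K₀ * H * t ^ d : ℕ) : ℤ) := by
  have hH0 : (0 : ℝ) ≤ H := Nat.cast_nonneg _
  have htr : (1 : ℝ) ≤ t := by exact_mod_cast ht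
  unfold Bx at hv
  rw [Fintype.mem_piFinset] at hv
  have h1 : |(pv v t : ℝ)| ≤ (d + 1) * (H * (t : ℝ) ^ d) := by
    unfold pv
    push_cast
    refine (abs_sum_le_sum_abs _ _).trans ?_
    calc ∑ i : Fin (d + 1), |(v i : ℝ) * (t : ℝ) ^ (i : ℕ)| ≤ ∑ i : Fin (d + 1), H * (t : ℝ) ^ d := by
          apply sum_le_sum
          intro i _
          rw [abs_mul, abs_of_nonneg (by positivity : (0 : ℝ) ≤ (t : ℝ) ^ (i : ℕ))]
          have h2 := hv i
          rw [mem_Icc] at h2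
          have h3 : |(v i : ℝ)| ≤ H := by
            rw [abs_le]
            exact ⟨by exact_mod_cast h2.1, by exact_mod_cast h2.2⟩
          exact mul_le_mul h3 (pow_le_pow_right₀ htr (by omega)) (by positivity) hH0
      _ = _ := by
          rw [sum_const, card_univ, Fintype.card_fin, nsmul_eq_mul]
          push_cast
          ring
  have h2 : |(g : ℝ)| ≤ max C 0 * (H * (t : ℝ) ^ d) := by
    refine hg.trans ?_
    have h3 : (n : ℝ) ^ d ≤ (t : ℝ) ^ d := pow_le_pow_left₀ (by positivity) (by exact_mod_cast hn) _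
    calc C * H * (n : ℝ) ^ d ≤ max C 0 * H * (n : ℝ) ^ d := by
          have := le_max_left C 0
          gcongr
      _ ≤ max C 0 * H * (t : ℝ) ^ d := by
          have := le_max_right C 0
          gcongr
      _ = _ := by ring
  have h3 : |((pv v t + g : ℤ) : ℝ)| ≤ ((K₀ * H * t ^ d : ℕ) : ℝ) := by
    push_cast
    refine (abs_add_le _ _).trans ?_
    calc _ ≤ (d + 1) * (H * (t : ℝ) ^ d) + max C 0 * (H * (t : ℝ) ^ d) := add_le_add h1 h2
      _ = ((d : ℝ) + 1 + max C 0) * (H * (t : ℝ) ^ d) := by ring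
      _ ≤ K₀ * (H * (t : ℝ) ^ d) := mul_le_mul_of_nonneg_right hK₀ (by positivity)
      _ = _ := by ring
  rw [← Int.cast_abs] at h3
  exact_mod_cast h3

/-- **The second moment.** -/
theorem moment (J : Finset ℕ) (h₀ : ℕ) (h : h₀ ∉ J) (d : ℕ) (hd : 2 * J.card + 1 ≤ d) (C ε : ℝ) (hε : 0 < ε) :
    ∃ e₀ : ℝ, 0 < e₀ ∧ ∀ W₀ : ℕ, ∃ A : ℕ, 1 ≤ A ∧ ∀ F : ℤ → ℂ, (∀ u, ‖F u‖ ≤ 1) → ∀ H x : ℕ, A ≤ x →
    A * x ^ (3 * J.card + 2) ≤ H → WZ F e₀ W₀ H →
    ∀ g : ℕ → ℤ, (∀ n, 1 ≤ n → n ≤ x → |(g n : ℝ)| ≤ C * H * n ^ d) →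
    ∀ Γ : ℕ → (Fin (d + 1) → ℤ) → ℂ, (∀ n v, ‖Γ n v‖ ≤ 1) → Inv J Γ →
    ∑ v ∈ Bx d H, ‖∑ n ∈ Icc 1 x, F (pv v (n + h₀) + g n) * Γ n v‖ ^ 2 ≤ ε * x ^ 2 * (Bx d H).card := by
  classical
  set J' := insert h₀ J with hJ'
  have hJ'n : J'.Nonempty := ⟨h₀, mem_insert_self _ _⟩
  have hJ'c : J'.card = J.card + 1 := card_insert_of_notMem h
  set a : ℕ → ℤ := fun b => (h₀ : ℤ) - b with ha
  set c := c0 J h₀ with hc
  have hc1 : 1 ≤ c := c0_pos J h₀ h
  set s : ℕ := h₀ + ∑ b ∈ J, b with hs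
  have hbs : ∀ b ∈ J', b ≤ s := by
    intro b hb
    rw [hJ', mem_insert] at hb
    rcases hb with rfl | hb
    · omega
    · have := single_le_sum (f := fun b : ℕ => b) (fun _ _ => Nat.zero_le _) hb
      omega
  have has : ∀ b ∈ J', (a b).natAbs ≤ s := by
    intro b hb
    have := hbs b hb
    rw [ha]
    simp only
    omega
  set c₁ : ℕ := c * (1 + s) ^ J'.card with hc₁
  have hc₁1 : 1 ≤ c₁ := Nat.mul_pos hc1 (Nat.pow_pos (by omega))
  have hc₁r : (1 : ℝ) ≤ c₁ := by exact_mod_cast hc₁1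
  obtain ⟨K₀, hK₀⟩ : ∃ K₀ : ℕ, K₀ = d + 1 + ⌈max C 0⌉₊ := ⟨_, rfl⟩
  have hK₀r : (d : ℝ) + 1 + max C 0 ≤ K₀ := by
    rw [hK₀]; push_cast
    have := Nat.le_ceil (max C 0)
    linarith
  have hK₀1 : 1 ≤ K₀ := by omega
  have hK₀p : (1 : ℝ) ≤ K₀ := by exact_mod_cast hK₀1
  set C₂ : ℝ := 4 ^ d * K₀ with hC₂
  have hC₂0 : 0 < C₂ := by positivity
  set η₁ : ℝ := ε / (88 * C₂) with hη₁
  have hη₁0 : 0 < η₁ := by positivity
  obtain ⟨F0, x0, hF0, hx0, hav⟩ := avg J' hJ'n a c hc1 c₁ hc₁1 η₁ hη₁0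
  have hF0r : (1 : ℝ) ≤ F0 := by exact_mod_cast hF0
  refine ⟨η₁ / (F0 : ℝ) ^ 2, by positivity, fun W₀ => ?_⟩
  set A₁ : ℕ := c₁ ^ 2 + W₀ + ⌈40 * c₁ * C₂ / ε⌉₊ + 1 with hA₁
  have hA₁1 : (1 : ℝ) ≤ A₁ := by
    have : 1 ≤ A₁ := by omega
    exact_mod_cast this
  have hA₁2 : 40 * c₁ * C₂ / ε ≤ A₁ := (Nat.le_ceil _).trans (by exact_mod_cast (by omega : ⌈40 * (c₁ : ℝ) * C₂ / ε⌉₊ ≤ A₁))
  obtain ⟨κ, hκ⟩ : ∃ κ : ℝ, κ = ε / 16 := ⟨_, rfl⟩
  have hκ0 : 0 < κ := by rw [hκ]; positivity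
  set A₃ : ℝ := A₁ / κ ^ J'.card * 2 ^ (2 * J.card + 1) with hA₃
  have hA₃0 : 0 < A₃ := by positivity
  obtain ⟨A, hA⟩ : ∃ A : ℕ, A = A₁ + x0 + c₁ + ⌈(1 + s) / κ⌉₊ + s + 2 + ⌈8 * (d + 1) * A₃ / ε⌉₊ := ⟨_, rfl⟩
  refine ⟨A, by omega, fun F hb H x hAx hAH hWZ g hg Γ hΓ hinv => ?_⟩
  have hx1 : 1 ≤ x := by omega
  have hxr : (0 : ℝ) < x := by exact_mod_cast hx1
  have hxr1 : (1 : ℝ) ≤ x := by exact_mod_cast hx1
  have hxs : s + 1 ≤ x := by omega
  have hxκ : 1 + (s : ℝ) ≤ κ * x := by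
    have h1 : (1 + (s : ℝ)) / κ ≤ x := (Nat.le_ceil _).trans (by exact_mod_cast (by omega : ⌈(1 + (s : ℝ)) / κ⌉₊ ≤ x))
    rw [div_le_iff₀ hκ0] at h1
    linarith
  have hpow : ∀ j, j ≤ 3 * J.card + 2 → ∀ b, b ≤ A → b * x ^ j ≤ H := by
    intro j hj b hb
    refine le_trans ?_ hAH
    exact Nat.mul_le_mul hb (Nat.pow_le_pow_right hx1 hj)
  have hH1 : 1 ≤ H := by
    have := hpow 0 (by omega) 1 (by omega)
    simpa using this
  have hHr : (1 : ℝ) ≤ H := by exact_mod_cast hH1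
  -- the window
  obtain ⟨W, hW⟩ : ∃ W : ℕ, W = A₁ * x ^ (2 * J'.card) := ⟨_, rfl⟩
  have hW1 : (c₁ * x ^ J'.card) ^ 2 ≤ W := by
    rw [hW, mul_pow, ← pow_mul, mul_comm J'.card 2]
    apply Nat.mul_le_mul_right
    omega
  have hWH : W ≤ H := by
    rw [hW]
    exact hpow _ (by rw [hJ'c]; omega) A₁ (by omega)
  have hW2 : W₀ ≤ W := by
    rw [hW]
    calc W₀ = W₀ * 1 := by ring
      _ ≤ A₁ * x ^ (2 * J'.card) := Nat.mul_le_mul (by omega) (Nat.one_le_pow _ _ hx1)
  have hW3 : 1 ≤ W := by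
    rw [hW]
    exact Nat.mul_pos (by omega) (Nat.pow_pos hx1)
  have hWr : (0 : ℝ) < W := by exact_mod_cast hW3
  have hZ : ∀ v ∈ Icc (-(x : ℤ)) x, md J' a c v ≤ c₁ * x ^ J'.card := fun v hv => md_le J' a c s x has hx1 v hv
  obtain ⟨L, hL⟩ : ∃ L : ℝ, L = 2 * H + 1 := ⟨_, rfl⟩
  have hL0 : 0 < L := by rw [hL]; positivity
  have hHL : (H : ℝ) ≤ L := by rw [hL]; linarith
  have hBx : (((Bx d H).card : ℕ) : ℝ) = L ^ (d + 1) := by rw [card_Bx, hL]
  -- near and far
  obtain ⟨Q, hQ⟩ : ∃ Q : ℕ, Q = ⌈κ * x⌉₊ := ⟨_, rfl⟩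
  have hQ1 : κ * x ≤ Q := by rw [hQ]; exact Nat.le_ceil _
  have hQ2 : (Q : ℝ) ≤ κ * x + 1 := by rw [hQ]; exact (Nat.ceil_lt_add_one (by positivity)).le
  have hQ3 : 1 ≤ Q := by rw [hQ]; exact Nat.one_le_ceil_iff.2 (by positivity)
  rw [hBx]
  have main : ∀ n ∈ Icc 1 x, ∑ m ∈ Icc 1 x, ‖∑ v ∈ Bx d H, (F (pv v (n + h₀) + g n) * Γ n v) *
      (starRingEnd ℂ) (F (pv v (m + h₀) + g m) * Γ m v)‖ ≤ ε * x * L ^ (d + 1) := by
    intro n hn
    have hn' := mem_Icc.1 hn
    obtain ⟨t, ht⟩ : ∃ t : ℕ, t = n + h₀ := ⟨_, rfl⟩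
    have ht1 : 1 ≤ t := by omega
    have htr : (0 : ℝ) < t := by exact_mod_cast ht1
    have htH : t ≤ H := by
      have h1 : t ≤ 2 * x := by omega
      have h2 := hpow 1 (by omega) 2 (by omega)
      rw [pow_one] at h2
      omega
    obtain ⟨X, hX⟩ : ∃ X : ℕ, X = K₀ * H * t ^ d := ⟨_, rfl⟩
    have hHX : H ≤ X := by
      rw [hX]
      calc H = 1 * H * 1 := by ring
        _ ≤ K₀ * H * t ^ d := Nat.mul_le_mul (Nat.mul_le_mul_right _ hK₀1) (Nat.one_le_pow _ _ ht1)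
    have hX1 : (1 : ℝ) ≤ X := by exact_mod_cast hH1.trans hHX
    have hXv : ∀ v ∈ Bx d H, |pv v t + g n| ≤ X := by
      intro v hv
      rw [hX]
      exact val_bound d H t n (by omega) ht1 C K₀ hK₀r (g n) (hg n hn'.1 hn'.2) v hv
    obtain ⟨K, hK⟩ : ∃ K : ℝ, K = (4 * (H : ℝ) / t) ^ d := ⟨_, rfl⟩
    have hK0 : 0 ≤ K := by rw [hK]; positivity
    have hKv : ∀ u : ℤ, ((((Bx d H).filter (fun v => pv v t + g n = u)).card : ℕ) : ℝ) ≤ K := by
      intro u
      rw [hK]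
      refine le_trans ?_ (card_val d H t ht1 htH (u - g n))
      have : (Bx d H).filter (fun v => pv v t + g n = u) ⊆ (Fintype.piFinset (fun _ : Fin (d + 1) => Icc (-(H : ℤ)) H)).filter
          (fun a => ∑ i : Fin (d + 1), a i * (t : ℤ) ^ (i : ℕ) = u - g n) := by
        intro v hv
        rw [mem_filter] at hv ⊢
        refine ⟨hv.1, ?_⟩
        have := hv.2
        unfold pv at this
        linarith
      exact_mod_cast card_le_card this
    have hKX : K * X ≤ C₂ * L ^ (d + 1) := by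
      have : K * X = C₂ * (H : ℝ) ^ (d + 1) := by
        rw [hK, hX, hC₂]
        push_cast
        have ht0 : (t : ℝ) ^ d ≠ 0 := by positivity
        rw [div_pow, mul_pow, pow_succ]
        field_simp
      rw [this]
      gcongr
    rw [← sum_filter_add_sum_filter_not (Icc 1 x) (fun m : ℕ => Q + s ≤ ((n : ℤ) - m).natAbs)]
    -- near
    have near : ∑ m ∈ (Icc 1 x).filter (fun m : ℕ => ¬ Q + s ≤ ((n : ℤ) - m).natAbs),
        ‖∑ v ∈ Bx d H, (F (pv v (n + h₀) + g n) * Γ n v) * (starRingEnd ℂ) (F (pv v (m + h₀) + g m) * Γ m v)‖ ≤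
        ε / 4 * x * L ^ (d + 1) := by
      have b1 : ∀ m ∈ (Icc 1 x).filter (fun m : ℕ => ¬ Q + s ≤ ((n : ℤ) - m).natAbs),
          ‖∑ v ∈ Bx d H, (F (pv v (n + h₀) + g n) * Γ n v) * (starRingEnd ℂ) (F (pv v (m + h₀) + g m) * Γ m v)‖ ≤
          L ^ (d + 1) := by
        intro m _
        rw [← hBx]
        refine (norm_sum_le _ _).trans ((sum_le_sum (g := fun _ => (1 : ℝ)) fun v _ => ?_).trans (le_of_eq ?_))
        · rw [norm_mul, norm_mul, RCLike.norm_conj, norm_mul]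
          exact mul_le_one₀ (mul_le_one₀ (hb _) (norm_nonneg _) (hΓ _ _)) (by positivity)
            (mul_le_one₀ (hb _) (norm_nonneg _) (hΓ _ _))
        · rw [sum_const, nsmul_eq_mul, mul_one]
      refine (sum_le_sum b1).trans ?_
      rw [sum_const, nsmul_eq_mul]
      apply mul_le_mul_of_nonneg_right _ (by positivity)
      refine (near_card n x (Q + s) (by omega)).trans ?_
      push_cast
      calc 2 * ((Q : ℝ) + s) ≤ 2 * (κ * x + κ * x) := by linarith
        _ = ε / 4 * x := by rw [hκ]; ring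
    -- far
    have far : ∑ m ∈ (Icc 1 x).filter (fun m : ℕ => Q + s ≤ ((n : ℤ) - m).natAbs),
        ‖∑ v ∈ Bx d H, (F (pv v (n + h₀) + g n) * Γ n v) * (starRingEnd ℂ) (F (pv v (m + h₀) + g m) * Γ m v)‖ ≤
        3 * ε / 4 * x * L ^ (d + 1) := by
      obtain ⟨P1, hP1⟩ : ∃ P1 : ℝ, P1 = ε / 4 * L ^ (d + 1) := ⟨_, rfl⟩
      set U : Finset ℤ := Icc (-((2 * X : ℕ) : ℤ)) ((2 * X : ℕ) : ℤ) with hU
      have b1 : ∀ m ∈ (Icc 1 x).filter (fun m : ℕ => Q + s ≤ ((n : ℤ) - m).natAbs),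
          ‖∑ v ∈ Bx d H, (F (pv v (n + h₀) + g n) * Γ n v) * (starRingEnd ℂ) (F (pv v (m + h₀) + g m) * Γ m v)‖ ≤
          P1 + 2 * K / W * (∑ u ∈ U, Cq F W (md J' a c ((n : ℤ) - m)) u + 5 * ((c₁ * x ^ J'.card : ℕ) : ℝ) * X) := by
        intro m hm
        rw [mem_filter, mem_Icc] at hm
        obtain ⟨r, hr1, hr2, hr3, hr4⟩ := poly_shift d J h₀ h hd n m (x + s) (by
          intro b hb
          have := hbs b hb
          omega)
        have hv : (n : ℤ) - m ∈ Icc (-(x : ℤ)) x := by rw [mem_Icc]; omega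
        have hq1 := md_ge J' a c s Q hc1 has ((n : ℤ) - m) hm.2
        have hq2 := hZ _ hv
        set q := md J' a c ((n : ℤ) - m) with hq
        have hq0 : 1 ≤ q := (Nat.one_le_pow _ _ hQ3).trans hq1
        have hqr : (0 : ℝ) < q := by exact_mod_cast hq0
        have hqH : q ≤ H := hq2.trans (hpow _ (by rw [hJ'c]; omega) c₁ (by omega))
        have hqW : q ≤ W := by
          refine hq2.trans (le_trans ?_ hW1)
          exact Nat.le_self_pow (by norm_num) _
        have key := pair F hb d H W (fun v => Γ n v * (starRingEnd ℂ) (F (pv v (m + h₀) + g m) * Γ m v)) (fun v => by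
            rw [norm_mul, RCLike.norm_conj, norm_mul]
            exact mul_le_one₀ (hΓ _ _) (by positivity) (mul_le_one₀ (hb _) (norm_nonneg _) (hΓ _ _)))
          r (fun v z => by
            have i1 : Γ n (v + z • r) = Γ n v := by
              apply hinv
              intro b hb
              have := pv_smul 0 r z (n + b)
              rw [hr3 b hb, zero_add] at this
              rw [this]
              unfold pv
              simp
            have i2 : Γ m (v + z • r) = Γ m v := by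
              apply hinv
              intro b hb
              have := pv_smul 0 r z (m + b)
              rw [hr4 b (mem_insert_of_mem hb), zero_add] at this
              rw [this]
              unfold pv
              simp
            have i3 : pv (v + z • r) (m + h₀) = pv v (m + h₀) := by
              rw [pv_smul, hr4 h₀ (mem_insert_self _ _)]
              ring
            simp only [i1, i2, i3])
          ((1 + ((x + s : ℕ) : ℝ)) ^ (2 * J.card + 1)) hr1 t (g n) q hq0 hqW (by rw [ht]; exact hr2) X (hqH.trans hHX) hXv K hK0 hKv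
        have e1 : ∑ v ∈ Bx d H, (F (pv v (n + h₀) + g n) * Γ n v) * (starRingEnd ℂ) (F (pv v (m + h₀) + g m) * Γ m v) =
            ∑ v ∈ Bx d H, F (pv v t + g n) * (Γ n v * (starRingEnd ℂ) (F (pv v (m + h₀) + g m) * Γ m v)) := by
          rw [ht]
          refine sum_congr rfl fun v _ => ?_
          ring
        rw [e1]
        refine key.trans (add_le_add ?_ ?_)
        · -- the boundary
          have k1 : (1 + ((x + s : ℕ) : ℝ)) ≤ 2 * x := by
            have : 1 + (x + s) ≤ 2 * x := by omega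
            exact_mod_cast this
          have k2 : (W : ℝ) / q ≤ A₁ * (x : ℝ) ^ (2 * J'.card) / (κ * x) ^ J'.card := by
            rw [hW]
            push_cast
            apply div_le_div_of_nonneg_left (by positivity) (by positivity)
            calc (κ * x) ^ J'.card ≤ (Q : ℝ) ^ J'.card := pow_le_pow_left₀ (by positivity) hQ1 _
              _ ≤ q := by exact_mod_cast hq1
          have k3 : A₁ * (x : ℝ) ^ (2 * J'.card) / (κ * x) ^ J'.card * (2 * x) ^ (2 * J.card + 1) =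
              A₃ * (x : ℝ) ^ (3 * J.card + 2) := by
            rw [hA₃, mul_pow κ, mul_pow (2 : ℝ), two_mul J'.card, pow_add (x : ℝ) J'.card J'.card]
            have : (x : ℝ) ^ (3 * J.card + 2) = (x : ℝ) ^ J'.card * (x : ℝ) ^ (2 * J.card + 1) := by
              rw [← pow_add]
              congr 1
              rw [hJ'c]; ring
            rw [this]
            field_simp
          have k4 : (A : ℝ) * (x : ℝ) ^ (3 * J.card + 2) ≤ H := by exact_mod_cast hAH
          have k5 : 8 * (d + 1) * A₃ / ε ≤ A := (Nat.le_ceil _).trans (by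
            exact_mod_cast (by omega : ⌈8 * ((d : ℝ) + 1) * A₃ / ε⌉₊ ≤ A))
          have k6 : 8 * (d + 1) * A₃ * (x : ℝ) ^ (3 * J.card + 2) ≤ ε * H := by
            rw [div_le_iff₀ hε] at k5
            calc 8 * (d + 1) * A₃ * (x : ℝ) ^ (3 * J.card + 2) ≤ A * ε * (x : ℝ) ^ (3 * J.card + 2) := by gcongr
              _ = ε * (A * (x : ℝ) ^ (3 * J.card + 2)) := by ring
              _ ≤ ε * H := mul_le_mul_of_nonneg_left k4 hε.le
          have k7 : (W : ℝ) / q * (1 + ((x + s : ℕ) : ℝ)) ^ (2 * J.card + 1) ≤ A₃ * (x : ℝ) ^ (3 * J.card + 2) := by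
            rw [← k3]
            apply mul_le_mul k2 (pow_le_pow_left₀ (by positivity) k1 _) (by positivity) (by positivity)
          rw [← hL]
          calc 2 * (((d : ℝ) + 1) * ((W : ℝ) / q * (1 + ((x + s : ℕ) : ℝ)) ^ (2 * J.card + 1)) * L ^ d) ≤
                2 * (((d : ℝ) + 1) * (A₃ * (x : ℝ) ^ (3 * J.card + 2)) * L ^ d) := by gcongr
            _ = 1 / 4 * (8 * (d + 1) * A₃ * (x : ℝ) ^ (3 * J.card + 2)) * L ^ d := by ring
            _ ≤ 1 / 4 * (ε * H) * L ^ d := by gcongr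
            _ ≤ 1 / 4 * (ε * L) * L ^ d := by gcongr
            _ = P1 := by rw [hP1]; ring
        · apply mul_le_mul_of_nonneg_left _ (by positivity)
          have : (q : ℝ) ≤ ((c₁ * x ^ J'.card : ℕ) : ℝ) := by exact_mod_cast hq2
          gcongr
      refine (sum_le_sum b1).trans ?_
      rw [sum_add_distrib, ← mul_sum, sum_add_distrib, sum_const, sum_const, nsmul_eq_mul, nsmul_eq_mul]
      have hcard : ((((Icc 1 x).filter (fun m : ℕ => Q + s ≤ ((n : ℤ) - m).natAbs)).card : ℕ) : ℝ) ≤ x := by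
        have : ((Icc 1 x).filter (fun m : ℕ => Q + s ≤ ((n : ℤ) - m).natAbs)).card ≤ x := by
          refine (card_filter_le _ _).trans ?_
          rw [Nat.card_Icc, Nat.add_sub_cancel]
        exact_mod_cast this
      set V : Finset ℤ := (Icc (-(x : ℤ)) x).filter (fun v => Q + s ≤ v.natAbs) with hV
      have hVq : ∀ v ∈ V, 0 < md J' a c v ∧ md J' a c v ≤ c₁ * x ^ J'.card := by
        intro v hv
        rw [hV, mem_filter] at hv
        refine ⟨?_, hZ v hv.1⟩
        have := md_ge J' a c s Q hc1 has v hv.2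
        exact lt_of_lt_of_le (Nat.pow_pos hQ3) this
      have c1 : ∑ m ∈ (Icc 1 x).filter (fun m : ℕ => Q + s ≤ ((n : ℤ) - m).natAbs), ∑ u ∈ U, Cq F W (md J' a c ((n : ℤ) - m)) u ≤
          11 * η₁ * x * W * X := by
        rw [sum_comm]
        have c2 : ∀ u ∈ U, ∑ m ∈ (Icc 1 x).filter (fun m : ℕ => Q + s ≤ ((n : ℤ) - m).natAbs), Cq F W (md J' a c ((n : ℤ) - m)) u ≤
            3 * x * ∑ D ∈ Icc 1 F0, ∑ b ∈ range D, ‖WF F W u ((b : ℝ) / D)‖ + η₁ * x * W := by
          intro u _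
          refine (card_filter_far x (Q + s) n hn (fun v => Cq F W (md J' a c v) u) (fun _ => Cq_nonneg _ _ _ _)).trans ?_
          exact hav x (by omega) F hb W hW1 V (filter_subset _ _) hVq u
        refine (sum_le_sum c2).trans ?_
        rw [sum_add_distrib, ← mul_sum, sum_const, nsmul_eq_mul, hU, cardI, ← hU]
        have c3 : ∑ u ∈ U, ∑ D ∈ Icc 1 F0, ∑ b ∈ range D, ‖WF F W u ((b : ℝ) / D)‖ ≤ η₁ * W * (2 * X) := by
          rw [sum_comm]
          have c4 : ∀ D ∈ Icc 1 F0, ∑ u ∈ U, ∑ b ∈ range D, ‖WF F W u ((b : ℝ) / D)‖ ≤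
              F0 * (η₁ / (F0 : ℝ) ^ 2 * W * (2 * X)) := by
            intro D hD
            rw [mem_Icc] at hD
            rw [sum_comm]
            have c5 : ∀ b ∈ range D, ∑ u ∈ U, ‖WF F W u ((b : ℝ) / D)‖ ≤ η₁ / (F0 : ℝ) ^ 2 * W * (2 * X) := by
              intro b _
              have := hWZ (2 * X) (by omega) W hW2 (by omega) ((b : ℝ) / D)
              push_cast at this
              rw [hU]
              push_cast
              exact this
            refine (sum_le_sum c5).trans ?_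
            rw [sum_const, card_range, nsmul_eq_mul]
            apply mul_le_mul_of_nonneg_right _ (by positivity)
            exact_mod_cast hD.2
          refine (sum_le_sum c4).trans ?_
          rw [sum_const, Nat.card_Icc, nsmul_eq_mul, Nat.add_sub_cancel]
          apply le_of_eq
          field_simp
        push_cast
        calc 3 * (x : ℝ) * ∑ u ∈ U, ∑ D ∈ Icc 1 F0, ∑ b ∈ range D, ‖WF F W u ((b : ℝ) / D)‖ +
              (2 * (2 * (X : ℝ)) + 1) * (η₁ * x * W) ≤ 3 * x * (η₁ * W * (2 * X)) + (2 * (2 * (X : ℝ)) + X) * (η₁ * x * W) := by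
              gcongr
          _ = _ := by ring
      have c6 : 2 * K / W * (11 * η₁ * x * W * X) ≤ ε / 4 * x * L ^ (d + 1) := by
        have : 2 * K / W * (11 * η₁ * x * W * X) = 22 * η₁ * x * (K * X) := by
          field_simp
          ring
        rw [this]
        calc 22 * η₁ * x * (K * X) ≤ 22 * η₁ * x * (C₂ * L ^ (d + 1)) := by gcongr
          _ = ε / 4 * x * L ^ (d + 1) := by
              rw [hη₁]
              field_simp
              ring
      have c7 : 2 * K / W * (x * (5 * ((c₁ * x ^ J'.card : ℕ) : ℝ) * X)) ≤ ε / 4 * x * L ^ (d + 1) := by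
        have d1 : ((c₁ * x ^ J'.card : ℕ) : ℝ) / W ≤ c₁ / A₁ := by
          rw [hW]
          push_cast
          rw [div_le_div_iff₀ (by positivity) (by positivity)]
          have : (x : ℝ) ^ J'.card ≤ (x : ℝ) ^ (2 * J'.card) := pow_le_pow_right₀ hxr1 (by omega)
          calc (c₁ : ℝ) * (x : ℝ) ^ J'.card * A₁ = c₁ * (A₁ * (x : ℝ) ^ J'.card) := by ring
            _ ≤ c₁ * (A₁ * (x : ℝ) ^ (2 * J'.card)) := by gcongr
        have d2 : (c₁ : ℝ) / A₁ ≤ ε / (40 * C₂) := by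
          rw [div_le_div_iff₀ (by positivity) (by positivity)]
          rw [div_le_iff₀ hε] at hA₁2
          linarith
        calc 2 * K / W * (x * (5 * ((c₁ * x ^ J'.card : ℕ) : ℝ) * X)) =
              10 * x * (((c₁ * x ^ J'.card : ℕ) : ℝ) / W) * (K * X) := by
              field_simp
              ring
          _ ≤ 10 * x * (ε / (40 * C₂)) * (C₂ * L ^ (d + 1)) := by
              have := d1.trans d2
              gcongr
          _ = _ := by
              field_simp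
              ring
      have c8 : ((((Icc 1 x).filter (fun m : ℕ => Q + s ≤ ((n : ℤ) - m).natAbs)).card : ℕ) : ℝ) * P1 ≤ ε / 4 * x * L ^ (d + 1) := by
        have hP10 : 0 ≤ P1 := by rw [hP1]; positivity
        calc _ ≤ (x : ℝ) * P1 := mul_le_mul_of_nonneg_right hcard hP10
          _ = _ := by rw [hP1]; ring
      have hKW : 0 ≤ 2 * K / (W : ℝ) := by positivity
      calc _ ≤ ε / 4 * x * L ^ (d + 1) + 2 * K / W * (11 * η₁ * x * W * X + x * (5 * ((c₁ * x ^ J'.card : ℕ) : ℝ) * X)) := by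
            apply add_le_add c8
            apply mul_le_mul_of_nonneg_left _ hKW
            apply add_le_add c1
            apply mul_le_mul_of_nonneg_right hcard (by positivity)
        _ ≤ ε / 4 * x * L ^ (d + 1) + (ε / 4 * x * L ^ (d + 1) + ε / 4 * x * L ^ (d + 1)) := by
            rw [mul_add]
            linarith
        _ = _ := by ring
    calc _ ≤ 3 * ε / 4 * x * L ^ (d + 1) + ε / 4 * x * L ^ (d + 1) := add_le_add far near
      _ = _ := by ring
  refine (moment_of d H x (fun n v => F (pv v (n + h₀) + g n) * Γ n v) _ main).trans (le_of_eq ?_)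
  ring

end Pool.Agent.Helper82K9.PX
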