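import Pool.Agent.Helper82K9.PX.PX5
import Pool.Agent.Helper82K9.RQ.RQ3

set_option autoImplicit false

/-! Almost all polynomials: all lengths, real multiplicative functions. -/

namespace Pool.Agent.Helper82K9.PX

open Finset
open Pool.Agent.TH892.RT (Bx pv card_Bx cheb card_val)
open Pool.Agent.Helper82K9.RQ (WZ sg sg_norm wz_of farR_mono)
open Pool.Agent.Helper82K9.EL (RMul FarR ws_real)

open Classical in
/-- almost all polynomials, all lengths -/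
theorem almost (J : Finset ℕ) (h₀ : ℕ) (h : h₀ ∉ J) (d : ℕ) (hd : 2 * J.card + 1 ≤ d) (C ε : ℝ) (hε : 0 < ε) :
    ∃ e₀ : ℝ, 0 < e₀ ∧ ∀ W₀ : ℕ, ∃ A : ℕ, 1 ≤ A ∧ ∀ F : ℤ → ℂ, (∀ u, ‖F u‖ ≤ 1) → ∀ H x : ℕ, A ≤ x →
    A * x ^ (3 * J.card + 2) ≤ H → WZ F e₀ W₀ H →
    ∀ g : ℕ → ℤ, (∀ n, 1 ≤ n → n ≤ x → |(g n : ℝ)| ≤ C * H * n ^ d) →
    ∀ Γ : ℕ → (Fin (d + 1) → ℤ) → ℂ, (∀ n v, ‖Γ n v‖ ≤ 1) → Inv J Γ →
    ((((Bx d H).filter (fun v => ∃ y ≤ x, ε * x < ‖∑ n ∈ Icc 1 y, F (pv v (n + h₀) + g n) * Γ n v‖)).card : ℕ) : ℝ) ≤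
      ε * (Bx d H).card := by
  obtain ⟨N, hN⟩ : ∃ N : ℕ, N = ⌈4 / ε⌉₊ + 1 := ⟨_, rfl⟩
  have hN1 : 1 ≤ N := by omega
  have hNr : (0 : ℝ) < N := by exact_mod_cast hN1
  have hNε : 4 / ε ≤ N := (Nat.le_ceil _).trans (by exact_mod_cast (by omega : ⌈4 / ε⌉₊ ≤ N))
  have hNε' : 4 ≤ ε * N := by
    rw [div_le_iff₀ hε] at hNε
    linarith
  obtain ⟨e₀, he₀, hS0⟩ := moment J h₀ h d hd C (ε ^ 3 / (4 * (N + 1))) (by positivity)
  refine ⟨e₀, he₀, fun W₀ => ?_⟩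
  obtain ⟨A, hA1, hS⟩ := hS0 W₀
  refine ⟨max A N, hA1.trans (le_max_left _ _), fun F hb H x hAx hAH hWZ g hg Γ hΓ hinv => ?_⟩
  have hx1 : A ≤ x := (le_max_left _ _).trans hAx
  have hxN : N ≤ x := (le_max_right _ _).trans hAx
  have hx2 : 1 ≤ x := hN1.trans hxN
  have hAH' : A * x ^ (3 * J.card + 2) ≤ H := le_trans (Nat.mul_le_mul_right _ (le_max_left _ _)) hAH
  have hxr : (0 : ℝ) < x := by exact_mod_cast hx2
  have hxNr : (N : ℝ) ≤ x := by exact_mod_cast hxN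
  -- the grid
  obtain ⟨Y, hY⟩ : ∃ Y : ℕ → ℕ, Y = fun j => j * x / N := ⟨_, rfl⟩
  have hYx : ∀ j ∈ range (N + 1), Y j ≤ x := by
    intro j hj
    rw [mem_range] at hj
    rw [hY]
    apply Nat.div_le_of_le_mul
    exact Nat.mul_le_mul_right x (by omega)
  have hgrid : ∀ y ≤ x, ∃ j ∈ range (N + 1), Y j ≤ y ∧ ((y - Y j : ℕ) : ℝ) ≤ ε / 2 * x := by
    intro y hy
    have hN0 : 0 < N := hN1
    refine ⟨y * N / x, ?_, ?_, ?_⟩
    · rw [mem_range]
      have : y * N / x ≤ N := by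
        apply Nat.div_le_of_le_mul
        exact Nat.mul_le_mul_right N hy
      omega
    · rw [hY]
      apply Nat.div_le_of_le_mul
      rw [mul_comm N y]
      exact Nat.div_mul_le_self _ _
    · have h1 : Y (y * N / x) ≤ y := by
        rw [hY]
        apply Nat.div_le_of_le_mul
        rw [mul_comm N y]
        exact Nat.div_mul_le_self _ _
      rw [Nat.cast_sub h1]
      have h2 : (y : ℝ) * N / x - 1 < ((y * N / x : ℕ) : ℝ) := by
        have := Nat.lt_succ_floor ((y : ℝ) * N / x)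
        have h3 : ⌊(y : ℝ) * N / x⌋₊ = y * N / x := by
          have := Nat.floor_div_eq_div (K := ℝ) (y * N) x
          push_cast at this
          exact this
        rw [h3] at this
        push_cast at this
        linarith
      have h4 : ((y * N / x : ℕ) : ℝ) * x / N - 1 < (Y (y * N / x) : ℝ) := by
        rw [hY]
        have := Nat.lt_succ_floor (((y * N / x : ℕ) : ℝ) * x / N)
        have h3 : ⌊((y * N / x : ℕ) : ℝ) * x / N⌋₊ = (y * N / x) * x / N := by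
          have := Nat.floor_div_eq_div (K := ℝ) ((y * N / x) * x) N
          push_cast at this
          exact this
        rw [h3] at this
        push_cast at this
        push_cast
        linarith
      have h5 : (y : ℝ) - x / N ≤ ((y * N / x : ℕ) : ℝ) * x / N := by
        have h6 : ((y : ℝ) * N / x - 1) * x / N ≤ ((y * N / x : ℕ) : ℝ) * x / N := by gcongr
        refine le_trans (le_of_eq ?_) h6
        field_simp
      have h7 : (x : ℝ) / N ≤ ε / 4 * x := by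
        rw [div_le_iff₀ hNr]
        nlinarith
      have h8 : (1 : ℝ) ≤ ε / 4 * x := by
        have : 4 ≤ ε * x := hNε'.trans (by gcongr)
        linarith
      linarith
  -- the exceptions
  have hsub : (Bx d H).filter (fun v => ∃ y ≤ x, ε * x < ‖∑ n ∈ Icc 1 y, F (pv v (n + h₀) + g n) * Γ n v‖) ⊆
      (range (N + 1)).biUnion (fun j => (Bx d H).filter (fun v => ε / 2 * x < ‖∑ n ∈ Icc 1 x,
        F (pv v (n + h₀) + g n) * (if n ≤ Y j then Γ n v else 0)‖)) := by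
    intro v hv
    rw [mem_filter] at hv
    obtain ⟨hv1, y, hy, hv2⟩ := hv
    obtain ⟨j, hj, hj1, hj2⟩ := hgrid y hy
    rw [mem_biUnion]
    refine ⟨j, hj, mem_filter.2 ⟨hv1, ?_⟩⟩
    have e1 : ∑ n ∈ Icc 1 x, F (pv v (n + h₀) + g n) * (if n ≤ Y j then Γ n v else 0) =
        ∑ n ∈ Icc 1 (Y j), F (pv v (n + h₀) + g n) * Γ n v := by
      have : Icc 1 (Y j) = (Icc 1 x).filter (fun n => n ≤ Y j) := by
        ext n
        rw [mem_filter, mem_Icc, mem_Icc]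
        have := hYx j hj
        omega
      rw [this, sum_filter]
      refine sum_congr rfl fun n _ => ?_
      split_ifs <;> simp
    rw [e1]
    have e2 : ∑ n ∈ Icc 1 y, F (pv v (n + h₀) + g n) * Γ n v = ∑ n ∈ Icc 1 (Y j), F (pv v (n + h₀) + g n) * Γ n v +
        ∑ n ∈ Icc (Y j + 1) y, F (pv v (n + h₀) + g n) * Γ n v := by
      have hu : Icc 1 y = Icc 1 (Y j) ∪ Icc (Y j + 1) y := by
        ext n
        rw [mem_union, mem_Icc, mem_Icc, mem_Icc]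
        omega
      rw [hu, sum_union]
      rw [Finset.disjoint_left]
      intro n h1 h2
      rw [mem_Icc] at h1 h2
      omega
    rw [e2] at hv2
    have e3 : ‖∑ n ∈ Icc (Y j + 1) y, F (pv v (n + h₀) + g n) * Γ n v‖ ≤ ε / 2 * x := by
      refine (norm_sum_le _ _).trans (le_trans (sum_le_sum fun n _ => ?_) (?_ : ∑ n ∈ Icc (Y j + 1) y, (1 : ℝ) ≤ _))
      · rw [norm_mul]
        exact mul_le_one₀ (hb _) (norm_nonneg _) (hΓ n v)
      · rw [sum_const, Nat.card_Icc, nsmul_eq_mul, mul_one]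
        refine le_trans ?_ hj2
        exact_mod_cast (by omega : y + 1 - (Y j + 1) ≤ y - Y j)
    have e4 := norm_add_le (∑ n ∈ Icc 1 (Y j), F (pv v (n + h₀) + g n) * Γ n v)
      (∑ n ∈ Icc (Y j + 1) y, F (pv v (n + h₀) + g n) * Γ n v)
    linarith
  have hone : ∀ j ∈ range (N + 1), ((((Bx d H).filter (fun v => ε / 2 * x < ‖∑ n ∈ Icc 1 x,
        F (pv v (n + h₀) + g n) * (if n ≤ Y j then Γ n v else 0)‖)).card : ℕ) : ℝ) ≤ ε / (N + 1) * (Bx d H).card := by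
    intro j _
    have h1 := hS F hb H x hx1 hAH' hWZ g hg (fun n v => if n ≤ Y j then Γ n v else 0) (fun n v => by
      split_ifs
      · exact hΓ n v
      · simp) (fun n v r hr => by
        have := hinv n v r hr
        simp only [this])
    have h2 := cheb (Bx d H) (fun v => ‖∑ n ∈ Icc 1 x, F (pv v (n + h₀) + g n) * (if n ≤ Y j then Γ n v else 0)‖)
      (fun _ _ => norm_nonneg _) (ε / 2 * x) _ (by positivity) h1
    refine h2.trans (le_of_eq ?_)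
    field_simp
    ring
  have h1 : (((Bx d H).filter (fun v => ∃ y ≤ x, ε * x < ‖∑ n ∈ Icc 1 y, F (pv v (n + h₀) + g n) * Γ n v‖)).card : ℕ) ≤
      ∑ j ∈ range (N + 1), ((Bx d H).filter (fun v => ε / 2 * x < ‖∑ n ∈ Icc 1 x,
        F (pv v (n + h₀) + g n) * (if n ≤ Y j then Γ n v else 0)‖)).card :=
    (card_le_card hsub).trans card_biUnion_le
  calc ((((Bx d H).filter (fun v => ∃ y ≤ x, ε * x < ‖∑ n ∈ Icc 1 y, F (pv v (n + h₀) + g n) * Γ n v‖)).card : ℕ) : ℝ) ≤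
      ∑ j ∈ range (N + 1), ((((Bx d H).filter (fun v => ε / 2 * x < ‖∑ n ∈ Icc 1 x,
        F (pv v (n + h₀) + g n) * (if n ≤ Y j then Γ n v else 0)‖)).card : ℕ) : ℝ) := by exact_mod_cast h1
    _ ≤ ∑ j ∈ range (N + 1), ε / (N + 1) * (Bx d H).card := sum_le_sum hone
    _ = ε * (Bx d H).card := by
        rw [sum_const, card_range, nsmul_eq_mul]
        push_cast
        field_simp

open Classical in
/-- real multiplicative functions -/
theorem real_mult (J : Finset ℕ) (h₀ : ℕ) (h : h₀ ∉ J) (d : ℕ) (hd : 2 * J.card + 1 ≤ d) (C ε : ℝ) (hε : 0 < ε) :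
    ∃ A : ℕ, 1 ≤ A ∧ ∀ H x : ℕ, A ≤ x → A * x ^ (3 * J.card + 2) ≤ H →
    ∀ f : ℕ → ℝ, RMul f → FarR A H f → ∀ c : ℂ, ‖c‖ ≤ 1 →
    ∀ g : ℕ → ℤ, (∀ n, 1 ≤ n → n ≤ x → |(g n : ℝ)| ≤ C * H * n ^ d) →
    ∀ Γ : ℕ → (Fin (d + 1) → ℤ) → ℂ, (∀ n v, ‖Γ n v‖ ≤ 1) → Inv J Γ →
    ((((Bx d H).filter (fun v => ∃ y ≤ x, ε * x < ‖∑ n ∈ Icc 1 y,
      sg (fun n => (f n : ℂ)) c (pv v (n + h₀) + g n) * Γ n v‖)).card : ℕ) : ℝ) ≤ ε * (Bx d H).card := by
  obtain ⟨e₀, he₀, h0⟩ := almost J h₀ h d hd C ε hε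
  obtain ⟨A₁, hA₁, h1⟩ := ws_real (e₀ / 2) (by positivity)
  obtain ⟨A, hA1, h2⟩ := h0 A₁
  refine ⟨max A₁ A, hA1.trans (le_max_right _ _), fun H x hx hxH f hf hF c hc g hg Γ hΓ hinv => ?_⟩
  have hb : ∀ n, ‖((f n : ℝ) : ℂ)‖ ≤ 1 := fun n => by
    rw [Complex.norm_real, Real.norm_eq_abs]
    exact hf.abs n
  have hx1 : 1 ≤ x := hA1.trans ((le_max_right _ _).trans hx)
  have hA₁H : A₁ ≤ H := by
    refine le_trans ?_ hxH
    calc A₁ = A₁ * 1 := by ring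
      _ ≤ max A₁ A * x ^ (3 * J.card + 2) := Nat.mul_le_mul (le_max_left _ _) (Nat.one_le_pow _ _ hx1)
  have hWZ : WZ (sg (fun n => (f n : ℂ)) c) e₀ A₁ H := by
    refine wz_of _ c hc e₀ A₁ H fun X hX => ?_
    exact h1 H hA₁H f hf (farR_mono hF (le_max_left _ _)) X hX
  exact h2 (sg (fun n => (f n : ℂ)) c) (sg_norm hb hc) H x ((le_max_right _ _).trans hx)
    (le_trans (Nat.mul_le_mul_right _ (le_max_right _ _)) hxH) hWZ g hg Γ hΓ hinv

end Pool.Agent.Helper82K9.PX
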