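import Pool.Agent.Helper82K9.PX.PX6

set_option autoImplicit false

/-! The sign patterns at the values of almost all polynomials. -/

namespace Pool.Agent.Helper82K9.PX

open Finset
open Pool.Agent.TH892.RT (Bx pv card_Bx card_val patterns)
open Pool.Agent.Helper82K9.RQ (sg sg_norm farR_mono)
open Pool.Agent.Helper82K9.EL (RMul FarR)

/-- the sign as an integer -/
noncomputable def sz (F : ℤ → ℂ) (u : ℤ) : ℤ := if F u = 1 then 1 else -1

lemma sz_pm (F : ℤ → ℂ) (u : ℤ) : sz F u = 1 ∨ sz F u = -1 := by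
  unfold sz
  split_ifs
  · exact Or.inl rfl
  · exact Or.inr rfl

lemma sz_eq {F : ℤ → ℂ} {u : ℤ} (h : F u = 1 ∨ F u = -1) : F u = ((sz F u : ℤ) : ℂ) := by
  unfold sz
  rcases h with h | h
  · rw [if_pos h, h]; simp
  · rw [if_neg (by rw [h]; norm_num), h]; simp

lemma sg_pm {f : ℕ → ℝ} (hf : ∀ n, 1 ≤ n → f n = 1 ∨ f n = -1) {c : ℂ} (hc : c = 1 ∨ c = -1) {u : ℤ} (hu : u ≠ 0) :
    sg (fun n => (f n : ℂ)) c u = 1 ∨ sg (fun n => (f n : ℂ)) c u = -1 := by
  unfold sg
  rcases lt_or_gt_of_ne hu with h | h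
  · rw [if_neg (by omega), if_pos h]
    beta_reduce
    rcases hf (-u).toNat (by omega) with h1 | h1 <;> rcases hc with h2 | h2 <;> rw [h1, h2] <;> norm_num
  · rw [if_pos h]
    beta_reduce
    rcases hf u.toNat (by omega) with h1 | h1 <;> rw [h1] <;> norm_num

open Classical in
/-- **The sign patterns.** -/
theorem pat (k : ℕ) (hk : 1 ≤ k) (h : Fin k → ℕ) (hinj : Function.Injective h) (d : ℕ) (hd : 2 * k ≤ d + 1) (C ε : ℝ)
    (hε : 0 < ε) : ∃ A : ℕ, 1 ≤ A ∧ ∀ H x : ℕ, A ≤ x → A * x ^ (3 * k - 1) ≤ H →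
    ∀ f : ℕ → ℝ, RMul f → (∀ n, 1 ≤ n → f n = 1 ∨ f n = -1) → FarR A H f → ∀ c : ℂ, (c = 1 ∨ c = -1) →
    ∀ G : Fin k → ℕ → ℤ, (∀ i n, 1 ≤ n → n ≤ x → |(G i n : ℝ)| ≤ C * H * n ^ d) →
    ((((Bx d H).filter (fun v => ¬ ∀ y ≤ x, ∀ s : Fin k → ℤ, (∀ i, s i = 1 ∨ s i = -1) →
      |((((Icc 1 y).filter (fun n => ∀ i, sg (fun n => (f n : ℂ)) c (pv v (n + h i) + G i n) = ((s i : ℤ) : ℂ))).card : ℕ) : ℝ) -
        (y : ℝ) / 2 ^ k| ≤ ε * x)).card : ℕ) : ℝ) ≤ ε * (Bx d H).card := by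
  obtain ⟨ε', hε'⟩ : ∃ ε' : ℝ, ε' = ε / 2 ^ (k + 1) := ⟨_, rfl⟩
  have h2k : (1 : ℝ) ≤ 2 ^ (k + 1) := one_le_pow₀ (by norm_num)
  have hε'0 : 0 < ε' := by rw [hε']; positivity
  have hε'1 : ε' ≤ ε := by
    rw [hε']
    exact div_le_self hε.le h2k
  -- the constants of the subsets
  have hex : ∀ i₀ : Fin k, ∀ I : Finset (Fin k), ∃ A : ℕ, i₀ ∈ I → 1 ≤ A ∧ ∀ H x : ℕ, A ≤ x →
      A * x ^ (3 * k - 1) ≤ H →
      ∀ f : ℕ → ℝ, RMul f → FarR A H f → ∀ c : ℂ, ‖c‖ ≤ 1 →
      ∀ G : Fin k → ℕ → ℤ, (∀ i n, 1 ≤ n → n ≤ x → |(G i n : ℝ)| ≤ C * H * n ^ d) →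
      ((((Bx d H).filter (fun v => ∃ y ≤ x, ε' * x < ‖∑ n ∈ Icc 1 y,
        ∏ i ∈ I, sg (fun n => (f n : ℂ)) c (pv v (n + h i) + G i n)‖)).card : ℕ) : ℝ) ≤ ε' * (Bx d H).card := by
    intro i₀ I
    by_cases hi : i₀ ∈ I
    · have hJ : h i₀ ∉ (I.erase i₀).image h := by
        intro hh
        rw [mem_image] at hh
        obtain ⟨j, hj, hj2⟩ := hh
        exact (mem_erase.1 hj).1 (hinj hj2)
      have hJc : ((I.erase i₀).image h).card ≤ k - 1 := by
        refine card_image_le.trans ?_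
        rw [card_erase_of_mem hi]
        have := card_le_univ I
        rw [Fintype.card_fin] at this
        omega
      obtain ⟨A, hA1, hA⟩ := real_mult ((I.erase i₀).image h) (h i₀) hJ d (by omega) C ε' hε'0
      refine ⟨A, fun _ => ⟨hA1, fun H x hx hxH f hf hF c hc G hG => ?_⟩⟩
      have hx1 : 1 ≤ x := hA1.trans hx
      have hxH' : A * x ^ (3 * ((I.erase i₀).image h).card + 2) ≤ H := by
        refine le_trans ?_ hxH
        apply Nat.mul_le_mul_left
        exact Nat.pow_le_pow_right hx1 (by omega)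
      have hb : ∀ n, ‖((f n : ℝ) : ℂ)‖ ≤ 1 := fun n => by
        rw [Complex.norm_real, Real.norm_eq_abs]
        exact hf.abs n
      have key := hA H x hx hxH' f hf hF c hc (G i₀) (hG i₀)
        (fun n v => ∏ i ∈ I.erase i₀, sg (fun n => (f n : ℂ)) c (pv v (n + h i) + G i n)) (fun n v => by
          rw [norm_prod]
          exact prod_le_one (fun _ _ => norm_nonneg _) fun i _ => sg_norm hb hc _) (fun n v r hr => by
          refine prod_congr rfl fun i hi2 => ?_
          have h1 := hr (h i) (mem_image_of_mem h hi2)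
          have h2 := pv_smul v r 1 (n + h i)
          rw [one_smul, h1] at h2
          rw [h2]
          simp)
      refine le_trans (le_of_eq ?_) key
      congr 2
      apply filter_congr
      intro v _
      have e : ∀ n, ∏ i ∈ I, sg (fun n => (f n : ℂ)) c (pv v (n + h i) + G i n) =
          sg (fun n => (f n : ℂ)) c (pv v (n + h i₀) + G i₀ n) *
            ∏ i ∈ I.erase i₀, sg (fun n => (f n : ℂ)) c (pv v (n + h i) + G i n) := fun n => (mul_prod_erase I _ hi).symm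
      simp only [e]
    · exact ⟨0, fun hh => absurd hh hi⟩
  choose A0 hA0 using hex
  obtain ⟨A, hA⟩ : ∃ A : ℕ, A = ∑ i₀ : Fin k, ∑ I : Finset (Fin k), A0 i₀ I + ∑ i, h i + 2 + ⌈2 * k * 4 ^ d / ε⌉₊ := ⟨_, rfl⟩
  have hA0A : ∀ i₀ I, A0 i₀ I ≤ A := by
    intro i₀ I
    have h1 := single_le_sum (f := fun I => A0 i₀ I) (fun _ _ => Nat.zero_le _) (mem_univ I)
    have h2 := single_le_sum (f := fun i₀ => ∑ I : Finset (Fin k), A0 i₀ I) (fun _ _ => Nat.zero_le _) (mem_univ i₀)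
    have h3 := h1.trans h2
    omega
  have hhA : ∀ i, h i ≤ A := by
    intro i
    have := single_le_sum (f := fun i => h i) (fun _ _ => Nat.zero_le _) (mem_univ i)
    omega
  refine ⟨A, by omega, fun H x hx hxH f hf hpm hF c hc G hG => ?_⟩
  have hx1 : 1 ≤ x := by omega
  have hxr : (1 : ℝ) ≤ x := by exact_mod_cast hx1
  have hcn : ‖c‖ ≤ 1 := by rcases hc with h1 | h1 <;> rw [h1] <;> simp
  have hxpow : x ≤ x ^ (3 * k - 1) := Nat.le_self_pow (by omega) _
  have hxA : A * x ≤ H := (Nat.mul_le_mul_left A hxpow).trans hxH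
  have hH1 : 1 ≤ H := by
    refine le_trans ?_ hxA
    exact Nat.mul_pos (by omega) hx1
  have hHr : (1 : ℝ) ≤ H := by exact_mod_cast hH1
  obtain ⟨F, hFd⟩ : ∃ F : ℤ → ℂ, F = sg (fun n => (f n : ℂ)) c := ⟨_, rfl⟩
  have hFpm : ∀ u, u ≠ 0 → F u = 1 ∨ F u = -1 := by
    intro u hu
    rw [hFd]
    exact sg_pm hpm hc hu
  rw [← hFd]
  have hHL : (H : ℝ) ≤ 2 * H + 1 := by linarith
  -- the zeros
  obtain ⟨E0, hE0⟩ : ∃ E0 : Finset (Fin (d + 1) → ℤ), E0 = (Icc 1 x).biUnion (fun n => univ.biUnion (fun i : Fin k =>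
    (Bx d H).filter (fun v => pv v (n + h i) + G i n = 0))) := ⟨_, rfl⟩
  have hE0c : ((E0.card : ℕ) : ℝ) ≤ ε / 2 * (Bx d H).card := by
    have h1 : ∀ n ∈ Icc 1 x, ∀ i : Fin k, (((Bx d H).filter (fun v => pv v (n + h i) + G i n = 0)).card : ℝ) ≤ 4 ^ d * (H : ℝ) ^ d := by
      intro n hn i
      rw [mem_Icc] at hn
      have ht : n + h i ≤ H := by
        have h2 := hhA i
        have h3 : n + h i ≤ 2 * x := by omega
        have h4 : 2 * x ≤ A * x := Nat.mul_le_mul_right x (by omega)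
        omega
      have ht1 : 1 ≤ n + h i := by omega
      refine le_trans ?_ ((card_val d H (n + h i) ht1 ht (0 - G i n)).trans ?_)
      · have : (Bx d H).filter (fun v => pv v (n + h i) + G i n = 0) ⊆
            (Fintype.piFinset (fun _ : Fin (d + 1) => Icc (-(H : ℤ)) H)).filter
            (fun a => ∑ j : Fin (d + 1), a j * ((n + h i : ℕ) : ℤ) ^ (j : ℕ) = 0 - G i n) := by
          intro v hv
          rw [mem_filter] at hv ⊢
          refine ⟨hv.1, ?_⟩
          have := hv.2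
          unfold pv at this
          linarith
        exact_mod_cast card_le_card this
      · rw [← mul_pow]
        apply pow_le_pow_left₀ (by positivity)
        apply div_le_self (by positivity)
        exact_mod_cast ht1
    calc ((E0.card : ℕ) : ℝ) ≤ ((∑ n ∈ Icc 1 x, ∑ i : Fin k, ((Bx d H).filter (fun v => pv v (n + h i) + G i n = 0)).card : ℕ) : ℝ) := by
          rw [hE0]
          exact Nat.cast_le.2 (card_biUnion_le.trans (sum_le_sum fun n _ => card_biUnion_le))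
      _ ≤ ∑ n ∈ Icc 1 x, ∑ i : Fin k, 4 ^ d * (H : ℝ) ^ d := by
          push_cast
          exact sum_le_sum fun n hn => sum_le_sum fun i _ => h1 n hn i
      _ = x * (k * (4 ^ d * (H : ℝ) ^ d)) := by
          rw [sum_const, sum_const, Nat.card_Icc, card_univ, Fintype.card_fin, nsmul_eq_mul, nsmul_eq_mul, Nat.add_sub_cancel]
      _ ≤ ε / 2 * (H * (H : ℝ) ^ d) := by
          have h2 : 2 * k * 4 ^ d / ε ≤ A := (Nat.le_ceil _).trans (by exact_mod_cast (by omega : ⌈2 * (k : ℝ) * 4 ^ d / ε⌉₊ ≤ A))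
          rw [div_le_iff₀ hε] at h2
          have h3 : (A : ℝ) * x ≤ H := by exact_mod_cast hxA
          have h4 : (x : ℝ) * (2 * k * 4 ^ d) ≤ ε * H := by
            calc (x : ℝ) * (2 * k * 4 ^ d) ≤ x * (A * ε) := by gcongr
              _ = ε * (A * x) := by ring
              _ ≤ ε * H := mul_le_mul_of_nonneg_left h3 hε.le
          calc (x : ℝ) * (k * (4 ^ d * (H : ℝ) ^ d)) = 1 / 2 * ((x : ℝ) * (2 * k * 4 ^ d)) * (H : ℝ) ^ d := by ring
            _ ≤ 1 / 2 * (ε * H) * (H : ℝ) ^ d := by gcongr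
            _ = _ := by ring
      _ ≤ ε / 2 * (Bx d H).card := by
          rw [card_Bx, pow_succ', ]
          gcongr
  -- the subsets
  obtain ⟨E1, hE1⟩ : ∃ E1 : Finset (Fin k) → Finset (Fin (d + 1) → ℤ), E1 = fun I => (Bx d H).filter (fun v => ∃ y ≤ x,
    ε' * x < ‖∑ n ∈ Icc 1 y, ∏ i ∈ I, F (pv v (n + h i) + G i n)‖) := ⟨_, rfl⟩
  have hE1c : ∀ I ∈ (univ : Finset (Finset (Fin k))).filter (fun I => I.Nonempty), ((E1 I).card : ℝ) ≤ ε' * (Bx d H).card := by
    intro I hI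
    rw [mem_filter] at hI
    obtain ⟨i₀, hi₀⟩ := hI.2
    obtain ⟨-, h3⟩ := hA0 i₀ I hi₀
    have := h3 H x ((hA0A i₀ I).trans hx) ((Nat.mul_le_mul_right _ (hA0A i₀ I)).trans hxH) f hf (farR_mono hF (hA0A i₀ I)) c hcn G hG
    rw [hE1, hFd]
    exact this
  have hsub : (Bx d H).filter (fun v => ¬ ∀ y ≤ x, ∀ s : Fin k → ℤ, (∀ i, s i = 1 ∨ s i = -1) →
      |((((Icc 1 y).filter (fun n => ∀ i, F (pv v (n + h i) + G i n) = ((s i : ℤ) : ℂ))).card : ℕ) : ℝ) -
        (y : ℝ) / 2 ^ k| ≤ ε * x) ⊆ E0 ∪ ((univ : Finset (Finset (Fin k))).filter (fun I => I.Nonempty)).biUnion E1 := by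
    intro v hv
    rw [mem_filter] at hv
    by_contra hv2
    rw [mem_union, not_or] at hv2
    apply hv.2
    intro y hy s hs
    have hnz : ∀ n ∈ Icc 1 x, ∀ i, pv v (n + h i) + G i n ≠ 0 := by
      intro n hn i hz
      apply hv2.1
      rw [hE0, mem_biUnion]
      exact ⟨n, hn, mem_biUnion.2 ⟨i, mem_univ _, mem_filter.2 ⟨hv.1, hz⟩⟩⟩
    have hnz' : ∀ n ∈ Icc 1 y, ∀ i, pv v (n + h i) + G i n ≠ 0 := by
      intro n hn i
      apply hnz n _ i
      rw [mem_Icc] at hn ⊢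
      omega
    have key := patterns k (Icc 1 y) (fun i n => sz F (pv v (n + h i) + G i n)) (fun i n => sz_pm F _) (ε' * x) (by positivity)
      (by
        intro I hI
        have h1 : v ∉ E1 I := by
          intro hh
          apply hv2.2
          rw [mem_biUnion]
          exact ⟨I, mem_filter.2 ⟨mem_univ _, hI⟩, hh⟩
        rw [hE1] at h1
        simp only [mem_filter, not_and, not_exists, not_lt] at h1
        have h2 := h1 hv.1 y hy
        have h3 : ((((∑ n ∈ Icc 1 y, ∏ i ∈ I, sz F (pv v (n + h i) + G i n) : ℤ) : ℝ)) : ℂ) =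
            ∑ n ∈ Icc 1 y, ∏ i ∈ I, F (pv v (n + h i) + G i n) := by
          push_cast
          refine sum_congr rfl fun n hn => prod_congr rfl fun i _ => ?_
          exact (sz_eq (hFpm _ (hnz' n hn i))).symm
        rw [← h3, Complex.norm_real, Real.norm_eq_abs] at h2
        exact h2) s hs
    rw [Nat.card_Icc, Nat.add_sub_cancel] at key
    have h4 : (Icc 1 y).filter (fun n => ∀ i, F (pv v (n + h i) + G i n) = ((s i : ℤ) : ℂ)) =
        (Icc 1 y).filter (fun n => ∀ i, sz F (pv v (n + h i) + G i n) = s i) := by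
      apply filter_congr
      intro n hn
      constructor
      · intro hh i
        have h5 := hh i
        rw [sz_eq (hFpm _ (hnz' n hn i))] at h5
        exact_mod_cast h5
      · intro hh i
        rw [sz_eq (hFpm _ (hnz' n hn i)), hh i]
    rw [h4]
    refine key.trans ?_
    gcongr
  have hB0 : (0 : ℝ) ≤ (Bx d H).card := Nat.cast_nonneg _
  calc _ ≤ ((E0.card + ∑ I ∈ (univ : Finset (Finset (Fin k))).filter (fun I => I.Nonempty), (E1 I).card : ℕ) : ℝ) :=
        Nat.cast_le.2 ((card_le_card hsub).trans ((card_union_le _ _).trans (Nat.add_le_add_left card_biUnion_le _)))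
    _ ≤ ε / 2 * (Bx d H).card + ∑ I ∈ (univ : Finset (Finset (Fin k))).filter (fun I => I.Nonempty), ε' * (Bx d H).card := by
        push_cast
        exact add_le_add hE0c (sum_le_sum hE1c)
    _ ≤ ε / 2 * (Bx d H).card + 2 ^ k * (ε' * (Bx d H).card) := by
        apply add_le_add le_rfl
        rw [sum_const, nsmul_eq_mul]
        apply mul_le_mul_of_nonneg_right _ (by positivity)
        have : ((univ : Finset (Finset (Fin k))).filter (fun I => I.Nonempty)).card ≤ 2 ^ k := by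
          refine (card_filter_le _ _).trans ?_
          rw [card_univ, Fintype.card_finset, Fintype.card_fin]
        exact_mod_cast this
    _ = ε * (Bx d H).card := by
        rw [hε', pow_succ]
        field_simp
        ring

end Pool.Agent.Helper82K9.PX
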