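import Pool.Agent.Helper82K9.PX.PX6

set_option autoImplicit false

/-! Almost all polynomials at the elements of a sequence which is not concentrated in residue classes. -/

namespace Pool.Agent.Helper82K9.PX

open Finset
open Pool.Agent.TH892.RT (Bx Bk pv card_Bx cardI val_sum card_val cheb sqrt_sum_le fibre)
open Pool.Agent.Helper82K9.RQ (CL WF WZ sg sg_norm wz_of farR_mono)
open Pool.Agent.W110.HV (SN AD AD_nonneg AD_sum)
open Pool.Agent.Helper82K9.EL (RMul FarR ws_real)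

/-- the residue classes of a window, averaged over the differences of a sequence -/
lemma avgS (F : ℤ → ℂ) (hb : ∀ u, ‖F u‖ ≤ 1) (F1 x M W : ℕ) (η : ℝ) (hη : 0 ≤ η) (hx : 1 ≤ x) (hW : x ^ 2 ≤ W)
    (q : ℕ → ℕ) (V : Finset ℕ) (hV : V ⊆ Icc 1 M) (hVq : ∀ m ∈ V, 0 < q m ∧ q m ≤ x)
    (hcl : ∀ D : ℕ, F1 < D → ((V.filter (fun m => D ∣ q m)).card : ℝ) ≤ η * M) (u : ℤ) :
    ∑ m ∈ V, Cq F W (q m) u ≤ M * (∑ D ∈ Icc 1 F1, ∑ b ∈ range D, ‖WF F W u ((b : ℝ) / D)‖ + Real.sqrt (12 * η) * W) := by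
  set g : ℕ → ℂ := fun n => F (u + n) with hg
  set T : ℕ → ℝ := fun m => ∑ D ∈ (q m).divisors, AD W g D with hT
  have hT0 : ∀ v, 0 ≤ T v := fun v => sum_nonneg fun D _ => AD_nonneg _ _ _
  have h1 : ∑ m ∈ V, Cq F W (q m) u ≤ ∑ m ∈ V, Real.sqrt (T m) :=
    sum_le_sum fun m hm => Cq_le F W _ (hVq m hm).1 u
  have hVc : (V.card : ℝ) ≤ M := by
    have h2 := card_le_card hV
    rw [Nat.card_Icc, Nat.add_sub_cancel] at h2
    exact_mod_cast h2
  set A := ∑ D ∈ Icc 1 F1, AD W g D with hA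
  have hA0 : 0 ≤ A := sum_nonneg fun D _ => AD_nonneg _ _ _
  have hg2 : ∑ n ∈ Icc 1 W, ‖g n‖ ^ 2 ≤ W := by
    calc ∑ n ∈ Icc 1 W, ‖g n‖ ^ 2 ≤ ∑ n ∈ Icc 1 W, (1 : ℝ) := by
          apply sum_le_sum
          intro n _
          exact pow_le_one₀ (norm_nonneg _) (hb (u + n))
      _ = W := by simp
  have hxW : (x : ℝ) ^ 2 ≤ W := by exact_mod_cast hW
  have hlarge : ∑ D ∈ Icc 1 x, AD W g D ≤ 12 * (W : ℝ) ^ 2 := by
    refine (AD_sum W g x).trans ?_
    calc 6 * ((W : ℝ) + (x : ℝ) ^ 2) * ∑ n ∈ Icc 1 W, ‖g n‖ ^ 2 ≤ 6 * ((W : ℝ) + W) * W := by gcongr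
      _ = _ := by ring
  have hM0 : (0 : ℝ) ≤ M := Nat.cast_nonneg _
  have h2 : ∑ v ∈ V, T v ≤ M * A + η * M * (12 * (W : ℝ) ^ 2) := by
    have e1 : ∑ v ∈ V, T v = ∑ D ∈ Icc 1 x, ((V.filter (fun v => D ∣ q v)).card : ℝ) * AD W g D := by
      have e2 : ∀ v ∈ V, T v = ∑ D ∈ Icc 1 x, if D ∣ q v then AD W g D else 0 := by
        intro v hv
        have hq := hVq v hv
        rw [hT]
        simp only
        rw [← sum_filter]
        apply sum_congr _ (fun _ _ => rfl)
        ext D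
        rw [Nat.mem_divisors, mem_filter, mem_Icc]
        constructor
        · rintro ⟨hd, _⟩
          exact ⟨⟨Nat.pos_of_dvd_of_pos hd hq.1, (Nat.le_of_dvd hq.1 hd).trans hq.2⟩, hd⟩
        · rintro ⟨_, hd⟩
          exact ⟨hd, hq.1.ne'⟩
      rw [sum_congr rfl e2, sum_comm]
      refine sum_congr rfl fun D _ => ?_
      rw [← sum_filter, sum_const, nsmul_eq_mul]
    rw [e1, ← sum_filter_add_sum_filter_not (Icc 1 x) (fun D => D ≤ F1)]
    apply add_le_add
    · calc ∑ D ∈ (Icc 1 x).filter (fun D => D ≤ F1), ((V.filter (fun v => D ∣ q v)).card : ℝ) * AD W g D ≤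
            ∑ D ∈ (Icc 1 x).filter (fun D => D ≤ F1), M * AD W g D := by
            apply sum_le_sum
            intro D _
            apply mul_le_mul_of_nonneg_right _ (AD_nonneg _ _ _)
            refine le_trans ?_ hVc
            exact_mod_cast card_filter_le _ _
        _ ≤ ∑ D ∈ Icc 1 F1, M * AD W g D := by
            apply sum_le_sum_of_subset_of_nonneg
            · intro D hD
              rw [mem_filter, mem_Icc] at hD
              rw [mem_Icc]; omega
            · intro D _ _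
              exact mul_nonneg hM0 (AD_nonneg _ _ _)
        _ = _ := by rw [← mul_sum]
    · calc ∑ D ∈ (Icc 1 x).filter (fun D => ¬ D ≤ F1), ((V.filter (fun v => D ∣ q v)).card : ℝ) * AD W g D ≤
            ∑ D ∈ (Icc 1 x).filter (fun D => ¬ D ≤ F1), η * M * AD W g D := by
            apply sum_le_sum
            intro D hD
            rw [mem_filter, mem_Icc] at hD
            apply mul_le_mul_of_nonneg_right _ (AD_nonneg _ _ _)
            exact hcl D (by omega)
        _ ≤ ∑ D ∈ Icc 1 x, η * M * AD W g D :=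
            sum_le_sum_of_subset_of_nonneg (filter_subset _ _) (fun D _ _ => mul_nonneg (by positivity) (AD_nonneg _ _ _))
        _ = η * M * ∑ D ∈ Icc 1 x, AD W g D := by rw [← mul_sum]
        _ ≤ _ := mul_le_mul_of_nonneg_left hlarge (by positivity)
  have h3 : (∑ v ∈ V, Real.sqrt (T v)) ^ 2 ≤ (M * (Real.sqrt A + Real.sqrt (12 * η) * W)) ^ 2 := by
    refine (sq_sum_le_card_mul_sum_sq (s := V) (f := fun v => Real.sqrt (T v))).trans ?_
    have e1 : ∑ v ∈ V, Real.sqrt (T v) ^ 2 = ∑ v ∈ V, T v := sum_congr rfl fun v _ => Real.sq_sqrt (hT0 v)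
    rw [e1]
    calc (V.card : ℝ) * ∑ v ∈ V, T v ≤ M * (M * A + η * M * (12 * (W : ℝ) ^ 2)) := by
          apply mul_le_mul hVc h2 (sum_nonneg fun v _ => hT0 v) hM0
      _ = (M : ℝ) ^ 2 * (A + (12 * η) * (W : ℝ) ^ 2) := by ring
      _ = (M : ℝ) ^ 2 * (Real.sqrt A ^ 2 + Real.sqrt (12 * η) ^ 2 * (W : ℝ) ^ 2) := by
          rw [Real.sq_sqrt hA0, Real.sq_sqrt (by positivity)]
      _ ≤ _ := by
          have : 0 ≤ (M : ℝ) ^ 2 * (Real.sqrt A * (Real.sqrt (12 * η) * W)) := by positivity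
          nlinarith
  have h4 : ∑ v ∈ V, Real.sqrt (T v) ≤ M * (Real.sqrt A + Real.sqrt (12 * η) * W) :=
    le_of_sq_le_sq h3 (by positivity)
  refine h1.trans (h4.trans ?_)
  apply mul_le_mul_of_nonneg_left _ hM0
  apply add_le_add _ le_rfl
  have h5 : ∑ D ∈ Icc 1 F1, AD W g D ≤ ∑ D ∈ Icc 1 F1, ∑ b ∈ range D, ‖WF F W u ((b : ℝ) / D)‖ ^ 2 := by
    apply sum_le_sum
    intro D _
    unfold AD WF
    apply sum_le_sum_of_subset_of_nonneg (filter_subset _ _)
    intro b _ _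
    positivity
  refine (Real.sqrt_le_sqrt h5).trans ?_
  rw [sum_sigma', sum_sigma']
  exact sqrt_sum_le _ (fun p : (Σ _ : ℕ, ℕ) => ‖WF F W u ((p.2 : ℝ) / p.1)‖) (fun _ => norm_nonneg _)

/-- **The second moment along a sequence.** -/
theorem momentS (d : ℕ) (hd : 1 ≤ d) (C ε : ℝ) (hε : 0 < ε) : ∃ η : ℝ, 0 < η ∧ ∀ F1 : ℕ,
    ∃ e₀ : ℝ, 0 < e₀ ∧ ∀ W₀ : ℕ, ∃ A : ℕ, 1 ≤ A ∧ ∀ F : ℤ → ℂ, (∀ u, ‖F u‖ ≤ 1) → ∀ H x M : ℕ, 1 ≤ x →
    A * x ^ 3 ≤ H → WZ F e₀ W₀ H → ∀ s : ℕ → ℕ, (∀ m ∈ Icc 1 M, 1 ≤ s m ∧ s m ≤ x) →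
    (∀ D : ℕ, F1 < D → ∀ r : ℕ, (((Icc 1 M).filter (fun m => s m % D = r)).card : ℝ) ≤ η * M) →
    ∀ g : ℕ → ℤ, (∀ m ∈ Icc 1 M, |(g m : ℝ)| ≤ C * H * (s m : ℝ) ^ d) →
    ∀ w : ℕ → ℂ, (∀ n, ‖w n‖ ≤ 1) →
    ∑ v ∈ Bx d H, ‖∑ n ∈ Icc 1 M, F (pv v (s n) + g n) * w n‖ ^ 2 ≤ ε * M ^ 2 * (Bx d H).card := by
  classical
  obtain ⟨K₀, hK₀⟩ : ∃ K₀ : ℕ, K₀ = d + 1 + ⌈max C 0⌉₊ := ⟨_, rfl⟩
  have hK₀r : (d : ℝ) + 1 + max C 0 ≤ K₀ := by
    rw [hK₀]; push_cast
    have := Nat.le_ceil (max C 0)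
    linarith
  have hK₀1 : 1 ≤ K₀ := by omega
  have hK₀p : (1 : ℝ) ≤ K₀ := by exact_mod_cast hK₀1
  obtain ⟨C₂, hC₂⟩ : ∃ C₂ : ℝ, C₂ = 4 ^ d * K₀ := ⟨_, rfl⟩
  have hC₂1 : 1 ≤ C₂ := by
    rw [hC₂]
    have h4 : (1 : ℝ) ≤ 4 ^ d := one_le_pow₀ (by norm_num)
    nlinarith
  have hC₂0 : 0 < C₂ := by linarith
  obtain ⟨e, he⟩ : ∃ e : ℝ, e = min ε 1 := ⟨_, rfl⟩
  have he0 : 0 < e := by rw [he]; exact lt_min hε one_pos
  have heε : e ≤ ε := by rw [he]; exact min_le_left _ _
  have he1 : e ≤ 1 := by rw [he]; exact min_le_right _ _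
  obtain ⟨η₁, hη₁⟩ : ∃ η₁ : ℝ, η₁ = e / (80 * C₂) := ⟨_, rfl⟩
  have hη₁0 : 0 < η₁ := by rw [hη₁]; positivity
  obtain ⟨η, hηd⟩ : ∃ η : ℝ, η = η₁ ^ 2 / 12 := ⟨_, rfl⟩
  have hη0 : 0 < η := by rw [hηd]; positivity
  have hηs : Real.sqrt (12 * η) = η₁ := by
    rw [hηd]
    have : 12 * (η₁ ^ 2 / 12) = η₁ ^ 2 := by ring
    rw [this, Real.sqrt_sq hη₁0.le]
  have hηe : η ≤ e / 4 := by
    have h1 : η₁ ≤ e := by
      rw [hη₁, div_le_iff₀ (by positivity)]
      nlinarith
    have h2 : η₁ ^ 2 ≤ e * 1 := by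
      rw [sq]
      exact mul_le_mul h1 (h1.trans he1) hη₁0.le he0.le
    rw [hηd]; linarith
  refine ⟨η, hη0, fun F1 => ?_⟩
  refine ⟨η₁ / ((F1 : ℝ) + 1) ^ 2, by positivity, fun W₀ => ?_⟩
  obtain ⟨A₁, hA₁⟩ : ∃ A₁ : ℕ, A₁ = W₀ + ⌈40 * C₂ / e⌉₊ + 1 := ⟨_, rfl⟩
  have hA₁1 : (1 : ℝ) ≤ A₁ := by
    have : 1 ≤ A₁ := by omega
    exact_mod_cast this
  have hA₁2 : 40 * C₂ / e ≤ A₁ := (Nat.le_ceil _).trans (by exact_mod_cast (by omega : ⌈40 * C₂ / e⌉₊ ≤ A₁))
  obtain ⟨A, hA⟩ : ∃ A : ℕ, A = A₁ + 2 + ⌈16 * (d + 1) * A₁ / e⌉₊ := ⟨_, rfl⟩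
  refine ⟨A, by omega, fun F hb H x M hx1 hAH hWZ s hs hcl g hg w hw => ?_⟩
  have hxr : (0 : ℝ) < x := by exact_mod_cast hx1
  have hxr1 : (1 : ℝ) ≤ x := by exact_mod_cast hx1
  have hM0 : (0 : ℝ) ≤ M := Nat.cast_nonneg _
  have hpow : ∀ j, j ≤ 3 → ∀ b, b ≤ A → b * x ^ j ≤ H := by
    intro j hj b hb
    refine le_trans ?_ hAH
    exact Nat.mul_le_mul hb (Nat.pow_le_pow_right hx1 hj)
  have hH1 : 1 ≤ H := by
    have := hpow 0 (by omega) 1 (by omega)
    simpa using this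
  have hHr : (1 : ℝ) ≤ H := by exact_mod_cast hH1
  obtain ⟨W, hW⟩ : ∃ W : ℕ, W = A₁ * x ^ 2 := ⟨_, rfl⟩
  have hW1 : x ^ 2 ≤ W := by
    rw [hW]
    exact Nat.le_mul_of_pos_left _ (by omega)
  have hWH : W ≤ H := by
    rw [hW]
    exact hpow 2 (by omega) A₁ (by omega)
  have hW2 : W₀ ≤ W := by
    rw [hW]
    calc W₀ = W₀ * 1 := by ring
      _ ≤ A₁ * x ^ 2 := Nat.mul_le_mul (by omega) (Nat.one_le_pow _ _ hx1)
  have hW3 : 1 ≤ W := (Nat.one_le_pow _ _ hx1).trans hW1
  have hWr : (0 : ℝ) < W := by exact_mod_cast hW3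
  obtain ⟨L, hL⟩ : ∃ L : ℝ, L = 2 * H + 1 := ⟨_, rfl⟩
  have hL0 : 0 < L := by rw [hL]; positivity
  have hHL : (H : ℝ) ≤ L := by rw [hL]; linarith
  have hBx : (((Bx d H).card : ℕ) : ℝ) = L ^ (d + 1) := by rw [card_Bx, hL]
  have main : ∀ n ∈ Icc 1 M, ∑ m ∈ Icc 1 M, ‖∑ v ∈ Bx d H, (F (pv v (s n) + g n) * w n) *
      (starRingEnd ℂ) (F (pv v (s m) + g m) * w m)‖ ≤ e * M * L ^ (d + 1) := by
    intro n hn
    have hn' := mem_Icc.1 hn
    obtain ⟨t, ht⟩ : ∃ t : ℕ, t = s n := ⟨_, rfl⟩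
    have ht1 : 1 ≤ t := by rw [ht]; exact (hs n hn).1
    have htx : t ≤ x := by rw [ht]; exact (hs n hn).2
    have htr : (0 : ℝ) < t := by exact_mod_cast ht1
    have htH : t ≤ H := by
      have h2 := hpow 1 (by omega) 1 (by omega)
      rw [pow_one] at h2
      omega
    obtain ⟨X, hX⟩ : ∃ X : ℕ, X = K₀ * H * t ^ d := ⟨_, rfl⟩
    have hHX : H ≤ X := by
      rw [hX]
      calc H = 1 * H * 1 := by ring
        _ ≤ K₀ * H * t ^ d := Nat.mul_le_mul (Nat.mul_le_mul_right _ hK₀1) (Nat.one_le_pow _ _ ht1)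
    have hX1 : (1 : ℝ) ≤ X := by exact_mod_cast hH1.trans hHX
    have hXv : ∀ v ∈ Bx d H, |pv v t + g n| ≤ X := by
      intro v hv
      rw [hX]
      refine val_bound d H t t le_rfl ht1 C K₀ hK₀r (g n) ?_ v hv
      rw [ht]
      exact hg n hn
    obtain ⟨K, hK⟩ : ∃ K : ℝ, K = (4 * (H : ℝ) / t) ^ d := ⟨_, rfl⟩
    have hK0 : 0 ≤ K := by rw [hK]; positivity
    have hKv : ∀ u : ℤ, ((((Bx d H).filter (fun v => pv v t + g n = u)).card : ℕ) : ℝ) ≤ K := by
      intro u
      rw [hK]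
      refine le_trans ?_ (card_val d H t ht1 htH (u - g n))
      have : (Bx d H).filter (fun v => pv v t + g n = u) ⊆ (Fintype.piFinset (fun _ : Fin (d + 1) => Icc (-(H : ℤ)) H)).filter
          (fun a => ∑ i : Fin (d + 1), a i * (t : ℤ) ^ (i : ℕ) = u - g n) := by
        intro v hv
        rw [mem_filter] at hv ⊢
        refine ⟨hv.1, ?_⟩
        have := hv.2
        unfold pv at this
        linarith
      exact_mod_cast card_le_card this
    have hKX : K * X ≤ C₂ * L ^ (d + 1) := by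
      have : K * X = C₂ * (H : ℝ) ^ (d + 1) := by
        rw [hK, hX, hC₂]
        push_cast
        have ht0 : (t : ℝ) ^ d ≠ 0 := by positivity
        rw [div_pow, mul_pow, pow_succ]
        field_simp
      rw [this]
      gcongr
    rw [← sum_filter_add_sum_filter_not (Icc 1 M) (fun m : ℕ => s m = s n)]
    -- equal values
    have near : ∑ m ∈ (Icc 1 M).filter (fun m : ℕ => s m = s n),
        ‖∑ v ∈ Bx d H, (F (pv v (s n) + g n) * w n) * (starRingEnd ℂ) (F (pv v (s m) + g m) * w m)‖ ≤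
        e / 4 * M * L ^ (d + 1) := by
      have b1 : ∀ m ∈ (Icc 1 M).filter (fun m : ℕ => s m = s n),
          ‖∑ v ∈ Bx d H, (F (pv v (s n) + g n) * w n) * (starRingEnd ℂ) (F (pv v (s m) + g m) * w m)‖ ≤
          L ^ (d + 1) := by
        intro m _
        rw [← hBx]
        refine (norm_sum_le _ _).trans ((sum_le_sum (g := fun _ => (1 : ℝ)) fun v _ => ?_).trans (le_of_eq ?_))
        · rw [norm_mul, norm_mul, RCLike.norm_conj, norm_mul]
          exact mul_le_one₀ (mul_le_one₀ (hb _) (norm_nonneg _) (hw _)) (by positivity)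
            (mul_le_one₀ (hb _) (norm_nonneg _) (hw _))
        · rw [sum_const, nsmul_eq_mul, mul_one]
      refine (sum_le_sum b1).trans ?_
      rw [sum_const, nsmul_eq_mul]
      apply mul_le_mul_of_nonneg_right _ (by positivity)
      have h2 : (Icc 1 M).filter (fun m : ℕ => s m = s n) ⊆
          (Icc 1 M).filter (fun m : ℕ => s m % (max F1 x + 1) = s n) := by
        intro m hm
        rw [mem_filter] at hm ⊢
        refine ⟨hm.1, ?_⟩
        have h3 := (hs m hm.1).2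
        rw [Nat.mod_eq_of_lt (by omega)]
        exact hm.2
      have h3 := hcl (max F1 x + 1) (by omega) (s n)
      calc ((((Icc 1 M).filter (fun m : ℕ => s m = s n)).card : ℕ) : ℝ) ≤
            (((Icc 1 M).filter (fun m : ℕ => s m % (max F1 x + 1) = s n)).card : ℝ) := by exact_mod_cast card_le_card h2
        _ ≤ η * M := h3
        _ ≤ e / 4 * M := mul_le_mul_of_nonneg_right hηe hM0
    -- different values
    have far : ∑ m ∈ (Icc 1 M).filter (fun m : ℕ => ¬ s m = s n),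
        ‖∑ v ∈ Bx d H, (F (pv v (s n) + g n) * w n) * (starRingEnd ℂ) (F (pv v (s m) + g m) * w m)‖ ≤
        3 * e / 4 * M * L ^ (d + 1) := by
      obtain ⟨P1, hP1⟩ : ∃ P1 : ℝ, P1 = e / 4 * L ^ (d + 1) := ⟨_, rfl⟩
      set U : Finset ℤ := Icc (-((2 * X : ℕ) : ℤ)) ((2 * X : ℕ) : ℤ) with hU
      have b1 : ∀ m ∈ (Icc 1 M).filter (fun m : ℕ => ¬ s m = s n),
          ‖∑ v ∈ Bx d H, (F (pv v (s n) + g n) * w n) * (starRingEnd ℂ) (F (pv v (s m) + g m) * w m)‖ ≤
          P1 + 2 * K / W * (∑ u ∈ U, Cq F W ((s n : ℤ) - s m).natAbs u + 5 * (x : ℝ) * X) := by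
        intro m hm
        rw [mem_filter] at hm
        have hsm := hs m hm.1
        have hsn := hs n hn
        obtain ⟨r, hr1, hr2⟩ := vanish d ({()} : Finset Unit) (by rw [card_singleton]; exact hd)
          (fun _ => (s m : ℤ)) x (by
            intro i _
            rw [abs_of_nonneg (by positivity)]
            exact_mod_cast hsm.2)
        rw [card_singleton, pow_one] at hr1
        have hval : ∀ z : ℕ, pv r z = (z : ℤ) - s m := by
          intro z
          rw [hr2, prod_singleton]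
        obtain ⟨q, hq⟩ : ∃ q : ℕ, q = ((s n : ℤ) - s m).natAbs := ⟨_, rfl⟩
        have hq0 : 1 ≤ q := by omega
        have hqx : q ≤ x := by omega
        have hqr : (1 : ℝ) ≤ q := by exact_mod_cast hq0
        have hqH : q ≤ H := by
          have h2 := hpow 1 (by omega) 1 (by omega)
          rw [pow_one] at h2
          omega
        have hqW : q ≤ W := by
          have : x ≤ x ^ 2 := Nat.le_self_pow (by norm_num) _
          omega
        have key := pair F hb d H W (fun v => w n * (starRingEnd ℂ) (F (pv v (s m) + g m) * w m)) (fun v => by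
            rw [norm_mul, RCLike.norm_conj, norm_mul]
            exact mul_le_one₀ (hw _) (by positivity) (mul_le_one₀ (hb _) (norm_nonneg _) (hw _)))
          r (fun v z => by
            have i3 : pv (v + z • r) (s m) = pv v (s m) := by
              rw [pv_smul, hval]
              ring
            simp only [i3])
          (1 + (x : ℝ)) hr1 t (g n) q hq0 hqW (by rw [ht, hval, hq]) X (hqH.trans hHX) hXv K hK0 hKv
        have e1 : ∑ v ∈ Bx d H, (F (pv v (s n) + g n) * w n) * (starRingEnd ℂ) (F (pv v (s m) + g m) * w m) =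
            ∑ v ∈ Bx d H, F (pv v t + g n) * (w n * (starRingEnd ℂ) (F (pv v (s m) + g m) * w m)) := by
          rw [ht]
          refine sum_congr rfl fun v _ => ?_
          ring
        rw [e1, ← hq]
        refine key.trans (add_le_add ?_ ?_)
        · have k2 : (W : ℝ) / q ≤ W := div_le_self hWr.le hqr
          have k4 : (A : ℝ) * (x : ℝ) ^ 3 ≤ H := by exact_mod_cast hAH
          have k5 : 16 * (d + 1) * A₁ / e ≤ A := (Nat.le_ceil _).trans (by
            exact_mod_cast (by omega : ⌈16 * ((d : ℝ) + 1) * A₁ / e⌉₊ ≤ A))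
          have k6 : 16 * (d + 1) * A₁ * (x : ℝ) ^ 3 ≤ e * H := by
            rw [div_le_iff₀ he0] at k5
            calc 16 * (d + 1) * A₁ * (x : ℝ) ^ 3 ≤ A * e * (x : ℝ) ^ 3 := by gcongr
              _ = e * (A * (x : ℝ) ^ 3) := by ring
              _ ≤ e * H := mul_le_mul_of_nonneg_left k4 he0.le
          have k7 : (W : ℝ) / q * (1 + (x : ℝ)) ≤ 2 * A₁ * (x : ℝ) ^ 3 := by
            calc (W : ℝ) / q * (1 + (x : ℝ)) ≤ W * (x + x) := by gcongr
              _ = 2 * A₁ * (x : ℝ) ^ 3 := by rw [hW]; push_cast; ring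
          rw [← hL]
          calc 2 * (((d : ℝ) + 1) * ((W : ℝ) / q * (1 + (x : ℝ))) * L ^ d) ≤
                2 * (((d : ℝ) + 1) * (2 * A₁ * (x : ℝ) ^ 3) * L ^ d) := by gcongr
            _ = 1 / 4 * (16 * (d + 1) * A₁ * (x : ℝ) ^ 3) * L ^ d := by ring
            _ ≤ 1 / 4 * (e * H) * L ^ d := by gcongr
            _ ≤ 1 / 4 * (e * L) * L ^ d := by gcongr
            _ = P1 := by rw [hP1]; ring
        · apply mul_le_mul_of_nonneg_left _ (by positivity)
          have : (q : ℝ) ≤ x := by exact_mod_cast hqx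
          gcongr
      refine (sum_le_sum b1).trans ?_
      rw [sum_add_distrib, ← mul_sum, sum_add_distrib, sum_const, sum_const, nsmul_eq_mul, nsmul_eq_mul]
      have hcard : ((((Icc 1 M).filter (fun m : ℕ => ¬ s m = s n)).card : ℕ) : ℝ) ≤ M := by
        have : ((Icc 1 M).filter (fun m : ℕ => ¬ s m = s n)).card ≤ M := by
          refine (card_filter_le _ _).trans ?_
          rw [Nat.card_Icc, Nat.add_sub_cancel]
        exact_mod_cast this
      have c1 : ∑ m ∈ (Icc 1 M).filter (fun m : ℕ => ¬ s m = s n), ∑ u ∈ U, Cq F W ((s n : ℤ) - s m).natAbs u ≤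
          7 * η₁ * M * W * X := by
        rw [sum_comm]
        have c2 : ∀ u ∈ U, ∑ m ∈ (Icc 1 M).filter (fun m : ℕ => ¬ s m = s n), Cq F W ((s n : ℤ) - s m).natAbs u ≤
            M * (∑ D ∈ Icc 1 F1, ∑ b ∈ range D, ‖WF F W u ((b : ℝ) / D)‖ + η₁ * W) := by
          intro u _
          rw [← hηs]
          refine avgS F hb F1 x M W η hη0.le hx1 hW1 (fun m => ((s n : ℤ) - s m).natAbs) _ (filter_subset _ _) ?_ ?_ u
          · intro m hm
            rw [mem_filter] at hm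
            have h1 := hs m hm.1
            have h2 := hs n hn
            constructor <;> omega
          · intro D hD
            refine le_trans ?_ (hcl D hD (s n % D))
            have : ((Icc 1 M).filter (fun m : ℕ => ¬ s m = s n)).filter (fun m => D ∣ ((s n : ℤ) - s m).natAbs) ⊆
                (Icc 1 M).filter (fun m => s m % D = s n % D) := by
              intro m hm
              rw [mem_filter, mem_filter] at hm
              rw [mem_filter]
              refine ⟨hm.1.1, ?_⟩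
              have h3 : (D : ℤ) ∣ (s n : ℤ) - s m := by
                rw [Int.natCast_dvd]
                exact hm.2
              have h4 : s m ≡ s n [MOD D] := (Nat.modEq_iff_dvd).2 h3
              exact h4
            exact_mod_cast card_le_card this
        refine (sum_le_sum c2).trans ?_
        rw [← mul_sum, sum_add_distrib, sum_const, nsmul_eq_mul, hU, cardI, ← hU]
        have c3 : ∑ u ∈ U, ∑ D ∈ Icc 1 F1, ∑ b ∈ range D, ‖WF F W u ((b : ℝ) / D)‖ ≤ η₁ * W * (2 * X) := by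
          rw [sum_comm]
          have c4 : ∀ D ∈ Icc 1 F1, ∑ u ∈ U, ∑ b ∈ range D, ‖WF F W u ((b : ℝ) / D)‖ ≤
              F1 * (η₁ / ((F1 : ℝ) + 1) ^ 2 * W * (2 * X)) := by
            intro D hD
            rw [mem_Icc] at hD
            rw [sum_comm]
            have c5 : ∀ b ∈ range D, ∑ u ∈ U, ‖WF F W u ((b : ℝ) / D)‖ ≤ η₁ / ((F1 : ℝ) + 1) ^ 2 * W * (2 * X) := by
              intro b _
              have := hWZ (2 * X) (by omega) W hW2 (by omega) ((b : ℝ) / D)
              push_cast at this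
              rw [hU]
              push_cast
              exact this
            refine (sum_le_sum c5).trans ?_
            rw [sum_const, card_range, nsmul_eq_mul]
            apply mul_le_mul_of_nonneg_right _ (by positivity)
            exact_mod_cast hD.2
          refine (sum_le_sum c4).trans ?_
          rw [sum_const, Nat.card_Icc, nsmul_eq_mul, Nat.add_sub_cancel]
          have : (F1 : ℝ) * (F1 * (η₁ / ((F1 : ℝ) + 1) ^ 2 * W * (2 * X))) =
              ((F1 : ℝ) ^ 2 / ((F1 : ℝ) + 1) ^ 2) * (η₁ * W * (2 * X)) := by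
            field_simp
          rw [this]
          apply mul_le_of_le_one_left (by positivity)
          rw [div_le_one (by positivity)]
          apply pow_le_pow_left₀ (by positivity)
          linarith
        push_cast
        calc (M : ℝ) * (∑ u ∈ U, ∑ D ∈ Icc 1 F1, ∑ b ∈ range D, ‖WF F W u ((b : ℝ) / D)‖ +
              (2 * (2 * (X : ℝ)) + 1) * (η₁ * W)) ≤ M * (η₁ * W * (2 * X) + (2 * (2 * (X : ℝ)) + X) * (η₁ * W)) := by
              gcongr
          _ = _ := by ring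
      have c6 : 2 * K / W * (7 * η₁ * M * W * X) ≤ e / 4 * M * L ^ (d + 1) := by
        have : 2 * K / W * (7 * η₁ * M * W * X) = 14 * η₁ * M * (K * X) := by
          field_simp
          ring
        rw [this]
        calc 14 * η₁ * M * (K * X) ≤ 20 * η₁ * M * (C₂ * L ^ (d + 1)) := by
              have : 0 ≤ K * X := by positivity
              gcongr
              norm_num
          _ = e / 4 * M * L ^ (d + 1) := by
              rw [hη₁]
              field_simp
              ring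
      have c7 : 2 * K / W * (M * (5 * (x : ℝ) * X)) ≤ e / 4 * M * L ^ (d + 1) := by
        have d1 : (x : ℝ) / W ≤ 1 / A₁ := by
          rw [hW]
          push_cast
          rw [div_le_div_iff₀ (by positivity) (by positivity)]
          have : (x : ℝ) ≤ (x : ℝ) ^ 2 := by nlinarith
          nlinarith
        have d2 : (1 : ℝ) / A₁ ≤ e / (40 * C₂) := by
          rw [div_le_div_iff₀ (by positivity) (by positivity)]
          rw [div_le_iff₀ he0] at hA₁2
          linarith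
        calc 2 * K / W * (M * (5 * (x : ℝ) * X)) = 10 * M * ((x : ℝ) / W) * (K * X) := by
              field_simp
              ring
          _ ≤ 10 * M * (e / (40 * C₂)) * (C₂ * L ^ (d + 1)) := by
              have := d1.trans d2
              gcongr
          _ = _ := by
              field_simp
              ring
      have c8 : ((((Icc 1 M).filter (fun m : ℕ => ¬ s m = s n)).card : ℕ) : ℝ) * P1 ≤ e / 4 * M * L ^ (d + 1) := by
        have hP10 : 0 ≤ P1 := by rw [hP1]; positivity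
        calc _ ≤ (M : ℝ) * P1 := mul_le_mul_of_nonneg_right hcard hP10
          _ = _ := by rw [hP1]; ring
      have hKW : 0 ≤ 2 * K / (W : ℝ) := by positivity
      calc _ ≤ e / 4 * M * L ^ (d + 1) + 2 * K / W * (7 * η₁ * M * W * X + M * (5 * (x : ℝ) * X)) := by
            apply add_le_add c8
            apply mul_le_mul_of_nonneg_left _ hKW
            apply add_le_add c1
            apply mul_le_mul_of_nonneg_right hcard (by positivity)
        _ ≤ e / 4 * M * L ^ (d + 1) + (e / 4 * M * L ^ (d + 1) + e / 4 * M * L ^ (d + 1)) := by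
            rw [mul_add]
            linarith
        _ = _ := by ring
    calc _ ≤ e / 4 * M * L ^ (d + 1) + 3 * e / 4 * M * L ^ (d + 1) := add_le_add near far
      _ = _ := by ring
  have h1 := moment_of d H M (fun n v => F (pv v (s n) + g n) * w n) _ main
  refine h1.trans ?_
  rw [hBx]
  calc (M : ℝ) * (e * M * L ^ (d + 1)) = e * M ^ 2 * L ^ (d + 1) := by ring
    _ ≤ ε * M ^ 2 * L ^ (d + 1) := by gcongr

end Pool.Agent.Helper82K9.PX
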