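import Pool.Agent.Helper82K9.PX.PX8

set_option autoImplicit false

/-! Almost all polynomials along a sequence: all lengths, tuples, real multiplicative functions. -/

namespace Pool.Agent.Helper82K9.PX

open Finset
open Pool.Agent.TH892.RT (Bx Bk pv card_Bx cheb fibre)
open Pool.Agent.Helper82K9.RQ (WZ sg sg_norm wz_of farR_mono)
open Pool.Agent.Helper82K9.EL (RMul FarR ws_real)

open Classical in
/-- almost all polynomials, all lengths -/
theorem almostS (d : ℕ) (hd : 1 ≤ d) (C ε : ℝ) (hε : 0 < ε) : ∃ η : ℝ, 0 < η ∧ ∀ F1 : ℕ,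
    ∃ e₀ : ℝ, 0 < e₀ ∧ ∀ W₀ : ℕ, ∃ A : ℕ, 1 ≤ A ∧ ∀ F : ℤ → ℂ, (∀ u, ‖F u‖ ≤ 1) → ∀ H x M : ℕ, 1 ≤ x → A ≤ M →
    A * x ^ 3 ≤ H → WZ F e₀ W₀ H → ∀ s : ℕ → ℕ, (∀ m ∈ Icc 1 M, 1 ≤ s m ∧ s m ≤ x) →
    (∀ D : ℕ, F1 < D → ∀ r : ℕ, (((Icc 1 M).filter (fun m => s m % D = r)).card : ℝ) ≤ η * M) →
    ∀ g : ℕ → ℤ, (∀ m ∈ Icc 1 M, |(g m : ℝ)| ≤ C * H * (s m : ℝ) ^ d) →
    ∀ w : ℕ → ℂ, (∀ n, ‖w n‖ ≤ 1) →
    ((((Bx d H).filter (fun v => ∃ y ≤ M, ε * M < ‖∑ n ∈ Icc 1 y, F (pv v (s n) + g n) * w n‖)).card : ℕ) : ℝ) ≤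
      ε * (Bx d H).card := by
  obtain ⟨N, hN⟩ : ∃ N : ℕ, N = ⌈4 / ε⌉₊ + 1 := ⟨_, rfl⟩
  have hN1 : 1 ≤ N := by omega
  have hNr : (0 : ℝ) < N := by exact_mod_cast hN1
  have hNε : 4 / ε ≤ N := (Nat.le_ceil _).trans (by exact_mod_cast (by omega : ⌈4 / ε⌉₊ ≤ N))
  have hNε' : 4 ≤ ε * N := by
    rw [div_le_iff₀ hε] at hNε
    linarith
  obtain ⟨η, hη, hS1⟩ := momentS d hd C (ε ^ 3 / (4 * (N + 1))) (by positivity)
  refine ⟨η, hη, fun F1 => ?_⟩
  obtain ⟨e₀, he₀, hS0⟩ := hS1 F1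
  refine ⟨e₀, he₀, fun W₀ => ?_⟩
  obtain ⟨A, hA1, hS⟩ := hS0 W₀
  refine ⟨max A N, hA1.trans (le_max_left _ _), fun F hb H x M hx0 hAM hAH hWZ s hs hcl g hg w hw => ?_⟩
  have hMN : N ≤ M := (le_max_right _ _).trans hAM
  have hM1 : 1 ≤ M := hN1.trans hMN
  have hAH' : A * x ^ 3 ≤ H := le_trans (Nat.mul_le_mul_right _ (le_max_left _ _)) hAH
  have hMr : (0 : ℝ) < M := by exact_mod_cast hM1
  have hMNr : (N : ℝ) ≤ M := by exact_mod_cast hMN
  -- the grid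
  obtain ⟨Y, hY⟩ : ∃ Y : ℕ → ℕ, Y = fun j => j * M / N := ⟨_, rfl⟩
  have hYx : ∀ j ∈ range (N + 1), Y j ≤ M := by
    intro j hj
    rw [mem_range] at hj
    rw [hY]
    apply Nat.div_le_of_le_mul
    exact Nat.mul_le_mul_right M (by omega)
  have hgrid : ∀ y ≤ M, ∃ j ∈ range (N + 1), Y j ≤ y ∧ ((y - Y j : ℕ) : ℝ) ≤ ε / 2 * M := by
    intro y hy
    have hN0 : 0 < N := hN1
    refine ⟨y * N / M, ?_, ?_, ?_⟩
    · rw [mem_range]
      have : y * N / M ≤ N := by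
        apply Nat.div_le_of_le_mul
        exact Nat.mul_le_mul_right N hy
      omega
    · rw [hY]
      apply Nat.div_le_of_le_mul
      rw [mul_comm N y]
      exact Nat.div_mul_le_self _ _
    · have h1 : Y (y * N / M) ≤ y := by
        rw [hY]
        apply Nat.div_le_of_le_mul
        rw [mul_comm N y]
        exact Nat.div_mul_le_self _ _
      rw [Nat.cast_sub h1]
      have h2 : (y : ℝ) * N / M - 1 < ((y * N / M : ℕ) : ℝ) := by
        have := Nat.lt_succ_floor ((y : ℝ) * N / M)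
        have h3 : ⌊(y : ℝ) * N / M⌋₊ = y * N / M := by
          have := Nat.floor_div_eq_div (K := ℝ) (y * N) M
          push_cast at this
          exact this
        rw [h3] at this
        push_cast at this
        linarith
      have h4 : ((y * N / M : ℕ) : ℝ) * M / N - 1 < (Y (y * N / M) : ℝ) := by
        rw [hY]
        have := Nat.lt_succ_floor (((y * N / M : ℕ) : ℝ) * M / N)
        have h3 : ⌊((y * N / M : ℕ) : ℝ) * M / N⌋₊ = (y * N / M) * M / N := by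
          have := Nat.floor_div_eq_div (K := ℝ) ((y * N / M) * M) N
          push_cast at this
          exact this
        rw [h3] at this
        push_cast at this
        push_cast
        linarith
      have h5 : (y : ℝ) - M / N ≤ ((y * N / M : ℕ) : ℝ) * M / N := by
        have h6 : ((y : ℝ) * N / M - 1) * M / N ≤ ((y * N / M : ℕ) : ℝ) * M / N := by gcongr
        refine le_trans (le_of_eq ?_) h6
        field_simp
      have h7 : (M : ℝ) / N ≤ ε / 4 * M := by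
        rw [div_le_iff₀ hNr]
        nlinarith
      have h8 : (1 : ℝ) ≤ ε / 4 * M := by
        have : 4 ≤ ε * M := hNε'.trans (by gcongr)
        linarith
      linarith
  -- the exceptions
  have hsub : (Bx d H).filter (fun v => ∃ y ≤ M, ε * M < ‖∑ n ∈ Icc 1 y, F (pv v (s n) + g n) * w n‖) ⊆
      (range (N + 1)).biUnion (fun j => (Bx d H).filter (fun v => ε / 2 * M < ‖∑ n ∈ Icc 1 M,
        F (pv v (s n) + g n) * (if n ≤ Y j then w n else 0)‖)) := by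
    intro v hv
    rw [mem_filter] at hv
    obtain ⟨hv1, y, hy, hv2⟩ := hv
    obtain ⟨j, hj, hj1, hj2⟩ := hgrid y hy
    rw [mem_biUnion]
    refine ⟨j, hj, mem_filter.2 ⟨hv1, ?_⟩⟩
    have e1 : ∑ n ∈ Icc 1 M, F (pv v (s n) + g n) * (if n ≤ Y j then w n else 0) =
        ∑ n ∈ Icc 1 (Y j), F (pv v (s n) + g n) * w n := by
      have : Icc 1 (Y j) = (Icc 1 M).filter (fun n => n ≤ Y j) := by
        ext n
        rw [mem_filter, mem_Icc, mem_Icc]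
        have := hYx j hj
        omega
      rw [this, sum_filter]
      refine sum_congr rfl fun n _ => ?_
      split_ifs <;> simp
    rw [e1]
    have e2 : ∑ n ∈ Icc 1 y, F (pv v (s n) + g n) * w n = ∑ n ∈ Icc 1 (Y j), F (pv v (s n) + g n) * w n +
        ∑ n ∈ Icc (Y j + 1) y, F (pv v (s n) + g n) * w n := by
      have hu : Icc 1 y = Icc 1 (Y j) ∪ Icc (Y j + 1) y := by
        ext n
        rw [mem_union, mem_Icc, mem_Icc, mem_Icc]
        omega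
      rw [hu, sum_union]
      rw [Finset.disjoint_left]
      intro n h1 h2
      rw [mem_Icc] at h1 h2
      omega
    rw [e2] at hv2
    have e3 : ‖∑ n ∈ Icc (Y j + 1) y, F (pv v (s n) + g n) * w n‖ ≤ ε / 2 * M := by
      refine (norm_sum_le _ _).trans (le_trans (sum_le_sum fun n _ => ?_) (?_ : ∑ n ∈ Icc (Y j + 1) y, (1 : ℝ) ≤ _))
      · rw [norm_mul]
        exact mul_le_one₀ (hb _) (norm_nonneg _) (hw n)
      · rw [sum_const, Nat.card_Icc, nsmul_eq_mul, mul_one]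
        refine le_trans ?_ hj2
        exact_mod_cast (by omega : y + 1 - (Y j + 1) ≤ y - Y j)
    have e4 := norm_add_le (∑ n ∈ Icc 1 (Y j), F (pv v (s n) + g n) * w n)
      (∑ n ∈ Icc (Y j + 1) y, F (pv v (s n) + g n) * w n)
    linarith
  have hone : ∀ j ∈ range (N + 1), ((((Bx d H).filter (fun v => ε / 2 * M < ‖∑ n ∈ Icc 1 M,
        F (pv v (s n) + g n) * (if n ≤ Y j then w n else 0)‖)).card : ℕ) : ℝ) ≤ ε / (N + 1) * (Bx d H).card := by
    intro j _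
    have h1 := hS F hb H x M hx0 hAH' hWZ s hs hcl g hg (fun n => if n ≤ Y j then w n else 0) (fun n => by
      split_ifs
      · exact hw n
      · simp)
    have h2 := cheb (Bx d H) (fun v => ‖∑ n ∈ Icc 1 M, F (pv v (s n) + g n) * (if n ≤ Y j then w n else 0)‖)
      (fun _ _ => norm_nonneg _) (ε / 2 * M) _ (by positivity) h1
    refine h2.trans (le_of_eq ?_)
    field_simp
    ring
  have h1 : (((Bx d H).filter (fun v => ∃ y ≤ M, ε * M < ‖∑ n ∈ Icc 1 y, F (pv v (s n) + g n) * w n‖)).card : ℕ) ≤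
      ∑ j ∈ range (N + 1), ((Bx d H).filter (fun v => ε / 2 * M < ‖∑ n ∈ Icc 1 M,
        F (pv v (s n) + g n) * (if n ≤ Y j then w n else 0)‖)).card :=
    (card_le_card hsub).trans card_biUnion_le
  calc ((((Bx d H).filter (fun v => ∃ y ≤ M, ε * M < ‖∑ n ∈ Icc 1 y, F (pv v (s n) + g n) * w n‖)).card : ℕ) : ℝ) ≤
      ∑ j ∈ range (N + 1), ((((Bx d H).filter (fun v => ε / 2 * M < ‖∑ n ∈ Icc 1 M,
        F (pv v (s n) + g n) * (if n ≤ Y j then w n else 0)‖)).card : ℕ) : ℝ) := by exact_mod_cast h1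
    _ ≤ ∑ j ∈ range (N + 1), ε / (N + 1) * (Bx d H).card := sum_le_sum hone
    _ = ε * (Bx d H).card := by
        rw [sum_const, card_range, nsmul_eq_mul]
        push_cast
        field_simp

open Classical in
/-- tuples of polynomials -/
theorem tuplesS (k d : ℕ) (hd : 1 ≤ d) (C ε : ℝ) (hε : 0 < ε) : ∃ η : ℝ, 0 < η ∧ ∀ F1 : ℕ,
    ∃ A : ℕ, 1 ≤ A ∧ ∀ H x M : ℕ, 1 ≤ x → A ≤ M → A * x ^ 3 ≤ H →
    ∀ s : ℕ → ℕ, (∀ m ∈ Icc 1 M, 1 ≤ s m ∧ s m ≤ x) →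
    (∀ D : ℕ, F1 < D → ∀ r : ℕ, (((Icc 1 M).filter (fun m => s m % D = r)).card : ℝ) ≤ η * M) →
    ∀ f : ℕ → ℝ, RMul f → FarR A H f → ∀ c : ℂ, ‖c‖ ≤ 1 →
    ∀ w : (Fin (k + 1) → Fin (d + 1) → ℤ) → ℕ → ℂ, (∀ a n, ‖w a n‖ ≤ 1) → (∀ a v n, w (Function.update a 0 v) n = w a n) →
    ∀ g : ℕ → ℤ, (∀ m ∈ Icc 1 M, |(g m : ℝ)| ≤ C * H * (s m : ℝ) ^ d) →
    ((((Bk (k + 1) d H).filter (fun a => ∃ y ≤ M, ε * M < ‖∑ n ∈ Icc 1 y,
      sg (fun n => (f n : ℂ)) c (pv (a 0) (s n) + g n) * w a n‖)).card : ℕ) : ℝ) ≤ ε * (Bk (k + 1) d H).card := by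
  obtain ⟨η, hη, h0⟩ := almostS d hd C ε hε
  refine ⟨η, hη, fun F1 => ?_⟩
  obtain ⟨e₀, he₀, h00⟩ := h0 F1
  obtain ⟨A₁, hA₁, h1⟩ := ws_real (e₀ / 2) (by positivity)
  obtain ⟨A, hA1, h2⟩ := h00 A₁
  refine ⟨max A₁ A, hA1.trans (le_max_right _ _), fun H x M hx hAM hxH s hs hcl f hf hF c hc w hw hwu g hg => ?_⟩
  have hb : ∀ n, ‖((f n : ℝ) : ℂ)‖ ≤ 1 := fun n => by
    rw [Complex.norm_real, Real.norm_eq_abs]
    exact hf.abs n
  have hA₁H : A₁ ≤ H := by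
    refine le_trans ?_ hxH
    calc A₁ = A₁ * 1 := by ring
      _ ≤ max A₁ A * x ^ 3 := Nat.mul_le_mul (le_max_left _ _) (Nat.one_le_pow _ _ hx)
  have hWZ : WZ (sg (fun n => (f n : ℂ)) c) e₀ A₁ H := by
    refine wz_of _ c hc e₀ A₁ H fun X hX => ?_
    exact h1 H hA₁H f hf (farR_mono hF (le_max_left _ _)) X hX
  apply fibre (k + 1) d H 0 _ ε hε.le
  intro a
  refine le_trans (le_of_eq ?_) (h2 (sg (fun n => (f n : ℂ)) c) (sg_norm hb hc) H x M hx ((le_max_right _ _).trans hAM)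
    (le_trans (Nat.mul_le_mul_right _ (le_max_right _ _)) hxH) hWZ s hs hcl g hg (w a) (hw a))
  congr 2
  apply filter_congr
  intro v _
  rw [Function.update_self]
  simp only [hwu]

end Pool.Agent.Helper82K9.PX
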